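import Pool.Agent.W812.EG14

/-! The spread bound in terms of the maximum degree. -/

namespace Pool.Agent.W812.EG

open Finset

variable {n : ℕ}

/-- the first exponent with a small number of common neighbours -/
lemma exists_first (p : ℝ) (hp : 0 < p) (hp2 : p ≤ 1 / 2) (hn : 1 ≤ n) :
    ∃ k₁ : ℕ, 1 ≤ k₁ ∧ (n : ℝ) * p ^ (2 * k₁) < 1 ∧
      ∀ k < k₁, 1 ≤ (n : ℝ) * p ^ (2 * k) := by
  classical
  have hnr : (1 : ℝ) ≤ n := by exact_mod_cast hn
  have hn0 : (0 : ℝ) < n := by linarith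
  have hex : ∃ k : ℕ, (n : ℝ) * p ^ (2 * k) < 1 := by
    obtain ⟨k, hk⟩ := exists_pow_lt_of_lt_one (show (0 : ℝ) < 1 / n by positivity)
      (show p ^ 2 < 1 by nlinarith)
    refine ⟨k, ?_⟩
    rw [pow_mul]
    rw [lt_div_iff₀ hn0] at hk
    linarith
  refine ⟨Nat.find hex, ?_, Nat.find_spec hex, ?_⟩
  · by_contra h
    have h0 : Nat.find hex = 0 := by omega
    have := Nat.find_spec hex
    rw [h0, mul_zero, pow_zero, mul_one] at this
    linarith
  · intro k hk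
    have := Nat.find_min hex hk
    linarith

/-- the orbit of a set of pairs is spread, in terms of the maximum degree -/
theorem spread_degree (E : Finset (PP n)) (p : ℝ) (hp : 0 < p) (hp2 : p ≤ 1 / 2)
    (horb : ∀ U ⊆ E, 1 ≤ ((orb (Equiv.Perm (Fin n)) U).card : ℝ) * p ^ U.card)
    (Δ : ℕ) (hΔ1 : 1 ≤ Δ) (hΔ : ∀ u, (nbS E univ u).card ≤ Δ) (hn : 1 ≤ n)
    (v e : ℕ) (hv : 1 ≤ v) (he : 1 ≤ e) (hve : 1 ≤ (n : ℝ) ^ v * p ^ e)
    (hBp : 64 * (Δ : ℝ) ^ (4 * (v : ℝ) / e) * p ≤ 1) (Z : Finset (PP n)) :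
    (av (Equiv.Perm (Fin n)) Z E : ℝ) ≤
      Fintype.card (Equiv.Perm (Fin n)) * (8 * (64 * (Δ : ℝ) ^ (4 * (v : ℝ) / e) * p)) ^ Z.card := by
  classical
  obtain ⟨k₁, hk1, hk2, hk3⟩ := exists_first p hp hp2 hn
  have hnr : (1 : ℝ) ≤ n := by exact_mod_cast hn
  have hΔr : (1 : ℝ) ≤ Δ := by exact_mod_cast hΔ1
  have hvr : (1 : ℝ) ≤ v := by exact_mod_cast hv
  have her : (1 : ℝ) ≤ e := by exact_mod_cast he
  set θ : ℝ := 4 * (v : ℝ) / e with hθ
  have hθ0 : 0 ≤ θ := by positivity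
  have hpow : (1 : ℝ) ≤ (Δ : ℝ) ^ θ := Real.one_le_rpow hΔr hθ0
  have hp1 : p ≤ 1 := by linarith
  -- `e < 2 k₁ v`
  have hek : e < 2 * k₁ * v := by
    have h1 : (n : ℝ) ^ v * p ^ (2 * k₁ * v) < (n : ℝ) ^ v * p ^ e := by
      have h2 : ((n : ℝ) * p ^ (2 * k₁)) ^ v < 1 := pow_lt_one₀ (by positivity) hk2 (by omega)
      calc (n : ℝ) ^ v * p ^ (2 * k₁ * v) = ((n : ℝ) * p ^ (2 * k₁)) ^ v := by
            rw [mul_pow, ← pow_mul]
        _ < 1 := h2
        _ ≤ _ := hve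
    have h3 : p ^ (2 * k₁ * v) < p ^ e := lt_of_mul_lt_mul_left h1 (by positivity)
    exact (pow_lt_pow_iff_right_of_lt_one₀ hp (by linarith)).mp h3
  have hB16 : (16 : ℝ) ≤ 64 * (Δ : ℝ) ^ θ := by linarith
  apply av_of_Emb E Z (64 * (Δ : ℝ) ^ θ * p) (by positivity)
  have key := peel_all E p hp hp2 horb (64 * (Δ : ℝ) ^ θ) hB16 hBp k₁ hk3 Z (by
    intro X hX
    have h1 : k₁ * X.card ≤ 2 * (ins Z X).card := by
      refine le_trans ?_ (sum_deg_le Z X)
      rw [mul_comm, ← smul_eq_mul]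
      exact Finset.card_nsmul_le_sum X _ _ hX
    have h2 := rigid_bound E Δ hΔ p hp hp1 horb hΔ1 Z X.card X le_rfl
    have h3 : X.card ≤ 2 * (ins Z X).card := by nlinarith
    have h4 : e * X.card ≤ 4 * v * (ins Z X).card := by
      calc e * X.card ≤ (2 * k₁ * v) * X.card := Nat.mul_le_mul_right _ hek.le
        _ = 2 * v * (k₁ * X.card) := by ring
        _ ≤ 2 * v * (2 * (ins Z X).card) := Nat.mul_le_mul_left _ h1
        _ = _ := by ring
    have h5 : (X.card : ℝ) ≤ θ * (ins Z X).card := by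
      have h6 : (e : ℝ) * X.card ≤ 4 * v * (ins Z X).card := by exact_mod_cast h4
      rw [hθ, div_mul_eq_mul_div, le_div_iff₀ (by linarith)]
      linarith
    have h7 : (8 * (Δ : ℝ)) ^ X.card ≤ (64 * (Δ : ℝ) ^ θ) ^ (ins Z X).card := by
      rw [mul_pow, mul_pow]
      apply mul_le_mul _ _ (by positivity) (by positivity)
      · calc (8 : ℝ) ^ X.card ≤ 8 ^ (2 * (ins Z X).card) := pow_le_pow_right₀ (by norm_num) h3
          _ = 64 ^ (ins Z X).card := by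
              rw [pow_mul]
              norm_num
      · calc (Δ : ℝ) ^ X.card = (Δ : ℝ) ^ (X.card : ℝ) := (Real.rpow_natCast _ _).symm
          _ ≤ (Δ : ℝ) ^ (θ * (ins Z X).card) := Real.rpow_le_rpow_of_exponent_le hΔr h5
          _ = ((Δ : ℝ) ^ θ) ^ (ins Z X).card := by
              rw [Real.rpow_mul (by linarith), Real.rpow_natCast]
    refine h2.trans ?_
    calc (8 * (Δ : ℝ)) ^ X.card * (n : ℝ) ^ X.card * p ^ (ins Z X).card ≤
          (64 * (Δ : ℝ) ^ θ) ^ (ins Z X).card * (n : ℝ) ^ X.card * p ^ (ins Z X).card := by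
          apply mul_le_mul_of_nonneg_right _ (by positivity)
          exact mul_le_mul_of_nonneg_right h7 (by positivity)
      _ = _ := by
          rw [mul_pow (64 * (Δ : ℝ) ^ θ) p]
          ring) (vs Z).card (vs Z) rfl
  rw [ins_vs] at key
  exact key

end Pool.Agent.W812.EG
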