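import Pool.Agent.W812.EG17

/-! Out-closed placements. -/

namespace Pool.Agent.W812.EG

open Finset

variable {n : ℕ}

open Classical in
/-- the pairs of `E` whose endpoint of smaller rank is `a` -/
noncomputable def Ou (r : Fin n → ℕ) (E : Finset (PP n)) (a : Fin n) : Finset (PP n) :=
  E.filter (fun e => (e.1.1 = a ∧ r a < r e.1.2) ∨ (e.1.2 = a ∧ r a < r e.1.1))

lemma mem_Ou (r : Fin n → ℕ) (E : Finset (PP n)) (a : Fin n) (e : PP n) :
    e ∈ Ou r E a ↔ e ∈ E ∧ ((e.1.1 = a ∧ r a < r e.1.2) ∨ (e.1.2 = a ∧ r a < r e.1.1)) := by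
  classical
  simp [Ou]

lemma card_Ou (r : Fin n → ℕ) (E : Finset (PP n)) (a : Fin n) :
    (Ou r E a).card ≤ (nbp r E a).card := by
  classical
  apply Finset.card_le_card_of_injOn (fun e => if e.1.1 = a then e.1.2 else e.1.1)
  · intro e he
    rw [Finset.mem_coe, mem_Ou] at he
    rw [Finset.mem_coe, mem_nbp]
    obtain ⟨heE, h⟩ := he
    by_cases h1 : e.1.1 = a
    · simp only [h1, if_true]
      have h2 : r a < r e.1.2 := by
        rcases h with h | h
        · exact h.2
        · exfalso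
          have := e.2
          rw [h1, h.1] at this
          exact lt_irrefl _ this
      exact ⟨⟨e, heE, by rw [h1]⟩, h2⟩
    · simp only [h1, if_false]
      rcases h with h | h
      · exact absurd h.1 h1
      · exact ⟨⟨e, heE, by rw [h.1, Sym2.eq_swap]⟩, h.2⟩
  · intro e he e' he' heq
    rw [Finset.mem_coe, mem_Ou] at he he'
    apply pp_ext
    simp only at heq
    by_cases h1 : e.1.1 = a
    · by_cases h2 : e'.1.1 = a
      · rw [if_pos h1, if_pos h2] at heq
        rw [h1, h2, heq]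
      · rw [if_pos h1, if_neg h2] at heq
        rcases he'.2 with h | h
        · exact absurd h.1 h2
        · rw [h1, heq, h.1, Sym2.eq_swap]
    · rcases he.2 with h | h
      · exact absurd h.1 h1
      · by_cases h2 : e'.1.1 = a
        · rw [if_neg h1, if_pos h2] at heq
          rw [h.1, h2, heq, Sym2.eq_swap]
        · rw [if_neg h1, if_neg h2] at heq
          rcases he'.2 with h' | h'
          · exact absurd h'.1 h2
          · rw [h.1, h'.1, heq]

open Classical in
/-- the out-neighbours of `y` in `X` for the placement `φ` -/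
noncomputable def outp (r : Fin n → ℕ) (S : Finset (PP n)) (X : Finset (Fin n))
    (φ : Fin n → Fin n) (y : Fin n) : Finset (Fin n) :=
  X.filter (fun z => Rel S y z ∧ r (φ y) < r (φ z))

lemma mem_outp (r : Fin n → ℕ) (S : Finset (PP n)) (X : Finset (Fin n))
    (φ : Fin n → Fin n) (y z : Fin n) :
    z ∈ outp r S X φ y ↔ z ∈ X ∧ Rel S y z ∧ r (φ y) < r (φ z) := by
  classical
  simp [outp]

/-- a placement which is out-closed in the set `A` -/
def Good (r : Fin n → ℕ) (S : Finset (PP n)) (X : Finset (Fin n)) (φ : Fin n → Fin n)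
    (A : Finset (PP n)) : Prop :=
  ∀ y ∈ X, nbp r A (φ y) = (outp r S X φ y).image φ

open Classical in
/-- many subsets make a given placement out-closed -/
lemma card_good (r : Fin n → ℕ) (E S : Finset (PP n)) (X : Finset (Fin n)) (d : ℕ)
    (hd : ∀ u, (nbp r E u).card ≤ d) (φ : Fin n → Fin n) (hφ : φ ∈ Emb E S X) :
    2 ^ E.card ≤ 2 ^ (d * X.card) * (E.powerset.filter (fun A => Good r S X φ A)).card := by
  obtain ⟨hinj, -, hrel⟩ := (mem_Emb _ _ _ _).mp hφ
  set C : Finset (PP n) := X.biUnion (fun y => Ou r E (φ y)) with hC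
  set R : Finset (PP n) := C.filter (fun e => ∃ b ∈ X, ∃ c ∈ X, Rel S b c ∧
    s(e.1.1, e.1.2) = s(φ b, φ c)) with hR
  have hCE : C ⊆ E := by
    intro e he
    obtain ⟨y, _, he⟩ := Finset.mem_biUnion.mp he
    exact ((mem_Ou _ _ _ _).mp he).1
  have hRC : R ⊆ C := Finset.filter_subset _ _
  have hCc : C.card ≤ d * X.card := by
    refine Finset.card_biUnion_le.trans ?_
    calc ∑ y ∈ X, (Ou r E (φ y)).card ≤ ∑ y ∈ X, d :=
          Finset.sum_le_sum (fun y _ => (card_Ou r E (φ y)).trans (hd _))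
      _ = d * X.card := by rw [Finset.sum_const, smul_eq_mul, mul_comm]
  have hgood : ∀ A ⊆ E, Good r S X φ ((A \ C) ∪ R) := by
    intro A hA y hy
    ext w
    rw [mem_nbp, Finset.mem_image]
    constructor
    · rintro ⟨⟨e, he, hs⟩, hlt⟩
      have heC : e ∈ E → e ∈ C := by
        intro heE
        rw [hC, Finset.mem_biUnion]
        refine ⟨y, hy, (mem_Ou _ _ _ _).mpr ⟨heE, ?_⟩⟩
        rw [Sym2.eq_iff] at hs
        rcases hs with ⟨a, b⟩ | ⟨a, b⟩
        · exact Or.inl ⟨a, by rw [b]; exact hlt⟩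
        · exact Or.inr ⟨b, by rw [a]; exact hlt⟩
      have heR : e ∈ R := by
        rcases Finset.mem_union.mp he with h | h
        · rw [Finset.mem_sdiff] at h
          exact absurd (heC (hA h.1)) h.2
        · exact h
      obtain ⟨-, b, hb, c, hc, hbc, hs'⟩ := Finset.mem_filter.mp heR
      rw [hs, Sym2.eq_iff] at hs'
      rcases hs' with ⟨h1, h2⟩ | ⟨h1, h2⟩
      · have hyb : y = b := hinj hy hb h1
        subst hyb
        exact ⟨c, (mem_outp _ _ _ _ _ _).mpr ⟨hc, hbc, by rw [← h2]; exact hlt⟩, h2.symm⟩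
      · have hyc : y = c := hinj hy hc h1
        subst hyc
        exact ⟨b, (mem_outp _ _ _ _ _ _).mpr ⟨hb, hbc.symm, by rw [← h2]; exact hlt⟩, h2.symm⟩
    · rintro ⟨z, hz, rfl⟩
      obtain ⟨hzX, hyz, hlt⟩ := (mem_outp _ _ _ _ _ _).mp hz
      obtain ⟨e, heE, hs⟩ := hrel y hy z hzX hyz
      refine ⟨⟨e, ?_, hs⟩, hlt⟩
      apply Finset.mem_union_right
      rw [hR, Finset.mem_filter]
      refine ⟨?_, y, hy, z, hzX, hyz, hs⟩
      rw [hC, Finset.mem_biUnion]
      refine ⟨y, hy, (mem_Ou _ _ _ _).mpr ⟨heE, ?_⟩⟩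
      rw [Sym2.eq_iff] at hs
      rcases hs with ⟨a, b⟩ | ⟨a, b⟩
      · exact Or.inl ⟨a, by rw [b]; exact hlt⟩
      · exact Or.inr ⟨b, by rw [a]; exact hlt⟩
  rw [← Finset.card_powerset]
  have h1 : E.powerset.card ≤
      (C.powerset ×ˢ E.powerset.filter (fun A => Good r S X φ A)).card := by
    apply Finset.card_le_card_of_injOn (fun A => (A ∩ C, (A \ C) ∪ R))
    · intro A hA
      rw [Finset.mem_coe, Finset.mem_powerset] at hA
      rw [Finset.mem_coe, Finset.mem_product, Finset.mem_powerset, Finset.mem_filter,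
        Finset.mem_powerset]
      refine ⟨Finset.inter_subset_right, ?_, hgood A hA⟩
      exact Finset.union_subset (Finset.sdiff_subset.trans hA) (hRC.trans hCE)
    · intro A _ B _ hAB
      simp only [Prod.mk.injEq] at hAB
      have key : ∀ A : Finset (PP n), (A ∩ C) ∪ (((A \ C) ∪ R) \ C) = A := by
        intro A
        ext x
        simp only [Finset.mem_union, Finset.mem_inter, Finset.mem_sdiff]
        have : x ∈ R → x ∈ C := fun h => hRC h
        tauto
      rw [← key A, ← key B, hAB.1, hAB.2]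
  rw [Finset.card_product, Finset.card_powerset C] at h1
  exact h1.trans (Nat.mul_le_mul_right _ (Nat.pow_le_pow_right (by norm_num) hCc))

open Classical in
/-- one subset which makes many placements out-closed -/
lemma exists_good (r : Fin n → ℕ) (E S : Finset (PP n)) (X : Finset (Fin n)) (d : ℕ)
    (hd : ∀ u, (nbp r E u).card ≤ d) : ∃ A ⊆ E, (Emb E S X).card ≤
      2 ^ (d * X.card) * ((Emb E S X).filter (fun φ => Good r S X φ A)).card := by
  by_contra hcon
  push Not at hcon
  have h1 : ∑ A ∈ E.powerset, 2 ^ (d * X.card) *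
      ((Emb E S X).filter (fun φ => Good r S X φ A)).card <
      ∑ A ∈ E.powerset, (Emb E S X).card := by
    apply Finset.sum_lt_sum_of_nonempty ⟨∅, Finset.empty_mem_powerset _⟩
    intro A hA
    exact hcon A (Finset.mem_powerset.mp hA)
  have h2 : ∑ A ∈ E.powerset, ((Emb E S X).filter (fun φ => Good r S X φ A)).card =
      ∑ φ ∈ Emb E S X, (E.powerset.filter (fun A => Good r S X φ A)).card := by
    simp only [Finset.card_eq_sum_ones, Finset.sum_filter]
    exact Finset.sum_comm
  rw [← Finset.mul_sum, h2, Finset.mul_sum, Finset.sum_const, Finset.card_powerset] at h1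
  have h3 : ∑ φ ∈ Emb E S X, 2 ^ E.card ≤ ∑ φ ∈ Emb E S X, 2 ^ (d * X.card) *
      (E.powerset.filter (fun A => Good r S X φ A)).card :=
    Finset.sum_le_sum (fun φ hφ => card_good r E S X d hd φ hφ)
  rw [Finset.sum_const] at h3
  simp only [smul_eq_mul] at h1 h3
  rw [mul_comm] at h3
  exact absurd (h3.trans_lt h1) (lt_irrefl _)

open Classical in
/-- one orientation for many placements -/
lemma exists_orient (r : Fin n → ℕ) (hr : Function.Injective r) (E S : Finset (PP n))
    (X : Finset (Fin n)) (Φ : Finset (Fin n → Fin n)) (hΦ : Φ ⊆ Emb E S X) (hne : Φ.Nonempty) :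
    ∃ φ₀ ∈ Φ, Φ.card ≤ 2 ^ (ins S X).card *
      (Φ.filter (fun φ => ∀ y ∈ X, outp r S X φ y = outp r S X φ₀ y)).card := by
  set o : (Fin n → Fin n) → Finset (PP n) :=
    fun φ => (ins S X).filter (fun e => r (φ e.1.1) < r (φ e.1.2)) with ho
  have hmaps : ∀ φ ∈ Φ, o φ ∈ (ins S X).powerset := fun φ _ =>
    Finset.mem_powerset.mpr (Finset.filter_subset _ _)
  have hsame : ∀ φ ∈ Φ, ∀ ψ ∈ Φ, o φ = o ψ → ∀ y ∈ X, outp r S X φ y = outp r S X ψ y := by
    intro φ hφ ψ hψ hoo y hy
    have hi1 := ((mem_Emb _ _ _ _).mp (hΦ hφ)).1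
    have hi2 := ((mem_Emb _ _ _ _).mp (hΦ hψ)).1
    have key : ∀ φ ψ : Fin n → Fin n, Set.InjOn φ (X : Set (Fin n)) →
        Set.InjOn ψ (X : Set (Fin n)) → o φ = o ψ →
        ∀ z ∈ X, Rel S y z → r (φ y) < r (φ z) → r (ψ y) < r (ψ z) := by
      intro φ ψ hi1 hi2 hoo z hz hyz hlt
      obtain ⟨e, heS, hs⟩ := hyz
      rw [Sym2.eq_iff] at hs
      rcases hs with ⟨a, b⟩ | ⟨a, b⟩
      · have he : e ∈ o φ := by
          simp only [ho, Finset.mem_filter, ins]
          rw [a, b]
          exact ⟨⟨heS, hy, hz⟩, hlt⟩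
        rw [hoo] at he
        simp only [ho, Finset.mem_filter, ins] at he
        have := he.2
        rwa [a, b] at this
      · have he : e ∉ o φ := by
          simp only [ho, Finset.mem_filter, ins]
          rintro ⟨_, h⟩
          rw [a, b] at h
          omega
        rw [hoo] at he
        have he2 : ¬ r (ψ e.1.1) < r (ψ e.1.2) := by
          intro h
          apply he
          simp only [ho, Finset.mem_filter, ins]
          exact ⟨⟨heS, by rw [a]; exact hz, by rw [b]; exact hy⟩, h⟩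
        rw [a, b] at he2
        have hne : r (ψ y) ≠ r (ψ z) := by
          intro h
          have hyz := hi2 hy hz (hr h)
          subst hyz
          omega
        omega
    ext z
    rw [mem_outp, mem_outp]
    constructor
    · rintro ⟨h1, h2, h3⟩
      exact ⟨h1, h2, key φ ψ hi1 hi2 hoo z h1 h2 h3⟩
    · rintro ⟨h1, h2, h3⟩
      exact ⟨h1, h2, key ψ φ hi2 hi1 hoo.symm z h1 h2 h3⟩
  -- pigeonhole
  by_contra hcon
  push Not at hcon
  have h1 : Φ.card = ∑ F ∈ (ins S X).powerset, (Φ.filter (fun φ => o φ = F)).card :=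
    Finset.card_eq_sum_card_fiberwise hmaps
  have h2 : ∀ F ∈ (ins S X).powerset,
      2 ^ (ins S X).card * (Φ.filter (fun φ => o φ = F)).card < Φ.card := by
    intro F _
    rcases (Φ.filter (fun φ => o φ = F)).eq_empty_or_nonempty with h | ⟨φ₀, h⟩
    · rw [h, Finset.card_empty, mul_zero]
      exact Finset.card_pos.mpr hne
    · rw [Finset.mem_filter] at h
      refine lt_of_le_of_lt (Nat.mul_le_mul_left _ (Finset.card_le_card ?_)) (hcon φ₀ h.1)
      intro φ hφ
      rw [Finset.mem_filter] at hφ ⊢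
      exact ⟨hφ.1, hsame φ hφ.1 φ₀ h.1 (hφ.2.trans h.2.symm)⟩
  have h3 := Finset.sum_lt_sum_of_nonempty ⟨∅, Finset.empty_mem_powerset _⟩ h2
  rw [← Finset.mul_sum, ← h1, Finset.sum_const, Finset.card_powerset, smul_eq_mul] at h3
  exact lt_irrefl _ h3

/-- extending an injective placement to a permutation -/
lemma exists_permX (X : Finset (Fin n)) (φ : Fin n → Fin n) (hφ : Set.InjOn φ (X : Set (Fin n))) :
    ∃ g : Equiv.Perm (Fin n), ∀ x ∈ X, g x = φ x := by
  classical
  obtain ⟨g, hg⟩ := Finset.exists_equiv_extend_of_card_eq (α := Fin n) (β := Fin n)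
    (t := univ) (by simp) (s := X) (f := φ) (Finset.subset_univ _) hφ
  refine ⟨g.trans (Equiv.subtypeUnivEquiv (fun x => mem_univ x)), ?_⟩
  intro x hx
  exact hg x hx

/-- from placements to permutations moving one set into another one -/
lemma fib_mul_fact_le {ι : Type} [DecidableEq ι] [MulAction (Equiv.Perm (Fin n)) ι]
    (X : Finset (Fin n)) (Φ : Finset (Fin n → Fin n))
    (hinj : ∀ φ ∈ Φ, Set.InjOn φ (X : Set (Fin n)) ∧ ∀ z, z ∉ X → φ z = z)
    (S E : Finset ι)
    (h : ∀ φ ∈ Φ, ∀ g : Equiv.Perm (Fin n), (∀ x ∈ X, g x = φ x) → tr g S ⊆ E) :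
    Φ.card * (n - X.card).factorial ≤ av (Equiv.Perm (Fin n)) S E := by
  classical
  have hc : Fintype.card (Equiv.Perm {z // z ∉ X}) = (n - X.card).factorial := by
    rw [Fintype.card_perm, Fintype.card_subtype_compl, Fintype.card_fin, Fintype.card_coe]
  have hch : ∀ φ : Fin n → Fin n, φ ∈ Φ → ∃ g : Equiv.Perm (Fin n), ∀ x ∈ X, g x = φ x :=
    fun φ hφ => exists_permX X φ (hinj φ hφ).1
  choose! G hG using hch
  rw [← hc, ← Finset.card_univ (α := Equiv.Perm {z // z ∉ X}), ← Finset.card_product]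
  unfold av
  have hfix : ∀ (τ : Equiv.Perm {z // z ∉ X}) (x : Fin n), x ∈ X →
      (Equiv.Perm.ofSubtype τ) x = x := by
    intro τ x hx
    exact Equiv.Perm.ofSubtype_apply_of_not_mem τ (by simpa using hx)
  apply Finset.card_le_card_of_injOn (fun y => G y.1 * Equiv.Perm.ofSubtype y.2)
  · rintro ⟨φ, τ⟩ hy
    rw [Finset.mem_coe, Finset.mem_product] at hy
    rw [Finset.mem_coe, mem_mv]
    apply h φ hy.1
    intro x hx
    rw [Equiv.Perm.mul_apply, hfix τ x hx]
    exact hG φ hy.1 x hx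
  · rintro ⟨φ, τ⟩ hy ⟨φ', τ'⟩ hy' heq
    rw [Finset.mem_coe, Finset.mem_product] at hy hy'
    simp only at heq hy hy'
    have hφφ : φ = φ' := by
      funext z
      by_cases hz : z ∈ X
      · have h1 := congrArg (fun g : Equiv.Perm (Fin n) => g z) heq
        simp only [Equiv.Perm.mul_apply] at h1
        rw [hfix τ z hz, hfix τ' z hz, hG φ hy.1 z hz, hG φ' hy'.1 z hz] at h1
        exact h1
      · rw [(hinj φ hy.1).2 z hz, (hinj φ' hy'.1).2 z hz]
    subst hφφ
    have h2 : Equiv.Perm.ofSubtype τ = Equiv.Perm.ofSubtype τ' := mul_left_cancel heq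
    rw [Equiv.Perm.ofSubtype_injective h2]

end Pool.Agent.W812.EG
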