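import Pool.Agent.W812.EG15
import Pool.Agent.W812.EG18

/-! The bound for sets in which all degrees are large, through out-closed placements. -/

namespace Pool.Agent.W812.EG

open Finset

variable {n : ℕ}

open Classical in
/-- the vertices of `X` with their out-neighbourhoods for the placement `φ` -/
noncomputable def lfS (r : Fin n → ℕ) (S : Finset (PP n)) (X : Finset (Fin n))
    (φ : Fin n → Fin n) : Finset (VN n) :=
  X.image (fun y => ((y, outp r S X φ y) : Fin n × Finset (Fin n)))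

lemma mem_lfS (r : Fin n → ℕ) (S : Finset (PP n)) (X : Finset (Fin n)) (φ : Fin n → Fin n)
    (x : VN n) : x ∈ lfS r S X φ ↔ x.1 ∈ X ∧ x.2 = outp r S X φ x.1 := by
  classical
  unfold lfS
  rw [Finset.mem_image]
  constructor
  · rintro ⟨u, hu, rfl⟩
    exact ⟨hu, rfl⟩
  · rintro ⟨h1, h2⟩
    exact ⟨x.1, h1, Prod.ext rfl h2.symm⟩

lemma card_lfS (r : Fin n → ℕ) (S : Finset (PP n)) (X : Finset (Fin n)) (φ : Fin n → Fin n) :
    (lfS r S X φ).card = X.card := by
  classical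
  apply Finset.card_image_of_injective
  intro a b hab
  exact congrArg (fun x : Fin n × Finset (Fin n) => x.1) hab

lemma sum_lfS (r : Fin n → ℕ) (S : Finset (PP n)) (X : Finset (Fin n)) (φ : Fin n → Fin n) :
    ∑ x ∈ lfS r S X φ, x.2.card = ∑ y ∈ X, (outp r S X φ y).card := by
  classical
  unfold lfS
  rw [Finset.sum_image]
  intro a _ b _ hab
  exact congrArg (fun x : Fin n × Finset (Fin n) => x.1) hab

lemma card_ins_le_outp (r : Fin n → ℕ) (hr : Function.Injective r) (E S : Finset (PP n))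
    (X : Finset (Fin n)) (φ : Fin n → Fin n) (hφ : φ ∈ Emb E S X) :
    (ins S X).card ≤ ∑ y ∈ X, (outp r S X φ y).card := by
  classical
  obtain ⟨hinj, -, -⟩ := (mem_Emb _ _ _ _).mp hφ
  rw [← Finset.card_sigma]
  apply Finset.card_le_card_of_injOn (fun e => if r (φ e.1.1) < r (φ e.1.2) then
    (⟨e.1.1, e.1.2⟩ : Σ _ : Fin n, Fin n) else ⟨e.1.2, e.1.1⟩)
  · intro e he
    rw [Finset.mem_coe] at he
    unfold ins at he
    rw [Finset.mem_filter] at he
    obtain ⟨heS, h1, h2⟩ := he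
    rw [Finset.mem_coe]
    by_cases h : r (φ e.1.1) < r (φ e.1.2)
    · simp only [h, if_true, Finset.mem_sigma, mem_outp]
      exact ⟨h1, h2, ⟨e, heS, rfl⟩, trivial⟩
    · simp only [h, if_false, Finset.mem_sigma, mem_outp]
      refine ⟨h2, h1, ⟨e, heS, Sym2.eq_swap⟩, ?_⟩
      have hne : r (φ e.1.1) ≠ r (φ e.1.2) := by
        intro h'
        have := hinj h1 h2 (hr h')
        have h3 := e.2
        rw [this] at h3
        exact lt_irrefl _ h3
      omega
  · intro e _ e' _ heq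
    apply pp_ext
    simp only at heq
    split_ifs at heq with h1 h2 h2
    · simp only [Sigma.mk.injEq, heq_eq_eq] at heq
      rw [heq.1, heq.2]
    · simp only [Sigma.mk.injEq, heq_eq_eq] at heq
      rw [heq.1, heq.2, Sym2.eq_swap]
    · simp only [Sigma.mk.injEq, heq_eq_eq] at heq
      rw [heq.1, heq.2, Sym2.eq_swap]
    · simp only [Sigma.mk.injEq, heq_eq_eq] at heq
      rw [heq.1, heq.2]

/-- the bound for sets in which all degrees are at least `k₁` -/
theorem core_bound (E S : Finset (PP n)) (p : ℝ) (hp : 0 < p) (hp1 : p < 1)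
    (horb : ∀ U ⊆ E, 1 ≤ ((orb (Equiv.Perm (Fin n)) U).card : ℝ) * p ^ U.card)
    (k₁ : ℕ) (hk : (n : ℝ) * p ^ (2 * k₁) < 1) (hk₁ : 1 ≤ k₁) (L : ℕ) (hL : 1 ≤ L)
    (hE : E.card < 2 ^ L) (X : Finset (Fin n))
    (hX : ∀ y ∈ X, k₁ ≤ (nbS S (X.erase y) y).card) :
    ((Emb E S X).card : ℝ) ≤ 2 ^ (4 * k₁ * X.card) * (2 ^ (ins S X).card *
      ((n : ℝ) ^ X.card * ((3072 * L) ^ X.card * p ^ (ins S X).card))) := by
  classical
  have hLr : (1 : ℝ) ≤ L := by exact_mod_cast hL
  obtain ⟨r, hr, hrd⟩ := exists_rank_of_sparse E k₁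
    (fun W hW => sparse_of_orb E p hp hp1 horb k₁ hk W hW)
  obtain ⟨A, hAE, hA⟩ := exists_good r E S X (4 * k₁) hrd
  set Φ := (Emb E S X).filter (fun φ => Good r S X φ A) with hΦ
  have hPos : 0 ≤ 2 ^ (4 * k₁ * X.card) * (2 ^ (ins S X).card *
      ((n : ℝ) ^ X.card * ((3072 * (L : ℝ)) ^ X.card * p ^ (ins S X).card))) := by positivity
  rcases Φ.eq_empty_or_nonempty with hem | hne
  · rw [hem, Finset.card_empty, mul_zero] at hA
    have : (Emb E S X).card = 0 := by omega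
    rw [this, Nat.cast_zero]
    exact hPos
  obtain ⟨φ₀, hφ₀, hφc⟩ := exists_orient r hr E S X Φ (Finset.filter_subset _ _) hne
  set Φ' := Φ.filter (fun φ => ∀ y ∈ X, outp r S X φ y = outp r S X φ₀ y) with hΦ'
  have hEmb₀ : φ₀ ∈ Emb E S X := (Finset.mem_filter.mp hφ₀).1
  -- the number of placements in the last set
  have hav := fib_mul_fact_le (ι := VN n) X Φ' (by
    intro φ hφ
    have h1 := (mem_Emb _ _ _ _).mp (Finset.mem_filter.mp (Finset.mem_filter.mp hφ).1).1
    exact ⟨h1.1, h1.2.1⟩) (lfS r S X φ₀) (lft r A (vs E)) (by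
    intro φ hφ g hg x₀ hx₀
    obtain ⟨hφ1, hφ2⟩ := Finset.mem_filter.mp hφ
    obtain ⟨hφE, hφg⟩ := Finset.mem_filter.mp hφ1
    unfold tr at hx₀
    obtain ⟨x, hx, rfl⟩ := Finset.mem_image.mp hx₀
    obtain ⟨hxX, hx2⟩ := (mem_lfS _ _ _ _ _).mp hx
    rw [mem_lft, smulVN_fst, smulVN_snd, hg _ hxX]
    constructor
    · have h1 : 0 < (nbS S (X.erase x.1) x.1).card := lt_of_lt_of_le (by omega) (hX _ hxX)
      obtain ⟨z, hz⟩ := Finset.card_pos.mp h1
      obtain ⟨hz1, hz2⟩ := (mem_nbS _ _ _ _).mp hz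
      exact (mem_vs _ _).mpr ⟨φ z, ((mem_Emb _ _ _ _).mp hφE).2.2 _ hxX _
        (Finset.mem_of_mem_erase hz1) hz2⟩
    · rw [hφg _ hxX, hx2, ← hφ2 _ hxX]
      apply Finset.image_congr
      intro z hz
      rw [Finset.mem_coe, mem_outp] at hz
      exact hg z hz.1)
  have hsp := spreadW' (G := Equiv.Perm (Fin n)) (lft r A (vs E))
    (fun x : VN n => p ^ x.2.card) (fun x => by positivity)
    (fun g x => by rw [card_smulVN]) (L + 1) (by omega) (by
      have h1 : (lft r A (vs E)).card ≤ (vs E).card := Finset.card_image_le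
      have h2 := card_vs E
      rw [pow_succ]
      omega) (fun U hU => horb_lft E p hp hp1.le horb r A hAE (vs E) U hU) (lfS r S X φ₀)
  have hcardp : Fintype.card (Equiv.Perm (Fin n)) = n.factorial := by
    rw [Fintype.card_perm, Fintype.card_fin]
  have hXn : X.card ≤ n := by
    have h6 := Finset.card_le_card (Finset.subset_univ X)
    rwa [Finset.card_univ, Fintype.card_fin] at h6
  have hprod : ∏ x ∈ lfS r S X φ₀, (1536 * ((L + 1 : ℕ) : ℝ) * p ^ x.2.card) ≤
      (3072 * (L : ℝ)) ^ X.card * p ^ (ins S X).card := by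
    rw [Finset.prod_mul_distrib, Finset.prod_const, Finset.prod_pow_eq_pow_sum, card_lfS, sum_lfS]
    apply mul_le_mul _ _ (by positivity) (by positivity)
    · apply pow_le_pow_left₀ (by positivity)
      push_cast
      linarith
    · exact pow_le_pow_of_le_one hp.le hp1.le (card_ins_le_outp r hr E S X φ₀ hEmb₀)
  have h1 : (Φ'.card : ℝ) * ((n - X.card).factorial : ℝ) ≤ (n.factorial : ℝ) *
      ((3072 * (L : ℝ)) ^ X.card * p ^ (ins S X).card) := by
    calc (Φ'.card : ℝ) * ((n - X.card).factorial : ℝ) ≤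
          (av (Equiv.Perm (Fin n)) (lfS r S X φ₀) (lft r A (vs E)) : ℝ) := by exact_mod_cast hav
      _ ≤ _ := hsp
      _ ≤ _ := by
          rw [hcardp]
          exact mul_le_mul_of_nonneg_left hprod (by positivity)
  have h2 : (n.factorial : ℝ) ≤ ((n - X.card).factorial : ℝ) * (n : ℝ) ^ X.card := by
    have h3 := Nat.factorial_mul_descFactorial hXn
    rw [← h3]
    push_cast
    apply mul_le_mul_of_nonneg_left _ (by positivity)
    exact_mod_cast Nat.descFactorial_le_pow _ _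
  have h4 : (Φ'.card : ℝ) ≤ (n : ℝ) ^ X.card * ((3072 * (L : ℝ)) ^ X.card * p ^ (ins S X).card) := by
    have hf : (0 : ℝ) < ((n - X.card).factorial : ℝ) := by exact_mod_cast Nat.factorial_pos _
    refine le_of_mul_le_mul_right (h1.trans ?_) hf
    calc (n.factorial : ℝ) * ((3072 * (L : ℝ)) ^ X.card * p ^ (ins S X).card) ≤
          (((n - X.card).factorial : ℝ) * (n : ℝ) ^ X.card) *
            ((3072 * (L : ℝ)) ^ X.card * p ^ (ins S X).card) :=
          mul_le_mul_of_nonneg_right h2 (by positivity)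
      _ = _ := by ring
  calc ((Emb E S X).card : ℝ) ≤ 2 ^ (4 * k₁ * X.card) * (Φ.card : ℝ) := by exact_mod_cast hA
    _ ≤ 2 ^ (4 * k₁ * X.card) * (2 ^ (ins S X).card * (Φ'.card : ℝ)) := by
        apply mul_le_mul_of_nonneg_left _ (by positivity)
        exact_mod_cast hφc
    _ ≤ _ := by
        apply mul_le_mul_of_nonneg_left _ (by positivity)
        exact mul_le_mul_of_nonneg_left h4 (by positivity)

/-- the orbit of a set of pairs is spread, in terms of the maximum density -/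
theorem spread_density (E : Finset (PP n)) (p : ℝ) (hp : 0 < p) (hp2 : p ≤ 1 / 2)
    (horb : ∀ U ⊆ E, 1 ≤ ((orb (Equiv.Perm (Fin n)) U).card : ℝ) * p ^ U.card)
    (L : ℕ) (hL : 1 ≤ L) (hE : E.card < 2 ^ L) (hn : 1 ≤ n)
    (v e : ℕ) (hv : 1 ≤ v) (he : 1 ≤ e) (hve : 1 ≤ (n : ℝ) ^ v * p ^ e)
    (hBp : 2 ^ 33 * (L : ℝ) ^ (4 * (v : ℝ) / e) * p ≤ 1) (Z : Finset (PP n)) :
    (av (Equiv.Perm (Fin n)) Z E : ℝ) ≤
      Fintype.card (Equiv.Perm (Fin n)) *
        (8 * (2 ^ 33 * (L : ℝ) ^ (4 * (v : ℝ) / e) * p)) ^ Z.card := by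
  classical
  obtain ⟨k₁, hk1, hk2, hk3⟩ := exists_first p hp hp2 hn
  have hnr : (1 : ℝ) ≤ n := by exact_mod_cast hn
  have hΔr : (1 : ℝ) ≤ L := by exact_mod_cast hL
  have hvr : (1 : ℝ) ≤ v := by exact_mod_cast hv
  have her : (1 : ℝ) ≤ e := by exact_mod_cast he
  set θ : ℝ := 4 * (v : ℝ) / e with hθ
  have hθ0 : 0 ≤ θ := by positivity
  have hpow : (1 : ℝ) ≤ (L : ℝ) ^ θ := Real.one_le_rpow hΔr hθ0
  have hp1 : p < 1 := by linarith
  -- `e < 2 k₁ v`
  have hek : e < 2 * k₁ * v := by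
    have h1 : (n : ℝ) ^ v * p ^ (2 * k₁ * v) < (n : ℝ) ^ v * p ^ e := by
      have h2 : ((n : ℝ) * p ^ (2 * k₁)) ^ v < 1 := pow_lt_one₀ (by positivity) hk2 (by omega)
      calc (n : ℝ) ^ v * p ^ (2 * k₁ * v) = ((n : ℝ) * p ^ (2 * k₁)) ^ v := by
            rw [mul_pow, ← pow_mul]
        _ < 1 := h2
        _ ≤ _ := hve
    have h3 : p ^ (2 * k₁ * v) < p ^ e := lt_of_mul_lt_mul_left h1 (by positivity)
    exact (pow_lt_pow_iff_right_of_lt_one₀ hp hp1).mp h3
  have hB16 : (16 : ℝ) ≤ 2 ^ 33 * (L : ℝ) ^ θ := by nlinarith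
  apply av_of_Emb E Z (2 ^ 33 * (L : ℝ) ^ θ * p) (by positivity)
  have key := peel_all E p hp hp2 horb (2 ^ 33 * (L : ℝ) ^ θ) hB16 hBp k₁ hk3 Z (by
    intro X hX
    have h1 : k₁ * X.card ≤ 2 * (ins Z X).card := by
      refine le_trans ?_ (sum_deg_le Z X)
      rw [mul_comm, ← smul_eq_mul]
      exact Finset.card_nsmul_le_sum X _ _ hX
    have h2 := core_bound E Z p hp hp1 horb k₁ hk2 hk1 L hL hE X hX
    have h3 : X.card ≤ 2 * (ins Z X).card := by nlinarith
    have h4 : e * X.card ≤ 4 * v * (ins Z X).card := by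
      calc e * X.card ≤ (2 * k₁ * v) * X.card := Nat.mul_le_mul_right _ hek.le
        _ = 2 * v * (k₁ * X.card) := by ring
        _ ≤ 2 * v * (2 * (ins Z X).card) := Nat.mul_le_mul_left _ h1
        _ = _ := by ring
    have h5 : (X.card : ℝ) ≤ θ * (ins Z X).card := by
      have h6 : (e : ℝ) * X.card ≤ 4 * v * (ins Z X).card := by exact_mod_cast h4
      rw [hθ, div_mul_eq_mul_div, le_div_iff₀ (by linarith)]
      linarith
    have h8 : (2 : ℝ) ^ (4 * k₁ * X.card) ≤ (2 ^ 8) ^ (ins Z X).card := by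
      rw [← pow_mul]
      apply pow_le_pow_right₀ (by norm_num)
      nlinarith
    have h7 : (3072 * (L : ℝ)) ^ X.card ≤ (3072 ^ 2 * (L : ℝ) ^ θ) ^ (ins Z X).card := by
      rw [mul_pow, mul_pow]
      apply mul_le_mul _ _ (by positivity) (by positivity)
      · calc (3072 : ℝ) ^ X.card ≤ 3072 ^ (2 * (ins Z X).card) :=
              pow_le_pow_right₀ (by norm_num) h3
          _ = (3072 ^ 2) ^ (ins Z X).card := pow_mul _ _ _
      · calc (L : ℝ) ^ X.card = (L : ℝ) ^ (X.card : ℝ) := (Real.rpow_natCast _ _).symm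
          _ ≤ (L : ℝ) ^ (θ * (ins Z X).card) := Real.rpow_le_rpow_of_exponent_le hΔr h5
          _ = ((L : ℝ) ^ θ) ^ (ins Z X).card := by
              rw [Real.rpow_mul (by linarith), Real.rpow_natCast]
    refine h2.trans ?_
    calc (2 : ℝ) ^ (4 * k₁ * X.card) * (2 ^ (ins Z X).card *
          ((n : ℝ) ^ X.card * ((3072 * (L : ℝ)) ^ X.card * p ^ (ins Z X).card))) ≤
          (2 ^ 8) ^ (ins Z X).card * (2 ^ (ins Z X).card *
          ((n : ℝ) ^ X.card * ((3072 ^ 2 * (L : ℝ) ^ θ) ^ (ins Z X).card *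
            p ^ (ins Z X).card))) := by
          apply mul_le_mul h8 _ (by positivity) (by positivity)
          apply mul_le_mul_of_nonneg_left _ (by positivity)
          apply mul_le_mul_of_nonneg_left _ (by positivity)
          exact mul_le_mul_of_nonneg_right h7 (by positivity)
      _ = (n : ℝ) ^ X.card * ((2 ^ 8 * 2 * (3072 ^ 2 * (L : ℝ) ^ θ)) * p) ^ (ins Z X).card := by
          rw [mul_pow _ p, mul_pow (2 ^ 8 * 2 : ℝ), mul_pow (2 ^ 8 : ℝ) 2]
          ring
      _ ≤ (n : ℝ) ^ X.card * (2 ^ 33 * (L : ℝ) ^ θ * p) ^ (ins Z X).card := by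
          apply mul_le_mul_of_nonneg_left _ (by positivity)
          apply pow_le_pow_left₀ (by positivity)
          apply mul_le_mul_of_nonneg_right _ hp.le
          nlinarith) (vs Z).card (vs Z) rfl
  rw [ins_vs] at key
  exact key

end Pool.Agent.W812.EG
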