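import Mathlib

/-! Counting translates of a finite set inside another one (finite group action). -/

namespace Pool.Agent.W812.EG

open Finset

variable {G ι : Type*} [Group G] [Fintype G] [Fintype ι] [DecidableEq ι] [MulAction G ι]

/-- the translate of a finite set -/
def tr (g : G) (S : Finset ι) : Finset ι := S.image (fun x => g • x)

omit [Fintype G] [Fintype ι] in
lemma mem_tr (g : G) (S : Finset ι) (x : ι) : x ∈ tr g S ↔ g⁻¹ • x ∈ S := by
  unfold tr
  rw [Finset.mem_image]
  constructor
  · rintro ⟨y, hy, rfl⟩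
    simpa using hy
  · intro h
    exact ⟨g⁻¹ • x, h, by simp⟩

omit [Fintype G] [Fintype ι] in
lemma tr_one (S : Finset ι) : tr (1 : G) S = S := by
  ext x; simp [mem_tr]

omit [Fintype G] [Fintype ι] in
lemma tr_mul (g h : G) (S : Finset ι) : tr (g * h) S = tr g (tr h S) := by
  ext x; simp [mem_tr, mul_smul]

omit [Fintype G] [Fintype ι] in
lemma tr_inv_tr (g : G) (S : Finset ι) : tr g⁻¹ (tr g S) = S := by
  rw [← tr_mul]; simp [tr_one]

omit [Fintype G] [Fintype ι] in
lemma tr_tr_inv (g : G) (S : Finset ι) : tr g (tr g⁻¹ S) = S := by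
  rw [← tr_mul]; simp [tr_one]

omit [Fintype G] [Fintype ι] in
lemma card_tr (g : G) (S : Finset ι) : (tr g S).card = S.card :=
  Finset.card_image_of_injective _ (MulAction.injective g)

omit [Fintype G] [Fintype ι] in
lemma tr_subset_tr (g : G) (S T : Finset ι) : tr g S ⊆ tr g T ↔ S ⊆ T := by
  unfold tr
  exact Finset.image_subset_image_iff (MulAction.injective g)

omit [Fintype G] [Fintype ι] in
lemma tr_subset_iff (g : G) (S T : Finset ι) : tr g S ⊆ T ↔ S ⊆ tr g⁻¹ T := by
  rw [← tr_subset_tr g S (tr g⁻¹ T), tr_tr_inv]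

omit [Fintype G] [Fintype ι] in
lemma tr_sdiff (g : G) (S T : Finset ι) : tr g (S \ T) = tr g S \ tr g T := by
  ext x; simp [mem_tr]

omit [Fintype G] [Fintype ι] in
lemma tr_empty (g : G) : tr g (∅ : Finset ι) = ∅ := by
  simp [tr]

/-- the elements moving `S` into `T` -/
def mv (G : Type*) [Group G] [Fintype G] [MulAction G ι] (S T : Finset ι) : Finset G :=
  univ.filter (fun g : G => tr g S ⊆ T)

/-- their number -/
def av (G : Type*) [Group G] [Fintype G] [MulAction G ι] (S T : Finset ι) : ℕ := (mv G S T).card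

omit [Fintype ι] in
lemma mem_mv (S T : Finset ι) (g : G) : g ∈ mv G S T ↔ tr g S ⊆ T := by
  simp [mv]

omit [Fintype ι] in
lemma av_empty_left (T : Finset ι) : av G ∅ T = Fintype.card G := by
  unfold av mv
  rw [Finset.filter_true_of_mem, Finset.card_univ]
  intro g _
  rw [tr_empty]
  exact Finset.empty_subset _

omit [Fintype ι] in
lemma av_le (S T : Finset ι) : av G S T ≤ Fintype.card G := by
  unfold av
  rw [← Finset.card_univ]
  exact Finset.card_le_card (Finset.subset_univ _)

omit [Fintype ι] in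
lemma card_le_of_av_pos (S T : Finset ι) (h : 0 < av G S T) : S.card ≤ T.card := by
  obtain ⟨g, hg⟩ := Finset.card_pos.mp h
  rw [← card_tr g S]
  exact Finset.card_le_card ((mem_mv S T g).mp hg)

omit [Fintype ι] in
lemma av_right_empty (S : Finset ι) (hS : S.Nonempty) : av G S ∅ = 0 := by
  by_contra h
  have := card_le_of_av_pos S ∅ (Nat.pos_of_ne_zero h)
  rw [Finset.card_empty] at this
  have := Finset.card_pos.mpr hS
  omega

/-- the union of the translates of a tuple -/
def un {J : ℕ} (ω : Fin J → G) (S : Finset ι) : Finset ι :=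
  univ.biUnion (fun j => tr (ω j) S)

omit [Fintype G] [Fintype ι] in
lemma un_zero (ω : Fin 0 → G) (S : Finset ι) : un ω S = ∅ := by
  ext x; simp [un]

omit [Fintype G] [Fintype ι] in
lemma un_cons {J : ℕ} (g : G) (ω : Fin J → G) (S : Finset ι) :
    un (Fin.cons g ω : Fin (J + 1) → G) S = tr g S ∪ un ω S := by
  ext x
  simp only [un, Finset.mem_biUnion, Finset.mem_univ, true_and, Finset.mem_union]
  rw [Fin.exists_fin_succ]
  simp

omit [Fintype G] [Fintype ι] in
lemma un_mul {J : ℕ} (g : G) (ω : Fin J → G) (S : Finset ι) :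
    un (fun j => g * ω j) S = tr g (un ω S) := by
  ext x
  simp only [un, Finset.mem_biUnion, Finset.mem_univ, true_and, tr_mul, mem_tr]

/-- the orbit of a set -/
def orb (G : Type*) [Group G] [Fintype G] [MulAction G ι] (U : Finset ι) : Finset (Finset ι) :=
  univ.image (fun g : G => tr g U)

omit [Fintype ι] in
lemma mem_orb (U V : Finset ι) : V ∈ orb G U ↔ ∃ g : G, tr g U = V := by
  simp [orb]

/-- tuples whose union is exactly `U` -/
def tup (G : Type*) [Group G] [Fintype G] [MulAction G ι] (J : ℕ) (S U : Finset ι) :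
    Finset (Fin J → G) :=
  by classical exact univ.filter (fun ω => un ω S = U)

omit [Fintype ι] in
lemma mem_tup (J : ℕ) (S U : Finset ι) (ω : Fin J → G) : ω ∈ tup G J S U ↔ un ω S = U := by
  classical
  simp [tup]

omit [Fintype ι] in
lemma card_tup_tr (J : ℕ) (S U : Finset ι) (g : G) :
    (tup G J S U).card = (tup G J S (tr g U)).card := by
  classical
  apply Finset.card_bij (fun ω _ => fun j => g * ω j)
  · intro ω hω
    rw [mem_tup] at hω ⊢
    rw [un_mul, hω]
  · intro ω _ ω' _ h
    funext j
    exact mul_left_cancel (congrFun h j)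
  · intro ω hω
    refine ⟨fun j => g⁻¹ * ω j, ?_, ?_⟩
    · rw [mem_tup] at hω ⊢
      rw [un_mul, hω, tr_inv_tr]
    · funext j
      simp

/-- the weight of one translate outside `T` -/
noncomputable def fw (G : Type*) [Group G] [Fintype G] [MulAction G ι] (q : ℝ) (S T : Finset ι) :
    ℝ := ∑ g : G, q ^ (tr g S \ T).card

omit [Fintype ι] in
lemma fw_tr (q : ℝ) (S T : Finset ι) (σ : G) : fw G q S (tr σ T) = fw G q S T := by
  unfold fw
  refine Fintype.sum_equiv (Equiv.mulLeft σ⁻¹) _ _ ?_
  intro g
  have : tr (σ⁻¹ * g) S \ T = tr σ⁻¹ (tr g S \ tr σ T) := by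
    rw [tr_sdiff, tr_mul, tr_inv_tr]
  simp only [Equiv.coe_mulLeft]
  rw [this, card_tr]

/-- the weighted number of tuples whose union is inside some translate of `T` -/
noncomputable def wt (G : Type*) [Group G] [Fintype G] [MulAction G ι] (q : ℝ) (S T : Finset ι)
    (J : ℕ) : ℝ :=
  by classical exact ∑ ω : Fin J → G, if ∃ σ : G, un ω S ⊆ tr σ T then q ^ (un ω S).card else 0

omit [Fintype ι] in
lemma wt_le (q : ℝ) (hq0 : 0 ≤ q) (hq1 : q ≤ 1) (S T : Finset ι) (J : ℕ) :
    wt G q S T J ≤ fw G q S T ^ J := by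
  classical
  induction J with
  | zero =>
    unfold wt
    rw [Finset.sum_eq_single_of_mem (default : Fin 0 → G) (mem_univ _)
      (fun b _ hb => absurd (Subsingleton.elim b default) hb)]
    simp [un_zero]
  | succ J ih =>
    have hf0 : 0 ≤ fw G q S T := Finset.sum_nonneg (fun g _ => pow_nonneg hq0 _)
    have e1 : wt G q S T (J + 1) = ∑ x : G × (Fin J → G),
        (if ∃ σ : G, un (Fin.cons x.1 x.2 : Fin (J + 1) → G) S ⊆ tr σ T then
          q ^ (un (Fin.cons x.1 x.2 : Fin (J + 1) → G) S).card else 0) := by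
      unfold wt
      refine (Fintype.sum_equiv (Fin.consEquiv (fun _ : Fin (J + 1) => G)) _ _ ?_).symm
      intro x
      rfl
    rw [e1, Fintype.sum_prod_type_right]
    have h2 : ∀ ω : Fin J → G, (∑ g : G,
        (if ∃ σ : G, un (Fin.cons g ω : Fin (J + 1) → G) S ⊆ tr σ T then
          q ^ (un (Fin.cons g ω : Fin (J + 1) → G) S).card else 0)) ≤
        (if ∃ σ : G, un ω S ⊆ tr σ T then q ^ (un ω S).card else 0) * fw G q S T := by
      intro ω
      by_cases h : ∃ σ : G, un ω S ⊆ tr σ T
      · rw [if_pos h]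
        obtain ⟨σ, hσ⟩ := h
        rw [← fw_tr q S T σ]
        unfold fw
        rw [Finset.mul_sum]
        apply Finset.sum_le_sum
        intro g _
        split_ifs with hc
        · rw [un_cons, ← pow_add]
          apply pow_le_pow_of_le_one hq0 hq1
          have : tr g S ∪ un ω S = un ω S ∪ (tr g S \ un ω S) := by
            rw [Finset.union_sdiff_self_eq_union, Finset.union_comm]
          rw [this, Finset.card_union_of_disjoint Finset.disjoint_sdiff]
          have : (tr g S \ tr σ T).card ≤ (tr g S \ un ω S).card :=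
            Finset.card_le_card (Finset.sdiff_subset_sdiff (Finset.Subset.refl _) hσ)
          omega
        · positivity
      · rw [if_neg h, zero_mul]
        apply le_of_eq
        apply Finset.sum_eq_zero
        intro g _
        rw [if_neg]
        rintro ⟨σ, hσ⟩
        apply h
        refine ⟨σ, ?_⟩
        rw [un_cons] at hσ
        exact Finset.subset_union_right.trans hσ
    calc _ ≤ ∑ ω : Fin J → G,
          (if ∃ σ : G, un ω S ⊆ tr σ T then q ^ (un ω S).card else 0) * fw G q S T :=
          Finset.sum_le_sum (fun ω _ => h2 ω)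
      _ = wt G q S T J * fw G q S T := by
          rw [← Finset.sum_mul]; rfl
      _ ≤ fw G q S T ^ J * fw G q S T := mul_le_mul_of_nonneg_right ih hf0
      _ = fw G q S T ^ (J + 1) := (pow_succ _ _).symm

omit [Fintype ι] in
/-- orbit counting -/
lemma orb_mul_tup_le (q : ℝ) (hq0 : 0 ≤ q) (hq1 : q ≤ 1) (S T U : Finset ι) (hU : U ⊆ T) (J : ℕ) :
    ((orb G U).card : ℝ) * (tup G J S U).card * q ^ U.card ≤ fw G q S T ^ J := by
  classical
  refine le_trans ?_ (wt_le q hq0 hq1 S T J)
  have h1 : ((orb G U).card : ℝ) * (tup G J S U).card * q ^ U.card =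
      ∑ V ∈ orb G U, ∑ ω ∈ tup G J S V, q ^ (un ω S).card := by
    have : ∀ V ∈ orb G U, ∑ ω ∈ tup G J S V, q ^ (un ω S).card =
        ((tup G J S U).card : ℝ) * q ^ U.card := by
      intro V hV
      obtain ⟨g, rfl⟩ := (mem_orb U V).mp hV
      rw [Finset.sum_congr rfl (g := fun _ => q ^ U.card), Finset.sum_const, nsmul_eq_mul,
        card_tup_tr J S U g]
      intro ω hω
      rw [(mem_tup _ _ _ _).mp hω, card_tr]
    rw [Finset.sum_congr rfl this, Finset.sum_const, nsmul_eq_mul]
    ring
  rw [h1, Finset.sum_sigma']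
  unfold wt
  rw [← Finset.sum_filter]
  have hinj : Set.InjOn (fun x : Σ _ : Finset ι, (Fin J → G) => x.2)
      ((orb G U).sigma (fun V => tup G J S V) : Finset (Σ _ : Finset ι, (Fin J → G))) := by
    rintro ⟨V, ω⟩ h ⟨V', ω'⟩ h' hh
    simp only [coe_sigma, Set.mem_sigma_iff, mem_coe] at h h'
    simp only at hh
    subst hh
    have e1 := (mem_tup _ _ _ _).mp h.2
    have e2 := (mem_tup _ _ _ _).mp h'.2
    rw [← e1, ← e2]
  rw [← Finset.sum_image (f := fun ω : Fin J → G => q ^ (un ω S).card) hinj]
  apply Finset.sum_le_sum_of_subset_of_nonneg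
  · intro ω hω
    obtain ⟨⟨V, ω'⟩, h, rfl⟩ := Finset.mem_image.mp hω
    rw [Finset.mem_sigma] at h
    obtain ⟨g, hg⟩ := (mem_orb U V).mp h.1
    have e1 := (mem_tup _ _ _ _).mp h.2
    rw [Finset.mem_filter]
    refine ⟨mem_univ _, g, ?_⟩
    have e2 : un ω' S = V := e1
    have e3 : tr g U = V := hg
    change un ω' S ⊆ tr g T
    rw [e2, ← e3, tr_subset_tr]
    exact hU
  · intro ω _ _
    positivity

omit [Fintype ι] in
/-- the weight in terms of the numbers of the subsets -/
lemma fw_le (q : ℝ) (hq0 : 0 ≤ q) (S T : Finset ι) :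
    fw G q S T ≤ ∑ K ∈ S.powerset, (av G K T : ℝ) * q ^ (S.card - K.card) := by
  classical
  unfold fw
  let K : G → Finset ι := fun g => S.filter (fun x => g • x ∈ T)
  have hK : ∀ g : G, (tr g S \ T).card = S.card - (K g).card := by
    intro g
    have h1 : tr g S \ T = tr g (S \ K g) := by
      ext x
      simp only [Finset.mem_sdiff, mem_tr, K, Finset.mem_filter, smul_inv_smul]
      tauto
    rw [h1, card_tr, Finset.card_sdiff_of_subset (Finset.filter_subset _ _)]
  have hK2 : ∀ g : G, tr g (K g) ⊆ T := by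
    intro g x hx
    rw [mem_tr] at hx
    have := (Finset.mem_filter.mp hx).2
    simpa using this
  calc ∑ g : G, q ^ (tr g S \ T).card = ∑ g : G, q ^ (S.card - (K g).card) :=
        Finset.sum_congr rfl (fun g _ => by rw [hK g])
    _ = ∑ g : G, ∑ K' ∈ S.powerset, (if K' = K g then q ^ (S.card - K'.card) else 0) := by
        apply Finset.sum_congr rfl
        intro g _
        rw [Finset.sum_ite_eq', if_pos]
        rw [Finset.mem_powerset]
        exact Finset.filter_subset _ _
    _ = ∑ K' ∈ S.powerset, ∑ g : G, (if K' = K g then q ^ (S.card - K'.card) else 0) :=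
        Finset.sum_comm
    _ ≤ ∑ K' ∈ S.powerset, (av G K' T : ℝ) * q ^ (S.card - K'.card) := by
        apply Finset.sum_le_sum
        intro K' _
        rw [← Finset.sum_filter, Finset.sum_const, nsmul_eq_mul]
        apply mul_le_mul_of_nonneg_right _ (by positivity)
        norm_cast
        unfold av
        apply Finset.card_le_card
        intro g hg
        rw [Finset.mem_filter] at hg
        rw [mem_mv, hg.2]
        exact hK2 g

end Pool.Agent.W812.EG
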