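import Pool.Agent.W812.EG3

/-! Unordered pairs of vertices, permutations acting on them, and copies of a graph. -/

namespace Pool.Agent.W812.EG

open Finset Pool.Agent.H362C

/-- pairs `a < b` of vertices -/
abbrev PP (n : ℕ) := {e : Fin n × Fin n // e.1 < e.2}

instance actPP (n : ℕ) : MulAction (Equiv.Perm (Fin n)) (PP n) where
  smul g e := ⟨(min (g e.1.1) (g e.1.2), max (g e.1.1) (g e.1.2)), by
    rw [min_lt_max]
    intro h
    exact e.2.ne (g.injective h)⟩
  one_smul e := by
    apply Subtype.ext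
    change (min e.1.1 e.1.2, max e.1.1 e.1.2) = e.1
    rw [min_eq_left e.2.le, max_eq_right e.2.le]
  mul_smul g h e := by
    apply Subtype.ext
    change (min (g (h e.1.1)) (g (h e.1.2)), max (g (h e.1.1)) (g (h e.1.2))) =
      (min (g (min (h e.1.1) (h e.1.2))) (g (max (h e.1.1) (h e.1.2))),
        max (g (min (h e.1.1) (h e.1.2))) (g (max (h e.1.1) (h e.1.2))))
    rcases le_total (h e.1.1) (h e.1.2) with hh | hh
    · rw [min_eq_left hh, max_eq_right hh]
    · rw [min_eq_right hh, max_eq_left hh, min_comm, max_comm]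

variable {n : ℕ}

lemma smul_def (g : Equiv.Perm (Fin n)) (e : PP n) :
    (g • e).1 = (min (g e.1.1) (g e.1.2), max (g e.1.1) (g e.1.2)) := rfl

lemma smul_sym (g : Equiv.Perm (Fin n)) (e : PP n) :
    s((g • e).1.1, (g • e).1.2) = s(g e.1.1, g e.1.2) := by
  rw [smul_def]
  simp only
  rcases le_total (g e.1.1) (g e.1.2) with h | h
  · rw [min_eq_left h, max_eq_right h]
  · rw [min_eq_right h, max_eq_left h, Sym2.eq_swap]

lemma pp_ext {e e' : PP n} (h : s(e.1.1, e.1.2) = s(e'.1.1, e'.1.2)) : e = e' := by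
  apply Subtype.ext
  rw [Sym2.eq_iff] at h
  rcases h with ⟨h1, h2⟩ | ⟨h1, h2⟩
  · exact Prod.ext h1 h2
  · exfalso
    have a1 := e.2
    have a2 := e'.2
    rw [h1, h2] at a1
    exact lt_asymm a1 a2

/-- the adjacency relation given by a set of pairs -/
def Rel (Y : Finset (PP n)) (u v : Fin n) : Prop := ∃ e ∈ Y, s(e.1.1, e.1.2) = s(u, v)

lemma Rel.symm {Y : Finset (PP n)} {u v : Fin n} (h : Rel Y u v) : Rel Y v u := by
  obtain ⟨e, he, h⟩ := h
  exact ⟨e, he, by rw [h, Sym2.eq_swap]⟩

lemma rel_tr (g : Equiv.Perm (Fin n)) (Y : Finset (PP n)) (u v : Fin n) :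
    Rel (tr g Y) (g u) (g v) ↔ Rel Y u v := by
  constructor
  · rintro ⟨e, he, h⟩
    rw [mem_tr] at he
    refine ⟨_, he, ?_⟩
    rw [smul_sym]
    have h2 : Sym2.map (g⁻¹ : Equiv.Perm (Fin n)) s(e.1.1, e.1.2) =
        Sym2.map (g⁻¹ : Equiv.Perm (Fin n)) s(g u, g v) := by rw [h]
    simpa using h2
  · rintro ⟨e, he, h⟩
    refine ⟨g • e, ?_, ?_⟩
    · rw [mem_tr]
      simpa using he
    · rw [smul_sym]
      have h2 : Sym2.map g s(e.1.1, e.1.2) = Sym2.map g s(u, v) := by rw [h]
      simpa using h2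

section emb

variable {k : ℕ} (hk : k ≤ n) (H : SimpleGraph (Fin k))

/-- the edges of `H` placed on the first `k` vertices -/
noncomputable def EH : Finset (PP n) :=
  by classical exact univ.filter (fun e => ∃ a b : Fin k, H.Adj a b ∧
    s(e.1.1, e.1.2) = s(Fin.castLE hk a, Fin.castLE hk b))

lemma mem_EH (e : PP n) : e ∈ EH hk H ↔ ∃ a b : Fin k, H.Adj a b ∧
    s(e.1.1, e.1.2) = s(Fin.castLE hk a, Fin.castLE hk b) := by
  classical
  simp [EH]

/-- relation on the vertices of `H` given by a set of pairs -/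
def UA (U : Finset (PP n)) (a b : Fin k) : Prop := Rel U (Fin.castLE hk a) (Fin.castLE hk b)

lemma adj_of_UA {U : Finset (PP n)} (hU : U ⊆ EH hk H) {a b : Fin k} (h : UA hk U a b) :
    H.Adj a b := by
  obtain ⟨e, he, h⟩ := h
  obtain ⟨a', b', hab, h'⟩ := (mem_EH hk H e).mp (hU he)
  rw [h', Sym2.eq_iff] at h
  have hinj := Fin.castLE_injective hk
  rcases h with ⟨h1, h2⟩ | ⟨h1, h2⟩
  · rw [← hinj h1, ← hinj h2]
    exact hab
  · rw [← hinj h1, ← hinj h2]
    exact hab.symm

lemma rel_mem {U : Finset (PP n)} (hU : U ⊆ EH hk H) {u v : Fin n} (h : Rel U u v) :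
    ∃ a b : Fin k, u = Fin.castLE hk a ∧ v = Fin.castLE hk b ∧ UA hk U a b := by
  obtain ⟨e, he, h⟩ := h
  obtain ⟨a', b', hab, h'⟩ := (mem_EH hk H e).mp (hU he)
  have h2 := h
  rw [h', Sym2.eq_iff] at h
  rcases h with ⟨h1, h2'⟩ | ⟨h1, h2'⟩
  · refine ⟨a', b', h1.symm, h2'.symm, e, he, ?_⟩
    rw [h2, h1, h2']
  · refine ⟨b', a', h2'.symm, h1.symm, e, he, ?_⟩
    rw [h2, h1, h2']

/-- the subgraph of `H` spanned by a set of pairs -/
def sub (U : Finset (PP n)) (hU : U ⊆ EH hk H) : H.Subgraph where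
  verts := {a | ∃ b, UA hk U a b}
  Adj := UA hk U
  adj_sub := fun h => adj_of_UA hk H hU h
  edge_vert := fun h => ⟨_, h⟩
  symm := ⟨fun _ _ h => Rel.symm h⟩

lemma sub_edges (U : Finset (PP n)) (hU : U ⊆ EH hk H) :
    (sub hk H U hU).edgeSet.ncard = U.card := by
  classical
  have h1 : (Sym2.map (Fin.castLE hk)) '' (sub hk H U hU).edgeSet =
      (fun e : PP n => s(e.1.1, e.1.2)) '' (U : Set (PP n)) := by
    ext z
    constructor
    · rintro ⟨y, hy, rfl⟩
      induction y using Sym2.ind with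
      | _ a b =>
        rw [SimpleGraph.Subgraph.mem_edgeSet] at hy
        obtain ⟨e, he, h⟩ := (show Rel U _ _ from hy)
        exact ⟨e, he, by simpa using h⟩
    · rintro ⟨e, he, rfl⟩
      obtain ⟨a, b, h1, h2, h3⟩ := rel_mem hk H hU (u := e.1.1) (v := e.1.2) ⟨e, he, rfl⟩
      refine ⟨s(a, b), ?_, ?_⟩
      · rw [SimpleGraph.Subgraph.mem_edgeSet]
        exact h3
      · simp [h1, h2]
  have h2 : ((Sym2.map (Fin.castLE hk)) '' (sub hk H U hU).edgeSet).ncard =
      (sub hk H U hU).edgeSet.ncard :=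
    Set.ncard_image_of_injective _ (Sym2.map.injective (Fin.castLE_injective hk))
  have h3 : ((fun e : PP n => s(e.1.1, e.1.2)) '' (U : Set (PP n))).ncard = U.card := by
    rw [Set.ncard_image_of_injective _ (fun e e' h => pp_ext h), Set.ncard_coe_finset]
  rw [← h2, h1, h3]

/-- automorphisms -/
abbrev AutS (U : Finset (PP n)) (hU : U ⊆ EH hk H) :=
  {σ : Equiv.Perm (sub hk H U hU).verts //
    ∀ x y : (sub hk H U hU).verts, (sub hk H U hU).Adj x y ↔ (sub hk H U hU).Adj (σ x) (σ y)}

lemma exists_perm (V : Set (Fin k)) (f : V ↪ Fin n) :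
    ∃ g : Equiv.Perm (Fin n), ∀ a : V, g (Fin.castLE hk a) = f a := by
  classical
  let c : V → Fin n := fun a => Fin.castLE hk a
  have hc : Function.Injective c := fun a b h => Subtype.ext (Fin.castLE_injective hk h)
  let e1 := Equiv.ofInjective c hc
  let e2 := Equiv.ofInjective f f.injective
  let e : {x // x ∈ Set.range c} ≃ {x // x ∈ Set.range f} := e1.symm.trans e2
  refine ⟨Equiv.extendSubtype e, ?_⟩
  intro a
  have hm : Fin.castLE hk (a : Fin k) ∈ Set.range c := ⟨a, rfl⟩
  rw [Equiv.extendSubtype_apply_of_mem e _ hm]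
  have : (⟨Fin.castLE hk (a : Fin k), hm⟩ : {x // x ∈ Set.range c}) = e1 a := by
    apply Subtype.ext
    rfl
  rw [this]
  simp only [e, Equiv.trans_apply, Equiv.symm_apply_apply]
  rfl

lemma desc_le (U : Finset (PP n)) (hU : U ⊆ EH hk H) :
    n.descFactorial (sub hk H U hU).verts.ncard ≤
      Nat.card (AutS hk H U hU) * (orb (Equiv.Perm (Fin n)) U).card := by
  classical
  set V := (sub hk H U hU).verts with hV
  have hcardV : Fintype.card V = V.ncard := by
    rw [← Nat.card_eq_fintype_card, Nat.card_coe_set_eq]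
  have h1 : n.descFactorial V.ncard = (univ : Finset (V ↪ Fin n)).card := by
    rw [Finset.card_univ, Fintype.card_embedding_eq, Fintype.card_fin, hcardV]
  rw [h1]
  choose g hg using exists_perm (n := n) hk V
  -- range of `f` and adjacency are determined by the image
  have hrel : ∀ f : V ↪ Fin n, ∀ x y : V, Rel (tr (g f) U) (f x) (f y) ↔ UA hk U x y := by
    intro f x y
    rw [← hg f x, ← hg f y, rel_tr]
    rfl
  have hrange : ∀ f : V ↪ Fin n, ∀ u v, Rel (tr (g f) U) u v → u ∈ Set.range f := by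
    intro f u v h
    have h2 : Rel (tr (g f) U) (g f ((g f)⁻¹ u)) (g f ((g f)⁻¹ v)) := by simpa using h
    rw [rel_tr] at h2
    obtain ⟨a, b, ha, hb, hab⟩ := rel_mem hk H hU h2
    have haV : a ∈ V := ⟨b, hab⟩
    refine ⟨⟨a, haV⟩, ?_⟩
    rw [← hg f ⟨a, haV⟩]
    simp only
    rw [← ha]
    simp
  have hrange2 : ∀ f f' : V ↪ Fin n, tr (g f) U = tr (g f') U → Set.range f ⊆ Set.range f' := by
    intro f f' h u hu
    obtain ⟨x, rfl⟩ := hu
    obtain ⟨b, hb⟩ := x.2
    have hbV : b ∈ V := ⟨(x : Fin k), Rel.symm hb⟩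
    have h2 := (hrel f x ⟨b, hbV⟩).mpr hb
    rw [h] at h2
    exact hrange f' _ _ h2
  apply Finset.card_le_mul_card_image_of_maps_to (f := fun f => tr (g f) U)
  · intro f _
    rw [mem_orb]
    exact ⟨g f, rfl⟩
  · intro Y _
    rcases Finset.eq_empty_or_nonempty
      ((univ : Finset (V ↪ Fin n)).filter (fun f => tr (g f) U = Y)) with h | ⟨f', hf'⟩
    · rw [h]
      simp
    · have hf'Y := (Finset.mem_filter.mp hf').2
      have hsub : (univ : Finset (V ↪ Fin n)).filter (fun f => tr (g f) U = Y) ⊆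
          (univ : Finset (AutS hk H U hU)).image
            (fun σ => (σ.1.toEmbedding.trans f' : V ↪ Fin n)) := by
        intro f hf
        have hfY := (Finset.mem_filter.mp hf).2
        have hff : tr (g f) U = tr (g f') U := hfY.trans hf'Y.symm
        have hr : Set.range f = Set.range f' :=
          Set.Subset.antisymm (hrange2 f f' hff) (hrange2 f' f hff.symm)
        let σ : Equiv.Perm V := (Equiv.ofInjective f f.injective).trans
          ((Equiv.setCongr hr).trans (Equiv.ofInjective f' f'.injective).symm)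
        have hσ : ∀ x, f' (σ x) = f x := by
          intro x
          have := Equiv.apply_ofInjective_symm f'.injective
            ((Equiv.setCongr hr) ((Equiv.ofInjective f f.injective) x))
          exact this
        rw [Finset.mem_image]
        refine ⟨⟨σ, ?_⟩, mem_univ _, ?_⟩
        · intro x y
          change UA hk U x y ↔ UA hk U (σ x) (σ y)
          rw [← hrel f x y, ← hrel f' (σ x) (σ y), hσ, hσ, hff]
        · apply DFunLike.ext
          intro x
          exact hσ x
      refine (Finset.card_le_card hsub).trans (Finset.card_image_le.trans ?_)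
      rw [Finset.card_univ, Nat.card_eq_fintype_card]

lemma orb_ge (U : Finset (PP n)) (hU : U ⊆ EH hk H) (p : ℝ) (hp : 0 ≤ p)
    (h : 1 ≤ (n.descFactorial (sub hk H U hU).verts.ncard : ℝ) /
              (Nat.card {σ : Equiv.Perm (sub hk H U hU).verts //
                  ∀ x y : (sub hk H U hU).verts, (sub hk H U hU).Adj x y ↔
                    (sub hk H U hU).Adj (σ x) (σ y)} : ℝ)
              * p ^ (sub hk H U hU).edgeSet.ncard) :
    1 ≤ ((orb (Equiv.Perm (Fin n)) U).card : ℝ) * p ^ U.card := by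
  rw [sub_edges] at h
  refine h.trans ?_
  apply mul_le_mul_of_nonneg_right _ (pow_nonneg hp _)
  have hpos : 0 < Nat.card (AutS hk H U hU) := by
    have : Nonempty (AutS hk H U hU) := ⟨⟨1, fun x y => Iff.rfl⟩⟩
    exact Nat.card_pos
  have hpos' : (0 : ℝ) < Nat.card (AutS hk H U hU) := by exact_mod_cast hpos
  rw [div_le_iff₀ hpos']
  have := desc_le hk H U hU
  rw [mul_comm]
  exact_mod_cast this

lemma card_EH_le : (EH hk H).card ≤ k ^ 2 := by
  classical
  have hsub : EH hk H ⊆ (univ : Finset (PP n)).filter (fun e => e.1.1.val < k ∧ e.1.2.val < k) := by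
    intro e he
    obtain ⟨a, b, -, h⟩ := (mem_EH hk H e).mp he
    rw [Finset.mem_filter]
    refine ⟨mem_univ _, ?_⟩
    rw [Sym2.eq_iff] at h
    rcases h with ⟨h1, h2⟩ | ⟨h1, h2⟩
    · rw [h1, h2]
      exact ⟨a.2, b.2⟩
    · rw [h1, h2]
      exact ⟨b.2, a.2⟩
  refine (Finset.card_le_card hsub).trans ?_
  have : k ^ 2 = (Finset.range k ×ˢ Finset.range k).card := by
    rw [Finset.card_product, Finset.card_range, sq]
  rw [this]
  apply Finset.card_le_card_of_injOn (fun e => (e.1.1.val, e.1.2.val))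
  · intro e he
    have := (Finset.mem_filter.mp (Finset.mem_coe.mp he)).2
    simp only [coe_product, coe_range, Set.mem_prod, Set.mem_Iio]
    exact this
  · intro e _ e' _ h
    apply Subtype.ext
    simp only [Prod.mk.injEq] at h
    exact Prod.ext (Fin.ext h.1) (Fin.ext h.2)

end emb

/-- The event in the form of the problem. -/
def Cont {k : ℕ} (H : SimpleGraph (Fin k)) (T : Finset (Fin n × Fin n)) : Prop :=
  ∃ f : Fin k → Fin n, Function.Injective f ∧
    ∀ a b : Fin k, H.Adj a b → f a < f b → (f a, f b) ∈ T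

lemma cont_of_has {k : ℕ} (hk : k ≤ n) (H : SimpleGraph (Fin k)) (W : Finset (PP n))
    (h : Has (Equiv.Perm (Fin n)) (EH hk H) W) :
    Cont H (W.map (Function.Embedding.subtype _)) := by
  obtain ⟨g, hg⟩ := h
  refine ⟨fun a => g (Fin.castLE hk a), fun a b hab =>
    Fin.castLE_injective hk (g.injective hab), ?_⟩
  intro a b hab hlt
  rw [Finset.mem_map]
  refine ⟨⟨(g (Fin.castLE hk a), g (Fin.castLE hk b)), hlt⟩, ?_, rfl⟩
  apply hg
  rw [mem_tr, mem_EH]
  refine ⟨a, b, hab, ?_⟩
  rw [smul_sym]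
  simp

lemma pairs_eq : ((Finset.univ : Finset (Fin n × Fin n)).filter
    (fun e : Fin n × Fin n => e.1 < e.2)) =
    (univ : Finset (PP n)).map (Function.Embedding.subtype _) := by
  ext e
  simp

lemma sum_eq_Pr {k : ℕ} (H : SimpleGraph (Fin k)) (q : ℝ) :
    ∑ S ∈ ((Finset.univ : Finset (Fin n × Fin n)).filter
            (fun e : Fin n × Fin n => e.1 < e.2)).powerset,
        Set.indicator
          {T : Finset (Fin n × Fin n) | ∃ f : Fin k → Fin n, Function.Injective f ∧
              ∀ a b : Fin k, H.Adj a b → f a < f b → (f a, f b) ∈ T}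
          (fun T : Finset (Fin n × Fin n) => q ^ T.card *
            (1 - q) ^ (((Finset.univ : Finset (Fin n × Fin n)).filter
                (fun e : Fin n × Fin n => e.1 < e.2)).card - T.card)) S =
      Pr q ((univ : Finset (PP n)).map (Function.Embedding.subtype _)) (Cont H) := by
  classical
  unfold Pr Ex
  rw [pairs_eq]
  apply Finset.sum_congr rfl
  intro S _
  rw [Set.indicator_apply]
  have hm : (S ∈ {T : Finset (Fin n × Fin n) | ∃ f : Fin k → Fin n, Function.Injective f ∧
      ∀ a b : Fin k, H.Adj a b → f a < f b → (f a, f b) ∈ T}) ↔ Cont H S := Iff.rfl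
  by_cases h : Cont H S
  · rw [if_pos (hm.mpr h)]
    simp [h]
  · rw [if_neg (fun h' => h (hm.mp h'))]
    simp [h]

end Pool.Agent.W812.EG
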