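import Pool.Agent.W812.EG3

/-! A spread orbit gives a random set containing a translate. -/

namespace Pool.Agent.W812.EG

open Finset Pool.Agent.H560R2 Pool.Agent.H362C

variable {G ι : Type*} [Group G] [Fintype G] [Fintype ι] [DecidableEq ι] [MulAction G ι]

/-- If the orbit of `E` is `κ`-spread, then a random set of density `128 L κ` contains a
translate of `E`. -/
theorem contains_of_spread (E : Finset ι) (κ : ℝ) (hκ : 0 < κ) (L : ℕ) (hL : 1 ≤ L)
    (hE : E.card < 2 ^ L)
    (hsp : ∀ Z : Finset ι, (av G Z E : ℝ) ≤ Fintype.card G * κ ^ Z.card)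
    (q : ℝ) (hq1 : q ≤ 1) (hq : 128 * (L : ℝ) * κ ≤ q) :
    3 / 4 ≤ Pr q univ (Has G E) := by
  classical
  have hLr : (1 : ℝ) ≤ L := by exact_mod_cast hL
  -- the number of colours
  set x : ℝ := 1 / (64 * κ) with hx
  have hx0 : 0 < x := by positivity
  have hx2 : 2 ≤ x := by
    rw [hx, le_div_iff₀ (by positivity)]
    nlinarith
  obtain ⟨Q, hQ1, hQ2⟩ : ∃ Q : ℕ, (Q : ℝ) ≤ x ∧ x ≤ 2 * Q := by
    refine ⟨⌊x⌋₊, Nat.floor_le hx0.le, ?_⟩
    have := Nat.lt_floor_add_one x
    linarith
  have hQ0 : 0 < Q := by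
    rcases Nat.eq_zero_or_pos Q with h | h
    · rw [h] at hQ2
      norm_num at hQ2
      linarith
    · exact h
  have : NeZero Q := ⟨hQ0.ne'⟩
  have hQr : (0 : ℝ) < Q := by exact_mod_cast hQ0
  have hr1 : ((64 * Q : ℕ) : ℝ) * κ ≤ 1 := by
    push_cast
    rw [hx, le_div_iff₀ (by positivity)] at hQ1
    linarith
  -- the spread condition
  have hspread : ∀ Z : Finset ι, ((univ : Finset G).filter (fun g => Z ⊆ tr g E)).card *
      (64 * Q) ^ Z.card ≤ Fintype.card G := by
    intro Z
    have h1 : ((univ : Finset G).filter (fun g => Z ⊆ tr g E)).card = av G Z E := by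
      unfold av
      apply Finset.card_bij (fun g _ => g⁻¹)
      · intro g hg
        rw [mem_mv, tr_subset_iff, inv_inv]
        exact (Finset.mem_filter.mp hg).2
      · intro g _ g' _ h
        exact inv_injective h
      · intro g hg
        refine ⟨g⁻¹, ?_, inv_inv g⟩
        rw [Finset.mem_filter]
        refine ⟨mem_univ _, ?_⟩
        rw [mem_mv, tr_subset_iff] at hg
        exact hg
    rw [h1]
    have h2 := hsp Z
    have h3 : ((av G Z E * (64 * Q) ^ Z.card : ℕ) : ℝ) ≤ Fintype.card G := by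
      push_cast
      calc (av G Z E : ℝ) * (64 * Q) ^ Z.card ≤
            Fintype.card G * κ ^ Z.card * (64 * Q) ^ Z.card :=
            mul_le_mul_of_nonneg_right h2 (by positivity)
        _ = Fintype.card G * (((64 * Q : ℕ) : ℝ) * κ) ^ Z.card := by
            push_cast
            rw [mul_assoc, ← mul_pow]
            congr 2
            ring
        _ ≤ Fintype.card G * 1 := by
            apply mul_le_mul_of_nonneg_left _ (by positivity)
            exact pow_le_one₀ (by positivity) hr1
        _ = Fintype.card G := mul_one _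
    exact_mod_cast h3
  have hph := phase (Q := Q) L (64 * Q) le_rfl (univ : Finset G) (fun g => tr g E)
    (Fintype.card G) (by
      intro g _
      rw [card_tr]
      exact hE) hspread
  -- failing probability
  have hN : (0 : ℚ) < (Fintype.card G : ℚ) := by exact_mod_cast Fintype.card_pos
  have hfail : ((failJ Q L (univ : Finset G) (fun g => tr g E)).card : ℝ) ≤
      1 / 4 * ((Q : ℝ) ^ Fintype.card ι) ^ L := by
    have h1 : ((failJ Q L (univ : Finset G) (fun g => tr g E)).card : ℚ) ≤
        1 / 4 * ((Q : ℚ) ^ Fintype.card ι) ^ L := by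
      rw [Finset.card_univ] at hph
      have h2 : ((failJ Q L (univ : Finset G) (fun g => tr g E)).card : ℚ) ≤
          cJ L * ((Q : ℚ) ^ (Fintype.card ι)) ^ L := by
        refine le_of_mul_le_mul_right ?_ hN
        calc _ ≤ _ := hph
          _ = _ := by ring
      exact h2.trans (mul_le_mul_of_nonneg_right (cJ_le L) (by positivity))
    have h3 : ((failJ Q L (univ : Finset G) (fun g => tr g E)).card : ℚ) * 4 ≤
        ((Q : ℚ) ^ Fintype.card ι) ^ L := by linarith
    have h4 : (failJ Q L (univ : Finset G) (fun g => tr g E)).card * 4 ≤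
        (Q ^ Fintype.card ι) ^ L := by exact_mod_cast h3
    have h5 : ((failJ Q L (univ : Finset G) (fun g => tr g E)).card : ℝ) * 4 ≤
        ((Q : ℝ) ^ Fintype.card ι) ^ L := by exact_mod_cast h4
    linarith
  have hfail2 : ((failJ Q L (univ : Finset G) (fun g => tr g E)).card : ℝ) =
      ∑ ω : Fin L → ι → Fin Q, (if ¬ Has G E (WJ ω) then (1 : ℝ) else 0) := by
    rw [← Finset.sum_filter, Finset.sum_const, nsmul_eq_mul, mul_one]
    congr 2
    ext ω
    rw [mem_failJ, Finset.mem_filter]
    unfold Has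
    push Not
    constructor
    · intro h
      exact ⟨mem_univ _, fun g => h g (mem_univ _)⟩
    · intro h g _
      exact h.2 g
  set w : ℝ := 1 - (1 - 1 / Q) ^ L with hw
  have hPr : Pr w univ (fun W => ¬ Has G E W) ≤ 1 / 4 := by
    have h1 := sum_WJ (Q := Q) L (fun W : Finset ι => if ¬ Has G E W then (1 : ℝ) else 0)
    rw [← hfail2, Ex_ite] at h1
    have h2 : ((Q : ℝ) ^ Fintype.card ι) ^ L * Pr w univ (fun W => ¬ Has G E W) ≤
        ((Q : ℝ) ^ Fintype.card ι) ^ L * (1 / 4) := by
      rw [← h1]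
      linarith
    exact le_of_mul_le_mul_left h2 (by positivity)
  rw [Pr_not] at hPr
  have hQ1' : (1 : ℝ) / Q ≤ 1 := by
    rw [div_le_one hQr]
    exact_mod_cast hQ0
  have hw0 : 0 ≤ w := by
    rw [hw]
    have : (1 - 1 / (Q : ℝ)) ^ L ≤ 1 := pow_le_one₀ (by linarith) (by
      have : (0 : ℝ) ≤ 1 / Q := by positivity
      linarith)
    linarith
  have hwq : w ≤ q := by
    refine le_trans ?_ hq
    have h1 := one_add_mul_le_pow (a := -(1 / (Q : ℝ))) (by linarith) L
    have h2 : w ≤ L * (1 / Q) := by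
      rw [hw]
      have h3 : (1 - 1 / (Q : ℝ)) = 1 + -(1 / Q) := by ring
      rw [h3]
      linarith
    refine h2.trans ?_
    have h4 : (1 : ℝ) / Q ≤ 2 * (64 * κ) := by
      rw [div_le_iff₀ hQr]
      have h5 : 1 = x * (64 * κ) := by
        rw [hx]
        field_simp
      calc (1 : ℝ) = x * (64 * κ) := h5
        _ ≤ 2 * Q * (64 * κ) := mul_le_mul_of_nonneg_right hQ2 (by positivity)
        _ = _ := by ring
    calc (L : ℝ) * (1 / Q) ≤ L * (2 * (64 * κ)) :=
          mul_le_mul_of_nonneg_left h4 (by positivity)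
      _ = 128 * (L : ℝ) * κ := by ring
  have hmono := Pr_mono_param hw0 hwq hq1 (univ : Finset ι) (Has G E) (by
    rintro A B hAB ⟨g, hg⟩
    exact ⟨g, hg.trans hAB⟩)
  linarith

end Pool.Agent.W812.EG
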