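import Pool.Agent.W812.EG9
import Pool.Agent.W812.EG5
import Pool.Agent.W812.EG4

/-! Automorphisms of the graph act on the placed edges. -/

namespace Pool.Agent.W812.EG

open Finset

section canon

variable {G ι : Type*} [Group G] [Fintype G] [Fintype ι] [DecidableEq ι] [MulAction G ι]

omit [Fintype G] [Fintype ι] in
lemma mem_of_tr_eq {E : Finset ι} {γ : G} (h : tr γ E = E) {x : ι} (hx : x ∈ E) : γ • x ∈ E := by
  rw [← h, mem_tr]
  simpa using hx

omit [Fintype G] [Fintype ι] in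
lemma tr_inv_eq {E : Finset ι} {γ : G} (h : tr γ E = E) : tr γ⁻¹ E = E := by
  conv_lhs => rw [← h]
  exact tr_inv_tr γ E

/-- The spread theorem for sets with at most `m` classes of equivalent points; the classes need
not be unions of orbits. -/
theorem spread_classes {m : ℕ} (col : ι → Fin m) (E : Finset ι)
    (htrans : ∀ x ∈ E, ∀ y ∈ E, col x = col y → ∃ γ : G, tr γ E = E ∧ γ • x = y)
    (p : ℝ) (hp : 0 < p)
    (horb : ∀ U ⊆ E, 1 ≤ ((orb G U).card : ℝ) * p ^ U.card)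
    (S : Finset ι) : (av G S E : ℝ) ≤ Fintype.card G * (4096 * m * p) ^ S.card := by
  classical
  let P : ι → Finset (Fin m) := fun x => univ.filter (fun c => ∃ γ : G, tr γ E = E ∧ col (γ • x) = c)
  have hPne : ∀ x, (P x).Nonempty := fun x =>
    ⟨col x, Finset.mem_filter.mpr ⟨mem_univ _, 1, tr_one E, by rw [one_smul]⟩⟩
  let col' : ι → Fin m := fun x => (P x).min' (hPne x)
  have hmem : ∀ x, ∃ γ : G, tr γ E = E ∧ col (γ • x) = col' x := fun x =>
    (Finset.mem_filter.mp (Finset.min'_mem (P x) (hPne x))).2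
  have hPinv : ∀ γ : G, tr γ E = E → ∀ x, P (γ • x) = P x := by
    intro γ hγ x
    ext c
    simp only [P, Finset.mem_filter, mem_univ, true_and]
    constructor
    · rintro ⟨δ, h1, h2⟩
      refine ⟨δ * γ, ?_, by rw [mul_smul]; exact h2⟩
      rw [tr_mul, hγ, h1]
    · rintro ⟨δ, h1, h2⟩
      refine ⟨δ * γ⁻¹, ?_, by rw [mul_smul, inv_smul_smul]; exact h2⟩
      rw [tr_mul, tr_inv_eq hγ, h1]
  have hcol : ∀ γ : G, tr γ E = E → ∀ x ∈ E, col' (γ • x) = col' x := by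
    intro γ hγ x _
    simp only [col']
    congr 1
    exact hPinv γ hγ x
  refine spread_coloured (G := G) (m := m) col' E hcol ?_ p hp horb S
  intro x hx y hy hxy
  obtain ⟨γ₁, h1, h2⟩ := hmem x
  obtain ⟨γ₂, h3, h4⟩ := hmem y
  have h5 : col (γ₁ • x) = col (γ₂ • y) := by
    rw [h2, h4]
    exact hxy
  obtain ⟨γ₃, h6, h7⟩ := htrans _ (mem_of_tr_eq h1 hx) _ (mem_of_tr_eq h3 hy) h5
  refine ⟨γ₂⁻¹ * (γ₃ * γ₁), ?_, ?_⟩
  · rw [tr_mul, tr_mul, h1, h6, tr_inv_eq h3]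
  · rw [mul_smul, mul_smul, h7, inv_smul_smul]

end canon

section graph

variable {n k : ℕ} (hk : k ≤ n) (H : SimpleGraph (Fin k))

/-- an automorphism of `H` extends to a permutation which preserves the placed edges -/
lemma extend_aut (σ : H ≃g H) : ∃ γ : Equiv.Perm (Fin n), tr γ (EH hk H) = EH hk H ∧
    ∀ a : Fin k, γ (Fin.castLE hk a) = Fin.castLE hk (σ a) := by
  classical
  let f : (Set.univ : Set (Fin k)) ↪ Fin n :=
    ⟨fun a => Fin.castLE hk (σ a), fun a b h => Subtype.ext (σ.injective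
      (Fin.castLE_injective hk h))⟩
  obtain ⟨γ, hγ⟩ := exists_perm hk Set.univ f
  have hγ' : ∀ a : Fin k, γ (Fin.castLE hk a) = Fin.castLE hk (σ a) := fun a => hγ ⟨a, trivial⟩
  refine ⟨γ, ?_, hγ'⟩
  apply Finset.eq_of_subset_of_card_le
  · intro e he
    rw [mem_tr, mem_EH] at he
    obtain ⟨a, b, hab, h⟩ := he
    rw [mem_EH]
    refine ⟨σ a, σ b, σ.map_rel_iff.mpr hab, ?_⟩
    rw [smul_sym] at h
    have h2 : Sym2.map γ s((γ⁻¹ : Equiv.Perm (Fin n)) e.1.1, (γ⁻¹ : Equiv.Perm (Fin n)) e.1.2) =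
        Sym2.map γ s(Fin.castLE hk a, Fin.castLE hk b) := by rw [h]
    simp only [Sym2.map_mk, hγ'] at h2
    simpa using h2
  · rw [card_tr]

/-- same class implies equivalent for the placed edges -/
lemma placed_trans {m : ℕ} (hm : 0 < m) (col : Sym2 (Fin k) → Fin m)
    (hcol : ∀ e ∈ H.edgeSet, ∀ e' ∈ H.edgeSet, col e = col e' →
      ∃ σ : H ≃g H, Sym2.map σ e = e') :
    ∃ c : PP n → Fin m, ∀ x ∈ EH hk H, ∀ y ∈ EH hk H, c x = c y →
        ∃ γ : Equiv.Perm (Fin n), tr γ (EH hk H) = EH hk H ∧ γ • x = y := by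
  classical
  have hpre : ∀ x : PP n, x ∈ EH hk H → ∃ z : Sym2 (Fin k), z ∈ H.edgeSet ∧
      Sym2.map (Fin.castLE hk) z = s(x.1.1, x.1.2) := by
    intro x hx
    obtain ⟨a, b, hab, h⟩ := (mem_EH hk H x).mp hx
    exact ⟨s(a, b), hab, by simp [h]⟩
  choose pr hpr1 hpr2 using hpre
  let c : PP n → Fin m := fun x => if hx : x ∈ EH hk H then col (pr x hx) else ⟨0, hm⟩
  have hc : ∀ x (hx : x ∈ EH hk H), c x = col (pr x hx) := fun x hx => dif_pos hx
  refine ⟨c, ?_⟩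
  intro x hx y hy hxy
  rw [hc x hx, hc y hy] at hxy
  obtain ⟨σ, hσ⟩ := hcol _ (hpr1 x hx) _ (hpr1 y hy) hxy
  obtain ⟨γ, hγ1, hγ2⟩ := extend_aut hk H σ
  refine ⟨γ, hγ1, ?_⟩
  apply pp_ext
  have h5 : s(γ x.1.1, γ x.1.2) = Sym2.map γ s(x.1.1, x.1.2) := by simp
  rw [smul_sym, ← hpr2 y hy, ← hσ, h5, ← hpr2 x hx, Sym2.map_map, Sym2.map_map]
  congr 1
  funext a
  exact hγ2 a

end graph

end Pool.Agent.W812.EG
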