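import Pool.Agent.W812.EG4

/-! An upper bound for the orbit of a set of pairs from symmetries, and two inequalities for
factorials. -/

namespace Pool.Agent.W812.EG

open Finset

variable {n : ℕ}

lemma eq_of_rel {V V' : Finset (PP n)} (h : ∀ u v, Rel V u v ↔ Rel V' u v) : V = V' := by
  have key : ∀ A B : Finset (PP n), (∀ u v, Rel A u v → Rel B u v) → A ⊆ B := by
    intro A B hAB e he
    obtain ⟨e', he', h'⟩ := hAB e.1.1 e.1.2 ⟨e, he, rfl⟩
    rw [← pp_ext h']
    exact he'
  exact Finset.Subset.antisymm (key _ _ (fun u v => (h u v).mp))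
    (key _ _ (fun u v => (h u v).mpr))

/-- Symmetries of a set of pairs make its orbit small. -/
lemma orb_mul_sym_le {Y : Type} [Fintype Y] [DecidableEq Y] (i : Y → Fin n)
    (hi : Function.Injective i) (U : Finset (PP n)) (hU : ∀ u v, Rel U u v → ∃ y, i y = u)
    (Sg : Finset (Equiv.Perm Y))
    (hSg : ∀ σ ∈ Sg, ∀ x y, Rel U (i x) (i y) ↔ Rel U (i (σ x)) (i (σ y))) :
    (orb (Equiv.Perm (Fin n)) U).card * Sg.card ≤ n ^ Fintype.card Y := by
  classical
  have hch : ∀ V : Finset (PP n), V ∈ orb (Equiv.Perm (Fin n)) U →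
      ∃ g : Equiv.Perm (Fin n), tr g U = V := fun V hV => (mem_orb U V).mp hV
  choose! g hg using hch
  have hcard : (univ : Finset (Y → Fin n)).card = n ^ Fintype.card Y := by
    rw [Finset.card_univ, Fintype.card_fun, Fintype.card_fin]
  rw [← hcard, ← Finset.card_product]
  apply Finset.card_le_card_of_injOn (fun x => fun y => g x.1 (i (x.2 y)))
  · intro x _
    exact mem_univ _
  · rintro ⟨V, σ⟩ hV ⟨V', σ'⟩ hV' heq
    rw [Finset.mem_coe, Finset.mem_product] at hV hV'
    simp only at hV hV' heq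
    have hrel : ∀ (V : Finset (PP n)) (σ : Equiv.Perm Y), V ∈ orb (Equiv.Perm (Fin n)) U →
        σ ∈ Sg → ∀ u v, Rel V u v ↔ ∃ x y, g V (i (σ x)) = u ∧ g V (i (σ y)) = v ∧
          Rel U (i x) (i y) := by
      intro V σ hV hσ u v
      have h1 := rel_tr (g V) U ((g V)⁻¹ u) ((g V)⁻¹ v)
      rw [hg V hV] at h1
      simp at h1
      rw [h1]
      constructor
      · intro h
        obtain ⟨x, hx⟩ := hU _ _ h
        obtain ⟨y, hy⟩ := hU _ _ h.symm
        refine ⟨σ⁻¹ x, σ⁻¹ y, ?_, ?_, ?_⟩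
        · simp [hx]
        · simp [hy]
        · rw [hSg σ hσ]
          simpa [hx, hy] using h
      · rintro ⟨x, y, hx, hy, h⟩
        rw [hSg σ hσ] at h
        rw [← hx, ← hy]
        simpa using h
    have hVV : V = V' := by
      apply eq_of_rel
      intro u v
      rw [hrel V σ hV.1 hV.2, hrel V' σ' hV'.1 hV'.2]
      constructor
      · rintro ⟨x, y, hx, hy, h⟩
        refine ⟨x, y, ?_, ?_, h⟩
        · rw [← hx]
          exact (congrFun heq x).symm
        · rw [← hy]
          exact (congrFun heq y).symm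
      · rintro ⟨x, y, hx, hy, h⟩
        refine ⟨x, y, ?_, ?_, h⟩
        · rw [← hx]
          exact congrFun heq x
        · rw [← hy]
          exact congrFun heq y
    subst hVV
    have hσσ : σ = σ' := by
      apply Equiv.ext
      intro y
      exact hi ((g V).injective (congrFun heq y))
    rw [hσσ]

lemma pow_fact_le (m x : ℕ) : ((m + x : ℕ) : ℝ) ^ x * (m.factorial : ℝ) ≤
    Real.exp 1 ^ x * ((m + x).factorial : ℝ) := by
  induction x with
  | zero => simp
  | succ x ih =>
    have hpos : (0 : ℝ) < ((m + x + 1 : ℕ) : ℝ) := by positivity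
    have h1 : (((m + x + 1 : ℕ) : ℝ)) ^ x ≤ Real.exp 1 * ((m + x : ℕ) : ℝ) ^ x := by
      rcases Nat.eq_zero_or_pos x with rfl | hx
      · simp only [pow_zero, mul_one]
        have := Real.add_one_le_exp (1 : ℝ)
        linarith
      · have hmx : (0 : ℝ) < ((m + x : ℕ) : ℝ) := by
          have : 0 < m + x := by omega
          exact_mod_cast this
        have h2 : (((m + x + 1 : ℕ) : ℝ)) = ((m + x : ℕ) : ℝ) * (1 + 1 / ((m + x : ℕ) : ℝ)) := by
          push_cast
          field_simp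
        have h3 : (1 + 1 / ((m + x : ℕ) : ℝ)) ≤ Real.exp (1 / ((m + x : ℕ) : ℝ)) := by
          have := Real.add_one_le_exp (1 / ((m + x : ℕ) : ℝ))
          linarith
        have h4 : (1 + 1 / ((m + x : ℕ) : ℝ)) ^ x ≤ Real.exp 1 := by
          calc (1 + 1 / ((m + x : ℕ) : ℝ)) ^ x ≤ Real.exp (1 / ((m + x : ℕ) : ℝ)) ^ x :=
                pow_le_pow_left₀ (by positivity) h3 _
            _ = Real.exp ((x : ℝ) * (1 / ((m + x : ℕ) : ℝ))) := (Real.exp_nat_mul _ _).symm
            _ ≤ Real.exp 1 := by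
                apply Real.exp_le_exp.mpr
                rw [mul_one_div, div_le_one hmx]
                exact_mod_cast (by omega : x ≤ m + x)
        rw [h2, mul_pow]
        calc ((m + x : ℕ) : ℝ) ^ x * (1 + 1 / ((m + x : ℕ) : ℝ)) ^ x ≤
              ((m + x : ℕ) : ℝ) ^ x * Real.exp 1 :=
              mul_le_mul_of_nonneg_left h4 (by positivity)
          _ = _ := by ring
    have h5 : ((m + (x + 1)).factorial : ℝ) = ((m + x + 1 : ℕ) : ℝ) * ((m + x).factorial : ℝ) := by
      rw [show m + (x + 1) = (m + x) + 1 by ring, Nat.factorial_succ]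
      push_cast
      ring
    rw [h5]
    have h6 : ((m + (x + 1) : ℕ) : ℝ) = ((m + x + 1 : ℕ) : ℝ) := by
      congr 1
    rw [h6, pow_succ]
    calc ((m + x + 1 : ℕ) : ℝ) ^ x * ((m + x + 1 : ℕ) : ℝ) * (m.factorial : ℝ)
        = ((m + x + 1 : ℕ) : ℝ) ^ x * (m.factorial : ℝ) * ((m + x + 1 : ℕ) : ℝ) := by ring
      _ ≤ (Real.exp 1 * ((m + x : ℕ) : ℝ) ^ x) * (m.factorial : ℝ) * ((m + x + 1 : ℕ) : ℝ) := by
          gcongr
      _ = Real.exp 1 * (((m + x : ℕ) : ℝ) ^ x * (m.factorial : ℝ)) * ((m + x + 1 : ℕ) : ℝ) := by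
          ring
      _ ≤ Real.exp 1 * (Real.exp 1 ^ x * ((m + x).factorial : ℝ)) * ((m + x + 1 : ℕ) : ℝ) := by
          gcongr
      _ = _ := by ring

lemma pow_le_exp_fact (D : ℕ) : ((D : ℝ)) ^ D ≤ Real.exp 1 ^ D * (D.factorial : ℝ) := by
  have := pow_fact_le 0 D
  simpa using this

end Pool.Agent.W812.EG
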