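import Pool.Agent.W812.EG11

/-! Counting the placements of one set of pairs inside another one: restriction, peeling of
vertices, connected pieces. -/

namespace Pool.Agent.W812.EG

open Finset

variable {n : ℕ}

lemma Rel.ne {Y : Finset (PP n)} {u v : Fin n} (h : Rel Y u v) : u ≠ v := by
  obtain ⟨e, _, he⟩ := h
  rintro rfl
  rw [Sym2.eq_iff] at he
  have := e.2
  rcases he with ⟨h1, h2⟩ | ⟨h1, h2⟩
  · rw [h1, h2] at this
    exact lt_irrefl _ this
  · rw [h1, h2] at this
    exact lt_irrefl _ this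

lemma rel_comm {Y : Finset (PP n)} {u v : Fin n} : Rel Y u v ↔ Rel Y v u :=
  ⟨Rel.symm, Rel.symm⟩

/-- the pairs of `S` inside `X` -/
def ins (S : Finset (PP n)) (X : Finset (Fin n)) : Finset (PP n) :=
  S.filter (fun e => e.1.1 ∈ X ∧ e.1.2 ∈ X)

/-- injective placements of the vertices in `X` which send the pairs of `S` inside `X` to pairs
of `E` -/
noncomputable def Emb (E S : Finset (PP n)) (X : Finset (Fin n)) : Finset (Fin n → Fin n) :=
  by classical exact univ.filter (fun φ => Set.InjOn φ (X : Set (Fin n)) ∧ (∀ z, z ∉ X → φ z = z) ∧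
    ∀ a ∈ X, ∀ b ∈ X, Rel S a b → Rel E (φ a) (φ b))

lemma mem_Emb (E S : Finset (PP n)) (X : Finset (Fin n)) (φ : Fin n → Fin n) :
    φ ∈ Emb E S X ↔ Set.InjOn φ (X : Set (Fin n)) ∧ (∀ z, z ∉ X → φ z = z) ∧
    ∀ a ∈ X, ∀ b ∈ X, Rel S a b → Rel E (φ a) (φ b) := by
  classical
  simp [Emb]

/-- restriction -/
def res (Y : Finset (Fin n)) (φ : Fin n → Fin n) : Fin n → Fin n :=
  fun z => if z ∈ Y then φ z else z

lemma res_of_mem {Y : Finset (Fin n)} {φ : Fin n → Fin n} {z : Fin n} (h : z ∈ Y) :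
    res Y φ z = φ z := if_pos h

lemma res_of_not {Y : Finset (Fin n)} {φ : Fin n → Fin n} {z : Fin n} (h : z ∉ Y) :
    res Y φ z = z := if_neg h

lemma res_mem {E S : Finset (PP n)} {X Y : Finset (Fin n)} (hY : Y ⊆ X) {φ : Fin n → Fin n}
    (h : φ ∈ Emb E S X) : res Y φ ∈ Emb E S Y := by
  rw [mem_Emb] at h ⊢
  refine ⟨?_, fun z hz => res_of_not hz, ?_⟩
  · intro a ha b hb hab
    rw [Finset.mem_coe] at ha hb
    rw [res_of_mem ha, res_of_mem hb] at hab
    exact h.1 (hY ha) (hY hb) hab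
  · intro a ha b hb hab
    rw [res_of_mem ha, res_of_mem hb]
    exact h.2.2 a (hY ha) b (hY hb) hab

lemma ext_of_res {E S : Finset (PP n)} {X Y : Finset (Fin n)} {φ ψ : Fin n → Fin n}
    (h : φ ∈ Emb E S X) (h' : ψ ∈ Emb E S X) (h1 : res Y φ = res Y ψ)
    (h2 : ∀ z ∈ X, z ∉ Y → φ z = ψ z) : φ = ψ := by
  rw [mem_Emb] at h h'
  funext z
  by_cases hz : z ∈ X
  · by_cases hzY : z ∈ Y
    · have := congrFun h1 z
      rwa [res_of_mem hzY, res_of_mem hzY] at this
    · exact h2 z hz hzY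
  · rw [h.2.1 z hz, h'.2.1 z hz]

lemma card_Emb_split (E S : Finset (PP n)) {X Y : Finset (Fin n)} (hY : Y ⊆ X) :
    (Emb E S X).card ≤ (Emb E S Y).card * (Emb E S (X \ Y)).card := by
  rw [← Finset.card_product]
  apply Finset.card_le_card_of_injOn (fun φ => (res Y φ, res (X \ Y) φ))
  · intro φ hφ
    rw [Finset.mem_coe] at hφ
    rw [Finset.mem_coe, Finset.mem_product]
    exact ⟨res_mem hY hφ, res_mem Finset.sdiff_subset hφ⟩
  · intro φ hφ ψ hψ h
    rw [Finset.mem_coe] at hφ hψ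
    simp only [Prod.mk.injEq] at h
    apply ext_of_res hφ hψ h.1
    intro z hz hzY
    have hm : z ∈ X \ Y := Finset.mem_sdiff.mpr ⟨hz, hzY⟩
    have := congrFun h.2 z
    rwa [res_of_mem hm, res_of_mem hm] at this

/-- extending a placement by one vertex -/
lemma card_Emb_step (E S : Finset (PP n)) {X Y : Finset (Fin n)} (y : Fin n)
    (hX : X = insert y Y) (P Q : (Fin n → Fin n) → Prop) [DecidablePred P] [DecidablePred Q]
    (hPQ : ∀ φ ∈ Emb E S X, P φ → Q (res Y φ)) (c : ℕ)
    (opt : (Fin n → Fin n) → Finset (Fin n))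
    (hopt : ∀ φ ∈ Emb E S X, φ y ∈ opt (res Y φ))
    (hc : ∀ φ ∈ Emb E S Y, (opt φ).card ≤ c) :
    ((Emb E S X).filter P).card ≤ c * ((Emb E S Y).filter Q).card := by
  classical
  have hYX : Y ⊆ X := by
    rw [hX]
    exact Finset.subset_insert _ _
  apply Finset.card_le_mul_card_image_of_maps_to (f := res Y)
  · intro φ hφ
    rw [Finset.mem_filter] at hφ ⊢
    exact ⟨res_mem hYX hφ.1, hPQ φ hφ.1 hφ.2⟩
  · intro φ' hφ'
    rw [Finset.mem_filter] at hφ'
    refine le_trans ?_ (hc φ' hφ'.1)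
    apply Finset.card_le_card_of_injOn (fun φ => φ y)
    · intro φ hφ
      rw [Finset.mem_coe, Finset.mem_filter, Finset.mem_filter] at hφ
      have := hopt φ hφ.1.1
      rwa [hφ.2] at this
    · intro φ hφ ψ hψ h
      rw [Finset.mem_coe, Finset.mem_filter, Finset.mem_filter] at hφ hψ
      apply ext_of_res hφ.1.1 hψ.1.1 (hφ.2.trans hψ.2.symm)
      intro z hz hzY
      rw [hX, Finset.mem_insert] at hz
      rcases hz with rfl | hz
      · exact h
      · exact absurd hz hzY

lemma card_ins_split (S : Finset (PP n)) {X Y : Finset (Fin n)}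
    (h : ∀ b ∈ Y, ∀ w ∈ X \ Y, ¬ Rel S b w) :
    (ins S X).card ≤ (ins S Y).card + (ins S (X \ Y)).card := by
  refine le_trans (Finset.card_le_card ?_) (Finset.card_union_le _ _)
  intro e he
  unfold ins at he ⊢
  rw [Finset.mem_filter] at he
  rw [Finset.mem_union, Finset.mem_filter, Finset.mem_filter]
  obtain ⟨heS, h1, h2⟩ := he
  by_cases a1 : e.1.1 ∈ Y
  · by_cases a2 : e.1.2 ∈ Y
    · exact Or.inl ⟨heS, a1, a2⟩
    · exact absurd ⟨e, heS, rfl⟩ (h _ a1 _ (Finset.mem_sdiff.mpr ⟨h2, a2⟩))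
  · by_cases a2 : e.1.2 ∈ Y
    · exact absurd ⟨e, heS, Sym2.eq_swap⟩ (h _ a2 _ (Finset.mem_sdiff.mpr ⟨h1, a1⟩))
    · exact Or.inr ⟨heS, Finset.mem_sdiff.mpr ⟨h1, a1⟩, Finset.mem_sdiff.mpr ⟨h2, a2⟩⟩

open Classical in
/-- the neighbours of `y` in `X` -/
noncomputable def nbS (S : Finset (PP n)) (X : Finset (Fin n)) (y : Fin n) : Finset (Fin n) :=
  X.filter (fun w => Rel S y w)

lemma mem_nbS (S : Finset (PP n)) (X : Finset (Fin n)) (y w : Fin n) :
    w ∈ nbS S X y ↔ w ∈ X ∧ Rel S y w := by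
  classical
  simp [nbS]

lemma card_ins_erase (S : Finset (PP n)) (X : Finset (Fin n)) (y : Fin n) (hy : y ∈ X) :
    (ins S X).card ≤ (ins S (X.erase y)).card + (nbS S (X.erase y) y).card := by
  classical
  have hsub : ins S X ⊆ ins S (X.erase y) ∪ (ins S X).filter (fun e => e.1.1 = y ∨ e.1.2 = y) := by
    intro e he
    rw [Finset.mem_union, Finset.mem_filter]
    by_cases h : e.1.1 = y ∨ e.1.2 = y
    · exact Or.inr ⟨he, h⟩
    · left
      push Not at h
      unfold ins at he ⊢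
      rw [Finset.mem_filter] at he ⊢
      exact ⟨he.1, Finset.mem_erase.mpr ⟨h.1, he.2.1⟩, Finset.mem_erase.mpr ⟨h.2, he.2.2⟩⟩
  refine (Finset.card_le_card hsub).trans ((Finset.card_union_le _ _).trans ?_)
  apply Nat.add_le_add_left
  apply Finset.card_le_card_of_injOn (fun e => if e.1.1 = y then e.1.2 else e.1.1)
  · intro e he
    rw [Finset.mem_coe, Finset.mem_filter] at he
    obtain ⟨h1, h2⟩ := he
    unfold ins at h1
    rw [Finset.mem_filter] at h1
    rw [Finset.mem_coe, mem_nbS]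
    by_cases h : e.1.1 = y
    · simp only [h, if_true]
      have hne : e.1.2 ≠ y := by
        intro h'
        have := e.2
        rw [h, h'] at this
        exact lt_irrefl _ this
      exact ⟨Finset.mem_erase.mpr ⟨hne, h1.2.2⟩, e, h1.1, by rw [h]⟩
    · simp only [h, if_false]
      have h' : e.1.2 = y := h2.resolve_left h
      refine ⟨Finset.mem_erase.mpr ⟨h, h1.2.1⟩, e, h1.1, ?_⟩
      rw [h']
      exact Sym2.eq_swap
  · intro e he e' he' h
    rw [Finset.mem_coe, Finset.mem_filter] at he he'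
    apply pp_ext
    simp only at h
    have key : ∀ e : PP n, (e.1.1 = y ∨ e.1.2 = y) →
        s(e.1.1, e.1.2) = s(y, (if e.1.1 = y then e.1.2 else e.1.1)) := by
      intro e he
      by_cases h : e.1.1 = y
      · simp [h]
      · have h' : e.1.2 = y := he.resolve_left h
        simp only [h, if_false]
        rw [h']
        exact Sym2.eq_swap
    rw [key e he.2, key e' he'.2, h]

open Classical in
/-- common neighbours -/
noncomputable def cn (E : Finset (PP n)) (T : Finset (Fin n)) : Finset (Fin n) :=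
  univ.filter (fun w => ∀ t ∈ T, Rel E t w)

lemma mem_cn (E : Finset (PP n)) (T : Finset (Fin n)) (w : Fin n) :
    w ∈ cn E T ↔ ∀ t ∈ T, Rel E t w := by
  classical
  simp [cn]

section balanced

variable (E : Finset (PP n)) (p : ℝ) (hp : 0 < p) (hp1 : p ≤ 1)
  (horb : ∀ U ⊆ E, 1 ≤ ((orb (Equiv.Perm (Fin n)) U).card : ℝ) * p ^ U.card)

include hp hp1 horb in
/-- a large common neighbourhood costs -/
lemma cn_fact (T : Finset (Fin n)) (hT : T.Nonempty) :
    ((cn E T).card.factorial : ℝ) ≤ (n : ℝ) ^ (T.card + (cn E T).card) *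
      p ^ (T.card * (cn E T).card) := by
  classical
  set D := cn E T with hD
  have hdisj : Disjoint T D := by
    rw [Finset.disjoint_left]
    intro t ht htD
    exact ((mem_cn E T t).mp htD t ht).ne rfl
  let U : Finset (PP n) := E.filter (fun e => ∃ t ∈ T, ∃ w ∈ D, s(e.1.1, e.1.2) = s(t, w))
  have hUE : U ⊆ E := Finset.filter_subset _ _
  have hmk : ∀ t ∈ T, ∀ w ∈ D, ∃ e ∈ U, s(e.1.1, e.1.2) = s(t, w) := by
    intro t ht w hw
    obtain ⟨e, he, h⟩ := (mem_cn E T w).mp hw t ht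
    exact ⟨e, Finset.mem_filter.mpr ⟨he, t, ht, w, hw, h⟩, h⟩
  have hUcard : T.card * D.card ≤ U.card := by
    rw [← Finset.card_product]
    have hch : ∀ x : Fin n × Fin n, x ∈ T ×ˢ D → ∃ e : PP n, e ∈ U ∧
        s(e.1.1, e.1.2) = s(x.1, x.2) := by
      intro x hx
      rw [Finset.mem_product] at hx
      exact hmk x.1 hx.1 x.2 hx.2
    have hne : Nonempty (PP n) ∨ T ×ˢ D = ∅ := by
      rcases Finset.eq_empty_or_nonempty (T ×ˢ D) with h | ⟨x, hx⟩
      · exact Or.inr h
      · exact Or.inl ⟨(hch x hx).choose⟩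
    rcases hne with hne | hne
    · choose! f hf using hch
      apply Finset.card_le_card_of_injOn f
      · intro x hx
        exact (hf x hx).1
      · intro x hx x' hx' h
        have h1 := (hf x hx).2
        have h2 := (hf x' hx').2
        rw [h] at h1
        rw [h1, Sym2.eq_iff] at h2
        rw [Finset.mem_coe, Finset.mem_product] at hx hx'
        rcases h2 with ⟨a, b⟩ | ⟨a, b⟩
        · exact Prod.ext a b
        · exfalso
          exact (Finset.disjoint_left.mp hdisj hx.1) (a ▸ hx'.2)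
    · rw [hne]
      simp
  -- symmetries
  let Y := {x // x ∈ T} ⊕ {x // x ∈ D}
  let i : Y → Fin n := Sum.elim Subtype.val Subtype.val
  have hi : Function.Injective i := by
    rintro (a | a) (b | b) h
    · exact congrArg Sum.inl (Subtype.ext h)
    · have h' : (a : Fin n) = (b : Fin n) := h
      exact absurd (h' ▸ b.2 : (a : Fin n) ∈ D) (Finset.disjoint_left.mp hdisj a.2)
    · have h' : (b : Fin n) = (a : Fin n) := h.symm
      exact absurd (h' ▸ a.2 : (b : Fin n) ∈ D) (Finset.disjoint_left.mp hdisj b.2)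
    · exact congrArg Sum.inr (Subtype.ext h)
  have hL : ∀ x : Y, x.isLeft = true ↔ i x ∈ T := by
    rintro (a | a)
    · simpa [i] using a.2
    · simp only [Sum.isLeft_inr, Bool.false_eq_true, i, Sum.elim_inr, false_iff]
      exact fun h => Finset.disjoint_left.mp hdisj h a.2
  have hR : ∀ x : Y, x.isLeft = false ↔ i x ∈ D := by
    rintro (a | a)
    · simp only [Sum.isLeft_inl, Bool.true_eq_false, i, Sum.elim_inl, false_iff]
      exact fun h => Finset.disjoint_left.mp hdisj a.2 h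
    · simpa [i] using a.2
  have hrel : ∀ x y : Y, Rel U (i x) (i y) ↔ x.isLeft ≠ y.isLeft := by
    intro x y
    constructor
    · rintro ⟨e, he, h⟩
      obtain ⟨t, ht, w, hw, h'⟩ := (Finset.mem_filter.mp he).2
      rw [h, Sym2.eq_iff] at h'
      rcases h' with ⟨a, b⟩ | ⟨a, b⟩
      · rw [(hL x).mpr (a ▸ ht), (hR y).mpr (b ▸ hw)]
        simp
      · rw [(hR x).mpr (a ▸ hw), (hL y).mpr (b ▸ ht)]
        simp
    · intro h
      rcases hx : x.isLeft with _ | _
      · rcases hy : y.isLeft with _ | _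
        · rw [hx, hy] at h
          exact absurd rfl h
        · obtain ⟨e, he, h'⟩ := hmk _ ((hL y).mp hy) _ ((hR x).mp hx)
          exact ⟨e, he, h'.trans Sym2.eq_swap⟩
      · rcases hy : y.isLeft with _ | _
        · exact hmk _ ((hL x).mp hx) _ ((hR y).mp hy)
        · rw [hx, hy] at h
          exact absurd rfl h
  let Sg : Finset (Equiv.Perm Y) := (univ : Finset (Equiv.Perm {x // x ∈ D})).image
    (fun σ => Equiv.Perm.sumCongr 1 σ)
  have hSgc : Sg.card = D.card.factorial := by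
    rw [Finset.card_image_of_injective, Finset.card_univ, Fintype.card_perm, Fintype.card_coe]
    intro σ τ h
    apply Equiv.ext
    intro x
    have h2 : (Sum.inr (σ x) : Y) = Sum.inr (τ x) :=
      congrArg (fun f : Equiv.Perm Y => f (Sum.inr x)) h
    exact Sum.inr.inj h2
  have hsym := orb_mul_sym_le i hi U (by
    rintro u v ⟨e, he, h⟩
    obtain ⟨t, ht, w, hw, h'⟩ := (Finset.mem_filter.mp he).2
    rw [h, Sym2.eq_iff] at h'
    rcases h' with ⟨a, b⟩ | ⟨a, b⟩
    · exact ⟨Sum.inl ⟨t, ht⟩, a.symm⟩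
    · exact ⟨Sum.inr ⟨w, hw⟩, a.symm⟩) Sg (by
    intro σ hσ x y
    obtain ⟨τ, _, rfl⟩ := Finset.mem_image.mp hσ
    rw [hrel, hrel]
    have : ∀ x : Y, (Equiv.Perm.sumCongr 1 τ x).isLeft = x.isLeft := by
      rintro (a | a) <;> simp
    rw [this, this])
  rw [hSgc] at hsym
  have hYc : Fintype.card Y = T.card + D.card := by
    simp [Y]
  rw [hYc] at hsym
  have h1 := horb U hUE
  have h2 : ((orb (Equiv.Perm (Fin n)) U).card : ℝ) * (D.card.factorial : ℝ) ≤
      (n : ℝ) ^ (T.card + D.card) := by exact_mod_cast hsym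
  have hpu : p ^ U.card ≤ p ^ (T.card * D.card) := pow_le_pow_of_le_one hp.le hp1 hUcard
  calc (D.card.factorial : ℝ) = 1 * (D.card.factorial : ℝ) := (one_mul _).symm
    _ ≤ (((orb (Equiv.Perm (Fin n)) U).card : ℝ) * p ^ U.card) * (D.card.factorial : ℝ) :=
        mul_le_mul_of_nonneg_right h1 (by positivity)
    _ = (((orb (Equiv.Perm (Fin n)) U).card : ℝ) * (D.card.factorial : ℝ)) * p ^ U.card := by ring
    _ ≤ (n : ℝ) ^ (T.card + D.card) * p ^ U.card :=
        mul_le_mul_of_nonneg_right h2 (by positivity)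
    _ ≤ _ := mul_le_mul_of_nonneg_left hpu (by positivity)

end balanced

end Pool.Agent.W812.EG
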