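import Pool.Agent.W812.EG12

/-! Pairwise disjoint placements, and the bound for the number of placements in a host of bounded
maximum degree. -/

namespace Pool.Agent.W812.EG

open Finset

variable {n : ℕ}

section balanced

variable (E : Finset (PP n)) (p : ℝ) (hp : 0 < p) (hp1 : p ≤ 1)
  (horb : ∀ U ⊆ E, 1 ≤ ((orb (Equiv.Perm (Fin n)) U).card : ℝ) * p ^ U.card)

include hp hp1 horb in
/-- few pairwise disjoint placements -/
lemma disj_fact (S : Finset (PP n)) (X : Finset (Fin n)) (D : Finset (Fin n → Fin n))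
    (hD : D ⊆ Emb E S X)
    (hdis : ∀ φ ∈ D, ∀ ψ ∈ D, φ ≠ ψ → Disjoint (X.image φ) (X.image ψ)) :
    (D.card.factorial : ℝ) ≤ (n : ℝ) ^ (D.card * X.card) * p ^ (D.card * (ins S X).card) := by
  classical
  let U : Finset (PP n) := E.filter (fun e => ∃ φ ∈ D, ∃ a ∈ X, ∃ b ∈ X, Rel S a b ∧
    s(e.1.1, e.1.2) = s(φ a, φ b))
  have hUE : U ⊆ E := Finset.filter_subset _ _
  have hmk : ∀ φ ∈ D, ∀ a ∈ X, ∀ b ∈ X, Rel S a b → ∃ e ∈ U, s(e.1.1, e.1.2) = s(φ a, φ b) := by
    intro φ hφ a ha b hb hab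
    obtain ⟨e, he, h⟩ := ((mem_Emb _ _ _ _).mp (hD hφ)).2.2 a ha b hb hab
    exact ⟨e, Finset.mem_filter.mpr ⟨he, φ, hφ, a, ha, b, hb, hab, h⟩, h⟩
  have hinj : ∀ φ ∈ D, ∀ ψ ∈ D, ∀ a ∈ X, ∀ b ∈ X, φ a = ψ b → φ = ψ ∧ a = b := by
    intro φ hφ ψ hψ a ha b hb h
    have h1 : φ = ψ := by
      by_contra hne
      have := Finset.disjoint_left.mp (hdis φ hφ ψ hψ hne) (Finset.mem_image_of_mem φ ha)
      rw [h] at this
      exact this (Finset.mem_image_of_mem ψ hb)
    subst h1
    exact ⟨rfl, ((mem_Emb _ _ _ _).mp (hD hφ)).1 ha hb h⟩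
  have hUcard : D.card * (ins S X).card ≤ U.card := by
    rw [← Finset.card_product]
    have hch : ∀ x : (Fin n → Fin n) × PP n, x ∈ D ×ˢ ins S X → ∃ e : PP n, e ∈ U ∧
        s(e.1.1, e.1.2) = s(x.1 x.2.1.1, x.1 x.2.1.2) := by
      intro x hx
      rw [Finset.mem_product] at hx
      have h2 := hx.2
      unfold ins at h2
      rw [Finset.mem_filter] at h2
      exact hmk x.1 hx.1 _ h2.2.1 _ h2.2.2 ⟨x.2, h2.1, rfl⟩
    rcases Finset.eq_empty_or_nonempty (D ×ˢ ins S X) with h | ⟨x, hx⟩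
    · rw [h]
      simp
    · have hne : Nonempty (PP n) := ⟨(hch x hx).choose⟩
      choose! f hf using hch
      apply Finset.card_le_card_of_injOn f
      · intro x hx
        exact (hf x hx).1
      · intro x hx x' hx' h
        have h1 := (hf x hx).2
        have h2 := (hf x' hx').2
        rw [h] at h1
        rw [h1, Sym2.eq_iff] at h2
        rw [Finset.mem_coe, Finset.mem_product] at hx hx'
        obtain ⟨hx1, hx2⟩ := hx
        obtain ⟨hx1', hx2'⟩ := hx'
        unfold ins at hx2 hx2'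
        rw [Finset.mem_filter] at hx2 hx2'
        rcases h2 with ⟨a, b⟩ | ⟨a, b⟩
        · obtain ⟨c1, c2⟩ := hinj _ hx1 _ hx1' _ hx2.2.1 _ hx2'.2.1 a
          obtain ⟨_, c3⟩ := hinj _ hx1 _ hx1' _ hx2.2.2 _ hx2'.2.2 b
          exact Prod.ext c1 (Subtype.ext (Prod.ext c2 c3))
        · obtain ⟨c1, c2⟩ := hinj _ hx1 _ hx1' _ hx2.2.1 _ hx2'.2.2 a
          obtain ⟨_, c3⟩ := hinj _ hx1 _ hx1' _ hx2.2.2 _ hx2'.2.1 b
          exact Prod.ext c1 (pp_ext (by rw [c2, c3]; exact Sym2.eq_swap))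
  let Y := {φ // φ ∈ D} × {a // a ∈ X}
  let i : Y → Fin n := fun y => y.1.1 y.2.1
  have hi : Function.Injective i := by
    intro x y h
    obtain ⟨c1, c2⟩ := hinj _ x.1.2 _ y.1.2 _ x.2.2 _ y.2.2 h
    exact Prod.ext (Subtype.ext c1) (Subtype.ext c2)
  have hrel : ∀ x y : Y, Rel U (i x) (i y) ↔ x.1 = y.1 ∧ Rel S (x.2 : Fin n) (y.2 : Fin n) := by
    intro x y
    constructor
    · rintro ⟨e, he, h⟩
      obtain ⟨φ, hφ, a, ha, b, hb, hab, h'⟩ := (Finset.mem_filter.mp he).2
      rw [h, Sym2.eq_iff] at h'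
      rcases h' with ⟨h1, h2⟩ | ⟨h1, h2⟩
      · obtain ⟨c1, c2⟩ := hinj _ x.1.2 _ hφ _ x.2.2 _ ha h1
        obtain ⟨c3, c4⟩ := hinj _ y.1.2 _ hφ _ y.2.2 _ hb h2
        refine ⟨Subtype.ext (c1.trans c3.symm), ?_⟩
        rw [c2, c4]
        exact hab
      · obtain ⟨c1, c2⟩ := hinj _ x.1.2 _ hφ _ x.2.2 _ hb h1
        obtain ⟨c3, c4⟩ := hinj _ y.1.2 _ hφ _ y.2.2 _ ha h2
        refine ⟨Subtype.ext (c1.trans c3.symm), ?_⟩
        rw [c2, c4]
        exact hab.symm
    · rintro ⟨h1, h2⟩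
      obtain ⟨e, he, h⟩ := hmk x.1.1 x.1.2 _ x.2.2 _ y.2.2 h2
      refine ⟨e, he, ?_⟩
      rw [h]
      simp only [i, h1]
  let Sg : Finset (Equiv.Perm Y) := (univ : Finset (Equiv.Perm {φ // φ ∈ D})).image
    (fun σ => Equiv.prodCongr σ (Equiv.refl _))
  rcases X.eq_empty_or_nonempty with hXe | ⟨x₀, hx₀⟩
  · -- at most one placement
    have hDc : D.card ≤ 1 := by
      rw [Finset.card_le_one]
      intro φ hφ ψ hψ
      have h1 := ((mem_Emb _ _ _ _).mp (hD hφ)).2.1
      have h2 := ((mem_Emb _ _ _ _).mp (hD hψ)).2.1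
      funext z
      rw [h1 z (by simp [hXe]), h2 z (by simp [hXe])]
    have hins : ins S X = ∅ := by
      unfold ins
      rw [Finset.filter_eq_empty_iff]
      intro e _
      simp [hXe]
    rw [hins, hXe]
    simp only [Finset.card_empty, mul_zero, pow_zero, mul_one]
    have : D.card.factorial ≤ 1 := by
      interval_cases h : D.card <;> simp
    exact_mod_cast this
  have hSgc : Sg.card = D.card.factorial := by
    rw [Finset.card_image_of_injective, Finset.card_univ, Fintype.card_perm, Fintype.card_coe]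
    intro σ τ h
    apply Equiv.ext
    intro x
    have h2 : ((σ x, (⟨x₀, hx₀⟩ : {a // a ∈ X})) : Y) = (τ x, ⟨x₀, hx₀⟩) :=
      congrArg (fun f : Equiv.Perm Y => f (x, ⟨x₀, hx₀⟩)) h
    exact (Prod.ext_iff.mp h2).1
  have hsym := orb_mul_sym_le i hi U (by
    rintro u v ⟨e, he, h⟩
    obtain ⟨φ, hφ, a, ha, b, hb, hab, h'⟩ := (Finset.mem_filter.mp he).2
    rw [h, Sym2.eq_iff] at h'
    rcases h' with ⟨h1, h2⟩ | ⟨h1, h2⟩
    · exact ⟨(⟨φ, hφ⟩, ⟨a, ha⟩), h1.symm⟩
    · exact ⟨(⟨φ, hφ⟩, ⟨b, hb⟩), h1.symm⟩) Sg (by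
    intro σ hσ x y
    obtain ⟨τ, _, rfl⟩ := Finset.mem_image.mp hσ
    rw [hrel, hrel]
    constructor
    · rintro ⟨h1, h2⟩
      exact ⟨congrArg τ h1, h2⟩
    · rintro ⟨h1, h2⟩
      exact ⟨τ.injective h1, h2⟩)
  rw [hSgc] at hsym
  have hYc : Fintype.card Y = D.card * X.card := by
    simp [Y]
  rw [hYc] at hsym
  have h1 := horb U hUE
  have h2 : ((orb (Equiv.Perm (Fin n)) U).card : ℝ) * (D.card.factorial : ℝ) ≤
      (n : ℝ) ^ (D.card * X.card) := by exact_mod_cast hsym
  have hpu : p ^ U.card ≤ p ^ (D.card * (ins S X).card) := pow_le_pow_of_le_one hp.le hp1 hUcard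
  calc (D.card.factorial : ℝ) = 1 * (D.card.factorial : ℝ) := (one_mul _).symm
    _ ≤ (((orb (Equiv.Perm (Fin n)) U).card : ℝ) * p ^ U.card) * (D.card.factorial : ℝ) :=
        mul_le_mul_of_nonneg_right h1 (by positivity)
    _ = (((orb (Equiv.Perm (Fin n)) U).card : ℝ) * (D.card.factorial : ℝ)) * p ^ U.card := by ring
    _ ≤ (n : ℝ) ^ (D.card * X.card) * p ^ U.card :=
        mul_le_mul_of_nonneg_right h2 (by positivity)
    _ ≤ _ := mul_le_mul_of_nonneg_left hpu (by positivity)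

end balanced

/-- connected sets of vertices -/
def Conn (S : Finset (PP n)) (X : Finset (Fin n)) : Prop :=
  ∀ Y ⊆ X, Y.Nonempty → Y ≠ X → ∃ b ∈ Y, ∃ w ∈ X \ Y, Rel S b w

section degree

variable (E : Finset (PP n)) (Δ : ℕ) (hΔ : ∀ u, (nbS E univ u).card ≤ Δ)

include hΔ in
lemma rooted_aux (S : Finset (PP n)) (X : Finset (Fin n)) (hX : Conn S X) (y z : Fin n) :
    ∀ m : ℕ, ∀ Y : Finset (Fin n), y ∈ Y → Y ⊆ X → (X \ Y).card = m →
    ((Emb E S X).filter (fun φ => φ y = z)).card ≤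
      Δ ^ m * ((Emb E S Y).filter (fun φ => φ y = z)).card := by
  classical
  intro m
  induction m with
  | zero =>
    intro Y _ hYX hc
    have : Y = X := by
      apply Finset.Subset.antisymm hYX
      rw [Finset.card_eq_zero, Finset.sdiff_eq_empty_iff_subset] at hc
      exact hc
    rw [this]
    simp
  | succ m ih =>
    intro Y hyY hYX hc
    have hne : Y ≠ X := by
      rintro rfl
      simp at hc
    obtain ⟨b, hb, w, hw, hbw⟩ := hX Y hYX ⟨y, hyY⟩ hne
    rw [Finset.mem_sdiff] at hw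
    have hins : insert w Y ⊆ X := Finset.insert_subset hw.1 hYX
    have hc2 : (X \ insert w Y).card = m := by
      have h1 : X \ Y = insert w (X \ insert w Y) := by
        ext v
        simp only [Finset.mem_sdiff, Finset.mem_insert]
        constructor
        · rintro ⟨h1, h2⟩
          by_cases h : v = w
          · exact Or.inl h
          · exact Or.inr ⟨h1, fun h' => h'.elim h h2⟩
        · rintro (h | ⟨h1, h2⟩)
          · rw [h]
            exact hw
          · exact ⟨h1, fun h' => h2 (Or.inr h')⟩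
      rw [h1, Finset.card_insert_of_notMem (by simp)] at hc
      omega
    have h1 := ih (insert w Y) (Finset.mem_insert_of_mem hyY) hins hc2
    have h2 := card_Emb_step E S (X := insert w Y) (Y := Y) w rfl
      (fun φ => φ y = z) (fun φ => φ y = z) (by
        intro φ _ h
        rw [res_of_mem hyY]
        exact h) Δ (fun φ => nbS E univ (φ b)) (by
        intro φ hφ
        rw [mem_nbS]
        refine ⟨mem_univ _, ?_⟩
        rw [res_of_mem hb]
        exact ((mem_Emb _ _ _ _).mp hφ).2.2 b (Finset.mem_insert_of_mem hb) w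
          (Finset.mem_insert_self _ _) hbw) (by
        intro φ _
        exact hΔ _)
    calc _ ≤ Δ ^ m * ((Emb E S (insert w Y)).filter (fun φ => φ y = z)).card := h1
      _ ≤ Δ ^ m * (Δ * ((Emb E S Y).filter (fun φ => φ y = z)).card) :=
          Nat.mul_le_mul_left _ h2
      _ = _ := by ring

include hΔ in
lemma rooted (S : Finset (PP n)) (X : Finset (Fin n)) (hX : Conn S X) (y z : Fin n) (hy : y ∈ X) :
    ((Emb E S X).filter (fun φ => φ y = z)).card ≤ Δ ^ (X.card - 1) := by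
  classical
  have h1 := rooted_aux E Δ hΔ S X hX y z (X.card - 1) {y} (Finset.mem_singleton_self _)
    (Finset.singleton_subset_iff.mpr hy) (by
      rw [Finset.card_sdiff_of_subset (Finset.singleton_subset_iff.mpr hy)]
      simp)
  refine h1.trans ?_
  have h2 : ((Emb E S {y}).filter (fun φ => φ y = z)).card ≤ 1 := by
    rw [Finset.card_le_one]
    intro φ hφ ψ hψ
    rw [Finset.mem_filter, mem_Emb] at hφ hψ
    funext v
    by_cases h : v = y
    · rw [h, hφ.2, hψ.2]
    · rw [hφ.1.2.1 v (by simpa using h), hψ.1.2.1 v (by simpa using h)]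
  calc _ ≤ Δ ^ (X.card - 1) * 1 := Nat.mul_le_mul_left _ h2
    _ = _ := mul_one _

include hΔ in
/-- many pairwise disjoint placements -/
lemma exists_disj (S : Finset (PP n)) (X : Finset (Fin n)) (hX : Conn S X) (hne : X.Nonempty) :
    ∃ D ⊆ Emb E S X, (∀ φ ∈ D, ∀ ψ ∈ D, φ ≠ ψ → Disjoint (X.image φ) (X.image ψ)) ∧
      (Emb E S X).card ≤ D.card * (X.card * X.card * Δ ^ (X.card - 1)) := by
  classical
  obtain ⟨D, hD, hmax⟩ := Finset.exists_max_image
    ((Emb E S X).powerset.filter (fun D => ∀ φ ∈ D, ∀ ψ ∈ D, φ ≠ ψ →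
      Disjoint (X.image φ) (X.image ψ))) Finset.card ⟨∅, by simp⟩
  rw [Finset.mem_filter, Finset.mem_powerset] at hD
  refine ⟨D, hD.1, hD.2, ?_⟩
  have hmeet : ∀ φ ∈ Emb E S X, ∃ ψ ∈ D, ∃ x ∈ X, ∃ y ∈ X, φ y = ψ x := by
    intro φ hφ
    by_cases hφD : φ ∈ D
    · obtain ⟨x, hx⟩ := hne
      exact ⟨φ, hφD, x, hx, x, hx, rfl⟩
    · by_contra hcon
      push Not at hcon
      have hdisj : ∀ ψ ∈ D, Disjoint (X.image φ) (X.image ψ) := by
        intro ψ hψ
        rw [Finset.disjoint_left]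
        intro z hz hz'
        obtain ⟨y, hy, rfl⟩ := Finset.mem_image.mp hz
        obtain ⟨x, hx, hxy⟩ := Finset.mem_image.mp hz'
        exact hcon ψ hψ x hx y hy hxy.symm
      have h1 := hmax (insert φ D) (by
        rw [Finset.mem_filter, Finset.mem_powerset]
        refine ⟨Finset.insert_subset hφ hD.1, ?_⟩
        intro χ hχ ψ hψ hne'
        rw [Finset.mem_insert] at hχ hψ
        rcases hχ with rfl | hχ
        · rcases hψ with rfl | hψ
          · exact absurd rfl hne'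
          · exact hdisj ψ hψ
        · rcases hψ with rfl | hψ
          · exact (hdisj χ hχ).symm
          · exact hD.2 χ hχ ψ hψ hne')
      rw [Finset.card_insert_of_notMem hφD] at h1
      omega
  have hsub : Emb E S X ⊆ (D ×ˢ (X ×ˢ X)).biUnion
      (fun t => (Emb E S X).filter (fun φ => φ t.2.2 = t.1 t.2.1)) := by
    intro φ hφ
    obtain ⟨ψ, hψ, x, hx, y, hy, h⟩ := hmeet φ hφ
    rw [Finset.mem_biUnion]
    refine ⟨(ψ, x, y), ?_, Finset.mem_filter.mpr ⟨hφ, h⟩⟩
    rw [Finset.mem_product, Finset.mem_product]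
    exact ⟨hψ, hx, hy⟩
  calc (Emb E S X).card ≤ _ := Finset.card_le_card hsub
    _ ≤ ∑ t ∈ D ×ˢ (X ×ˢ X), ((Emb E S X).filter (fun φ => φ t.2.2 = t.1 t.2.1)).card :=
        Finset.card_biUnion_le
    _ ≤ ∑ t ∈ D ×ˢ (X ×ˢ X), Δ ^ (X.card - 1) := by
        apply Finset.sum_le_sum
        intro t ht
        rw [Finset.mem_product, Finset.mem_product] at ht
        exact rooted E Δ hΔ S X hX _ _ ht.2.2
    _ = _ := by
        rw [Finset.sum_const, smul_eq_mul, Finset.card_product, Finset.card_product]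
        ring

variable (p : ℝ) (hp : 0 < p) (hp1 : p ≤ 1)
  (horb : ∀ U ⊆ E, 1 ≤ ((orb (Equiv.Perm (Fin n)) U).card : ℝ) * p ^ U.card)

lemma le_of_fact {J : ℕ} (hJ : 0 < J) (x : ℝ) (hx : 0 ≤ x) (h : (J.factorial : ℝ) ≤ x ^ J) :
    (J : ℝ) ≤ Real.exp 1 * x := by
  have h1 := pow_le_exp_fact J
  have h2 : (J : ℝ) ^ J ≤ (Real.exp 1 * x) ^ J := by
    rw [mul_pow]
    exact h1.trans (mul_le_mul_of_nonneg_left h (by positivity))
  exact (pow_le_pow_iff_left₀ (by positivity) (by positivity) (by omega)).mp h2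

lemma exp_sq_le (x : ℕ) (hx : 1 ≤ x) : Real.exp 1 * ((x : ℝ) * x) ≤ 8 ^ x := by
  have he := Real.exp_one_lt_d9
  have h1 : ∀ x : ℕ, 1 ≤ x → (3 : ℝ) * ((x : ℝ) * x) ≤ 8 ^ x := by
    intro x hx
    induction x, hx using Nat.le_induction with
    | base => norm_num
    | succ x hx ih =>
      have hxr : (1 : ℝ) ≤ x := by exact_mod_cast hx
      rw [pow_succ]
      push_cast
      nlinarith
  have h2 := h1 x hx
  have h3 : (0 : ℝ) ≤ (x : ℝ) * x := by positivity
  nlinarith

include hΔ hp hp1 horb in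
/-- the bound for connected pieces -/
lemma conn_bound (hΔ1 : 1 ≤ Δ) (S : Finset (PP n)) (X : Finset (Fin n)) (hX : Conn S X)
    (hne : X.Nonempty) :
    ((Emb E S X).card : ℝ) ≤ (8 * Δ) ^ X.card * (n : ℝ) ^ X.card * p ^ (ins S X).card := by
  obtain ⟨D, hD, hdis, hcard⟩ := exists_disj E Δ hΔ S X hX hne
  have hΔr : (1 : ℝ) ≤ Δ := by exact_mod_cast hΔ1
  rcases Nat.eq_zero_or_pos D.card with h0 | hpos
  · rw [h0, zero_mul] at hcard
    have : (Emb E S X).card = 0 := by omega
    rw [this, Nat.cast_zero]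
    positivity
  · have h1 := disj_fact E p hp hp1 horb S X D hD hdis
    have h2 : (D.card.factorial : ℝ) ≤ ((n : ℝ) ^ X.card * p ^ (ins S X).card) ^ D.card := by
      refine h1.trans (le_of_eq ?_)
      rw [mul_pow, ← pow_mul, ← pow_mul, mul_comm X.card, mul_comm (ins S X).card]
    have h3 := le_of_fact hpos _ (by positivity) h2
    have hx1 : 1 ≤ X.card := Finset.card_pos.mpr hne
    have h4 := exp_sq_le X.card hx1
    have h5 : (Δ : ℝ) ^ (X.card - 1) ≤ (Δ : ℝ) ^ X.card := pow_le_pow_right₀ hΔr (by omega)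
    calc ((Emb E S X).card : ℝ) ≤ (D.card : ℝ) * ((X.card : ℝ) * X.card * (Δ : ℝ) ^ (X.card - 1)) := by
          exact_mod_cast hcard
      _ ≤ (Real.exp 1 * ((n : ℝ) ^ X.card * p ^ (ins S X).card)) *
          ((X.card : ℝ) * X.card * (Δ : ℝ) ^ X.card) := by
          apply mul_le_mul h3 _ (by positivity) (by positivity)
          apply mul_le_mul_of_nonneg_left h5 (by positivity)
      _ = (Real.exp 1 * ((X.card : ℝ) * X.card)) * ((Δ : ℝ) ^ X.card *
            ((n : ℝ) ^ X.card * p ^ (ins S X).card)) := by ring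
      _ ≤ 8 ^ X.card * ((Δ : ℝ) ^ X.card * ((n : ℝ) ^ X.card * p ^ (ins S X).card)) :=
          mul_le_mul_of_nonneg_right h4 (by positivity)
      _ = _ := by
          rw [mul_pow]
          ring

include hΔ hp hp1 horb in
/-- the bound for all sets of vertices -/
lemma rigid_bound (hΔ1 : 1 ≤ Δ) (S : Finset (PP n)) : ∀ m : ℕ, ∀ X : Finset (Fin n), X.card ≤ m →
    ((Emb E S X).card : ℝ) ≤ (8 * Δ) ^ X.card * (n : ℝ) ^ X.card * p ^ (ins S X).card := by
  classical
  intro m
  induction m with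
  | zero =>
    intro X hX
    have hXe : X = ∅ := Finset.card_eq_zero.mp (by omega)
    have h1 : (Emb E S X).card ≤ 1 := by
      rw [Finset.card_le_one]
      intro φ hφ ψ hψ
      rw [mem_Emb] at hφ hψ
      funext z
      rw [hφ.2.1 z (by simp [hXe]), hψ.2.1 z (by simp [hXe])]
    have hins : ins S X = ∅ := by
      unfold ins
      rw [Finset.filter_eq_empty_iff]
      intro e _
      simp [hXe]
    rw [hins, hXe]
    rw [hXe] at h1
    simp only [Finset.card_empty, pow_zero, mul_one]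
    exact_mod_cast h1
  | succ m ih =>
    intro X hX
    rcases X.eq_empty_or_nonempty with hXe | hne
    · exact ih X (by rw [hXe]; simp)
    by_cases hc : Conn S X
    · exact conn_bound E Δ hΔ p hp hp1 horb hΔ1 S X hc hne
    · unfold Conn at hc
      push Not at hc
      obtain ⟨Y, hYX, hYne, hYneq, hno⟩ := hc
      have hY1 : 1 ≤ Y.card := Finset.card_pos.mpr hYne
      have hY2 : Y.card < X.card := Finset.card_lt_card (Finset.ssubset_iff_subset_ne.mpr
        ⟨hYX, hYneq⟩)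
      have hY3 := Finset.card_sdiff_add_card_eq_card hYX
      have h1 := ih Y (by omega)
      have h2 := ih (X \ Y) (by omega)
      have h3 := card_Emb_split E S hYX
      have h4 := card_ins_split S (X := X) (Y := Y) hno
      have h5 : p ^ (ins S Y).card * p ^ (ins S (X \ Y)).card ≤ p ^ (ins S X).card := by
        rw [← pow_add]
        exact pow_le_pow_of_le_one hp.le hp1 h4
      calc ((Emb E S X).card : ℝ) ≤ ((Emb E S Y).card : ℝ) * ((Emb E S (X \ Y)).card : ℝ) := by
            exact_mod_cast h3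
        _ ≤ ((8 * Δ) ^ Y.card * (n : ℝ) ^ Y.card * p ^ (ins S Y).card) *
            ((8 * Δ) ^ (X \ Y).card * (n : ℝ) ^ (X \ Y).card * p ^ (ins S (X \ Y)).card) :=
            mul_le_mul h1 h2 (by positivity) (by positivity)
        _ = (8 * Δ) ^ X.card * (n : ℝ) ^ X.card *
            (p ^ (ins S Y).card * p ^ (ins S (X \ Y)).card) := by
            rw [← hY3, pow_add, pow_add]
            ring
        _ ≤ _ := mul_le_mul_of_nonneg_left h5 (by positivity)

end degree

end Pool.Agent.W812.EG
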