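import Pool.Agent.W812.EG13

/-! Peeling vertices of small degree, and the resulting bounds. -/

namespace Pool.Agent.W812.EG

open Finset

variable {n : ℕ}

/-- numerical part of the bound for common neighbourhoods -/
lemma codeg_num (n k D : ℕ) (p : ℝ) (hp : 0 < p) (hp2 : p ≤ 1 / 2) (hk : 1 ≤ k)
    (hgood : 1 ≤ (n : ℝ) * p ^ (2 * k))
    (h : (D.factorial : ℝ) ≤ (n : ℝ) ^ (k + D) * p ^ (k * D)) :
    (D : ℝ) ≤ 16 * ((n : ℝ) * p ^ k) := by
  by_contra hcon
  rw [not_le] at hcon
  have hn0 : (0 : ℝ) < n := by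
    rcases (Nat.cast_nonneg n : (0 : ℝ) ≤ n).lt_or_eq with h0 | h0
    · exact h0
    · rw [← h0, zero_mul] at hgood
      linarith
  have hx0 : 0 < (n : ℝ) * p ^ k := by positivity
  have hD0 : 0 < D := by
    rcases Nat.eq_zero_or_pos D with h0 | h0
    · rw [h0, Nat.cast_zero] at hcon
      linarith
    · exact h0
  have hDr : (0 : ℝ) < D := by exact_mod_cast hD0
  -- sqrt n ≤ n p^k
  have hsq : (n : ℝ) ≤ ((n : ℝ) * p ^ k) ^ 2 := by
    have : ((n : ℝ) * p ^ k) ^ 2 = n * (n * p ^ (2 * k)) := by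
      rw [mul_pow, ← pow_mul, mul_comm k 2]
      ring
    rw [this]
    nlinarith
  -- D log (16/e) < k log n
  have h1 := pow_le_exp_fact D
  have h2 : (D : ℝ) ^ D ≤ Real.exp 1 ^ D * ((n : ℝ) ^ k * ((n : ℝ) * p ^ k) ^ D) := by
    refine h1.trans (mul_le_mul_of_nonneg_left (h.trans (le_of_eq ?_)) (by positivity))
    rw [pow_add, mul_pow, ← pow_mul]
    ring
  have h3 : (16 * ((n : ℝ) * p ^ k)) ^ D ≤ (D : ℝ) ^ D := pow_le_pow_left₀ (by positivity) hcon.le _
  have h4 : (16 : ℝ) ^ D ≤ Real.exp 1 ^ D * (n : ℝ) ^ k := by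
    have h5 := h3.trans h2
    rw [mul_pow] at h5
    refine le_of_mul_le_mul_right ?_ (show 0 < ((n : ℝ) * p ^ k) ^ D by positivity)
    calc _ ≤ _ := h5
      _ = _ := by ring
  have h5 : (D : ℝ) * Real.log 16 ≤ D + k * Real.log n := by
    have h6 := Real.log_le_log (by positivity) h4
    rw [Real.log_pow, Real.log_mul (by positivity) (by positivity), Real.log_pow, Real.log_pow,
      Real.log_exp, mul_one] at h6
    exact h6
  have hlog16 : Real.log 16 = 4 * Real.log 2 := by
    rw [show (16 : ℝ) = 2 ^ 4 by norm_num, Real.log_pow]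
    norm_num
  have hl2 := Real.log_two_gt_d9
  have h6 : (D : ℝ) * 1.77 ≤ k * Real.log n := by
    have : (1.77 : ℝ) ≤ Real.log 16 - 1 := by rw [hlog16]; linarith
    nlinarith
  -- 2 k log 2 ≤ log n
  have h7 : 2 * (k : ℝ) * Real.log 2 ≤ Real.log n := by
    have h8 : (2 : ℝ) ^ (2 * k) ≤ n := by
      have h9 : p ^ (2 * k) ≤ (1 / 2) ^ (2 * k) := pow_le_pow_left₀ hp.le hp2 _
      have h10 : (1 : ℝ) ≤ n * (1 / 2) ^ (2 * k) := hgood.trans
        (mul_le_mul_of_nonneg_left h9 hn0.le)
      calc (2 : ℝ) ^ (2 * k) = 2 ^ (2 * k) * 1 := (mul_one _).symm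
        _ ≤ 2 ^ (2 * k) * (n * (1 / 2) ^ (2 * k)) := mul_le_mul_of_nonneg_left h10 (by positivity)
        _ = n * ((2 : ℝ) ^ (2 * k) * (1 / 2) ^ (2 * k)) := by ring
        _ = n := by
            rw [← mul_pow]
            norm_num
    have h11 := Real.log_le_log (by positivity) h8
    rw [Real.log_pow] at h11
    push_cast at h11
    exact h11
  -- log n ≤ 4 n^(1/4)
  set r : ℝ := Real.sqrt (Real.sqrt n) with hr
  have hr4 : r ^ 4 = n := by
    have h12 : r ^ 2 = Real.sqrt n := Real.sq_sqrt (Real.sqrt_nonneg _)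
    calc r ^ 4 = (r ^ 2) ^ 2 := by ring
      _ = (n : ℝ) := by rw [h12, Real.sq_sqrt hn0.le]
  have hr0 : 0 < r := Real.sqrt_pos.mpr (Real.sqrt_pos.mpr hn0)
  have hlogr : Real.log n ≤ 4 * r := by
    rw [← hr4, Real.log_pow]
    push_cast
    have := Real.log_le_sub_one_of_pos hr0
    linarith
  have hlogn0 : 0 ≤ Real.log n := by
    have : (0 : ℝ) ≤ 2 * (k : ℝ) * Real.log 2 := by
      have := Real.log_nonneg (show (1 : ℝ) ≤ 2 by norm_num)
      positivity
    linarith
  have h13 : (k : ℝ) ≤ 0.73 * Real.log n := by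
    have : (0.6931 : ℝ) ≤ Real.log 2 := by linarith
    have hk0 : (0 : ℝ) ≤ k := by positivity
    nlinarith
  have h14 : (k : ℝ) * Real.log n ≤ 0.73 * (16 * r ^ 2) := by
    have : Real.log n * Real.log n ≤ 4 * r * (4 * r) := mul_le_mul hlogr hlogr hlogn0 (by positivity)
    nlinarith
  have h15 : r ^ 2 ≤ (n : ℝ) * p ^ k := by
    have h16 : (r ^ 2) ^ 2 ≤ ((n : ℝ) * p ^ k) ^ 2 := by
      have h17 : (r ^ 2) ^ 2 = (n : ℝ) := by
        rw [← hr4]
        ring
      rw [h17]
      exact hsq
    exact (pow_le_pow_iff_left₀ (by positivity) hx0.le (by norm_num)).mp h16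
  nlinarith

section main

variable (E : Finset (PP n)) (p : ℝ) (hp : 0 < p) (hp2 : p ≤ 1 / 2)
  (horb : ∀ U ⊆ E, 1 ≤ ((orb (Equiv.Perm (Fin n)) U).card : ℝ) * p ^ U.card)

include hp hp2 horb in
lemma codeg (T : Finset (Fin n)) (hT : T.Nonempty) (hgood : 1 ≤ (n : ℝ) * p ^ (2 * T.card)) :
    ((cn E T).card : ℝ) ≤ 16 * ((n : ℝ) * p ^ T.card) :=
  codeg_num n T.card (cn E T).card p hp hp2 (Finset.card_pos.mpr hT) hgood
    (cn_fact E p hp (by linarith) horb T hT)

include hp hp2 horb in
/-- removing one vertex of small degree -/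
lemma peel (S : Finset (PP n)) (X : Finset (Fin n)) (y : Fin n) (hy : y ∈ X)
    (hgood : 1 ≤ (n : ℝ) * p ^ (2 * (nbS S (X.erase y) y).card)) :
    ((Emb E S X).card : ℝ) ≤
      (n : ℝ) * (16 * p) ^ (nbS S (X.erase y) y).card * ((Emb E S (X.erase y)).card : ℝ) := by
  classical
  set N := nbS S (X.erase y) y with hN
  have hn0 : (0 : ℝ) ≤ n := by positivity
  have hins : X = insert y (X.erase y) := (Finset.insert_erase hy).symm
  set c : ℕ := ⌊(n : ℝ) * (16 * p) ^ N.card⌋₊ with hc
  have hopt : ∀ φ ∈ Emb E S (X.erase y), (cn E (N.image φ)).card ≤ c := by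
    intro φ hφ
    rw [hc]
    apply Nat.le_floor
    have hcard : (N.image φ).card = N.card := by
      apply Finset.card_image_of_injOn
      intro a ha b hb hab
      have hsub : ∀ a ∈ N, a ∈ X.erase y := fun a ha => ((mem_nbS _ _ _ _).mp ha).1
      exact ((mem_Emb _ _ _ _).mp hφ).1 (hsub a ha) (hsub b hb) hab
    rcases N.eq_empty_or_nonempty with h0 | h0
    · rw [h0, Finset.card_empty, pow_zero, mul_one]
      have h5 : (cn E (N.image φ)).card ≤ n := by
        have h6 := Finset.card_le_card (Finset.subset_univ (cn E (N.image φ)))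
        rwa [Finset.card_univ, Fintype.card_fin] at h6
      rw [h0] at h5
      exact_mod_cast h5
    · have h1 := codeg E p hp hp2 horb (N.image φ) (h0.image φ) (by rw [hcard]; exact hgood)
      rw [hcard] at h1
      refine h1.trans ?_
      have h2 : (16 : ℝ) ≤ 16 ^ N.card := by
        calc (16 : ℝ) = 16 ^ 1 := by norm_num
          _ ≤ 16 ^ N.card := pow_le_pow_right₀ (by norm_num) (Finset.card_pos.mpr h0)
      rw [mul_pow]
      calc 16 * ((n : ℝ) * p ^ N.card) ≤ 16 ^ N.card * ((n : ℝ) * p ^ N.card) :=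
            mul_le_mul_of_nonneg_right h2 (by positivity)
        _ = _ := by ring
  have h1 := card_Emb_step E S (X := X) (Y := X.erase y) y hins (fun _ => True) (fun _ => True)
    (fun _ _ _ => trivial) c (fun φ => cn E (N.image φ)) (by
      intro φ hφ
      rw [mem_cn]
      intro t ht
      obtain ⟨a, ha, rfl⟩ := Finset.mem_image.mp ht
      obtain ⟨haX, hab⟩ := (mem_nbS _ _ _ _).mp ha
      rw [res_of_mem haX]
      exact ((mem_Emb _ _ _ _).mp hφ).2.2 a (Finset.mem_of_mem_erase haX) y hy hab.symm) hopt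
  rw [Finset.filter_true_of_mem (fun _ _ => trivial),
    Finset.filter_true_of_mem (fun _ _ => trivial)] at h1
  have h2 : (c : ℝ) ≤ (n : ℝ) * (16 * p) ^ N.card := Nat.floor_le (by positivity)
  have h7 : ((Emb E S X).card : ℝ) ≤ (c : ℝ) * ((Emb E S (X.erase y)).card : ℝ) := by
    exact_mod_cast h1
  exact h7.trans (mul_le_mul_of_nonneg_right h2 (Nat.cast_nonneg _))

/-- the degree of `y` inside `X` -/
lemma sum_deg_le (S : Finset (PP n)) (X : Finset (Fin n)) :
    ∑ y ∈ X, (nbS S (X.erase y) y).card ≤ 2 * (ins S X).card := by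
  classical
  have h1 : ∀ y ∈ X, (nbS S (X.erase y) y).card ≤
      ((ins S X).filter (fun e => e.1.1 = y)).card + ((ins S X).filter (fun e => e.1.2 = y)).card := by
    intro y hy
    have h2 : (nbS S (X.erase y) y).card ≤
        (((ins S X).filter (fun e => e.1.1 = y)).image (fun e => e.1.2) ∪
          ((ins S X).filter (fun e => e.1.2 = y)).image (fun e => e.1.1)).card := by
      apply Finset.card_le_card
      intro w hw
      rw [mem_nbS] at hw
      obtain ⟨hwX, e, he, h⟩ := hw
      have hwX' := Finset.mem_of_mem_erase hwX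
      rw [Finset.mem_union, Finset.mem_image, Finset.mem_image]
      rw [Sym2.eq_iff] at h
      rcases h with ⟨a, b⟩ | ⟨a, b⟩
      · left
        refine ⟨e, ?_, b⟩
        rw [Finset.mem_filter]
        unfold ins
        rw [Finset.mem_filter]
        exact ⟨⟨he, by rw [a]; exact hy, by rw [b]; exact hwX'⟩, a⟩
      · right
        refine ⟨e, ?_, a⟩
        rw [Finset.mem_filter]
        unfold ins
        rw [Finset.mem_filter]
        exact ⟨⟨he, by rw [a]; exact hwX', by rw [b]; exact hy⟩, b⟩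
    refine h2.trans ((Finset.card_union_le _ _).trans ?_)
    exact Nat.add_le_add Finset.card_image_le Finset.card_image_le
  refine (Finset.sum_le_sum h1).trans ?_
  rw [Finset.sum_add_distrib]
  have h3 : ∀ f : PP n → Fin n, ∑ y ∈ X, ((ins S X).filter (fun e => f e = y)).card ≤
      (ins S X).card := by
    intro f
    rw [← Finset.card_biUnion]
    · apply Finset.card_le_card
      intro e he
      rw [Finset.mem_biUnion] at he
      obtain ⟨_, _, he⟩ := he
      exact (Finset.mem_filter.mp he).1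
    · intro x _ y _ hxy
      rw [Function.onFun, Finset.disjoint_left]
      intro e he he'
      exact hxy ((Finset.mem_filter.mp he).2.symm.trans (Finset.mem_filter.mp he').2)
  have h4 := h3 (fun e => e.1.1)
  have h5 := h3 (fun e => e.1.2)
  omega

include hp hp2 horb in
/-- Peeling: it is enough to bound the number of placements for sets in which all degrees are
at least `k₁`. -/
lemma peel_all (B : ℝ) (hB : 16 ≤ B) (hBp : B * p ≤ 1) (k₁ : ℕ)
    (hk : ∀ k < k₁, 1 ≤ (n : ℝ) * p ^ (2 * k)) (S : Finset (PP n))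
    (hcore : ∀ X : Finset (Fin n), (∀ y ∈ X, k₁ ≤ (nbS S (X.erase y) y).card) →
      ((Emb E S X).card : ℝ) ≤ (n : ℝ) ^ X.card * (B * p) ^ (ins S X).card) :
    ∀ m : ℕ, ∀ X : Finset (Fin n), X.card = m →
      ((Emb E S X).card : ℝ) ≤ (n : ℝ) ^ X.card * (B * p) ^ (ins S X).card := by
  classical
  intro m
  induction m with
  | zero =>
    intro X hX
    apply hcore
    intro y hy
    rw [Finset.card_eq_zero.mp hX] at hy
    exact absurd hy (Finset.notMem_empty _)
  | succ m ih =>
    intro X hX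
    by_cases h : ∀ y ∈ X, k₁ ≤ (nbS S (X.erase y) y).card
    · exact hcore X h
    · push Not at h
      obtain ⟨y, hy, hlt⟩ := h
      have hXc : (X.erase y).card = m := by
        rw [Finset.card_erase_of_mem hy]
        omega
      have h1 := ih (X.erase y) hXc
      have h2 := peel E p hp hp2 horb S X y hy (hk _ hlt)
      have h3 := card_ins_erase S X y hy
      have hBp0 : 0 < B * p := by
        have : 0 < B := by linarith
        positivity
      have h4 : (B * p) ^ ((ins S (X.erase y)).card + (nbS S (X.erase y) y).card) ≤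
          (B * p) ^ (ins S X).card := pow_le_pow_of_le_one hBp0.le hBp h3
      calc ((Emb E S X).card : ℝ) ≤ (n : ℝ) * (16 * p) ^ (nbS S (X.erase y) y).card *
            ((Emb E S (X.erase y)).card : ℝ) := h2
        _ ≤ (n : ℝ) * (B * p) ^ (nbS S (X.erase y) y).card *
            ((n : ℝ) ^ (X.erase y).card * (B * p) ^ (ins S (X.erase y)).card) := by
            apply mul_le_mul _ h1 (by positivity) (by positivity)
            apply mul_le_mul_of_nonneg_left _ (by positivity)
            apply pow_le_pow_left₀ (by positivity)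
            exact mul_le_mul_of_nonneg_right hB hp.le
        _ = (n : ℝ) ^ (m + 1) *
            (B * p) ^ ((ins S (X.erase y)).card + (nbS S (X.erase y) y).card) := by
            rw [hXc, pow_add, pow_succ]
            ring
        _ ≤ (n : ℝ) ^ X.card * (B * p) ^ (ins S X).card := by
            rw [hX]
            exact mul_le_mul_of_nonneg_left h4 (by positivity)

end main

section translate

/-- permutations with given values on `X` -/
lemma card_perm_fixed (X : Finset (Fin n)) (φ : Fin n → Fin n) :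
    ((univ : Finset (Equiv.Perm (Fin n))).filter (fun g => ∀ x ∈ X, g x = φ x)).card ≤
      (n - X.card).factorial := by
  classical
  rcases Finset.eq_empty_or_nonempty
    ((univ : Finset (Equiv.Perm (Fin n))).filter (fun g => ∀ x ∈ X, g x = φ x)) with h | ⟨g₀, hg₀⟩
  · rw [h]
    simp
  · have hg₀' := (Finset.mem_filter.mp hg₀).2
    have hc : Fintype.card (Equiv.Perm {z // z ∉ X}) = (n - X.card).factorial := by
      rw [Fintype.card_perm, Fintype.card_subtype_compl, Fintype.card_fin, Fintype.card_coe]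
    rw [← hc, ← Finset.card_univ]
    have hfix : ∀ g : Equiv.Perm (Fin n), (∀ x ∈ X, g x = φ x) → ∀ x, ¬ x ∉ X → (g₀⁻¹ * g) x = x := by
      intro g hg x hx
      rw [not_not] at hx
      rw [Equiv.Perm.mul_apply, hg x hx, ← hg₀' x hx]
      simp
    apply Finset.card_le_card_of_injOn (fun g =>
      if h : ∀ x ∈ X, g x = φ x then
        (Equiv.Perm.subtypeEquivSubtypePerm (fun z => z ∉ X)).symm ⟨g₀⁻¹ * g, hfix g h⟩ else 1)
    · intro g _
      exact mem_univ _
    · intro g hg g' hg' heq
      rw [Finset.mem_coe, Finset.mem_filter] at hg hg'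
      simp only [] at heq
      rw [dif_pos hg.2, dif_pos hg'.2] at heq
      have h1 := (Equiv.Perm.subtypeEquivSubtypePerm (fun z => z ∉ X)).symm.injective heq
      have h2 := congrArg Subtype.val h1
      exact mul_left_cancel h2

/-- the vertices of a set of pairs -/
noncomputable def vs (Z : Finset (PP n)) : Finset (Fin n) :=
  by classical exact univ.filter (fun u => ∃ v, Rel Z u v)

lemma mem_vs (Z : Finset (PP n)) (u : Fin n) : u ∈ vs Z ↔ ∃ v, Rel Z u v := by
  classical
  simp [vs]

lemma card_vs (Z : Finset (PP n)) : (vs Z).card ≤ 2 * Z.card := by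
  classical
  have : vs Z ⊆ Z.image (fun e => e.1.1) ∪ Z.image (fun e => e.1.2) := by
    intro u hu
    obtain ⟨v, e, he, h⟩ := (mem_vs Z u).mp hu
    rw [Sym2.eq_iff] at h
    rw [Finset.mem_union, Finset.mem_image, Finset.mem_image]
    rcases h with ⟨a, _⟩ | ⟨_, b⟩
    · exact Or.inl ⟨e, he, a⟩
    · exact Or.inr ⟨e, he, b⟩
  refine (Finset.card_le_card this).trans ((Finset.card_union_le _ _).trans ?_)
  have h1 : (Z.image (fun e => e.1.1)).card ≤ Z.card := Finset.card_image_le
  have h2 : (Z.image (fun e => e.1.2)).card ≤ Z.card := Finset.card_image_le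
  omega

lemma ins_vs (Z : Finset (PP n)) : ins Z (vs Z) = Z := by
  unfold ins
  apply Finset.filter_true_of_mem
  intro e he
  exact ⟨(mem_vs _ _).mpr ⟨_, e, he, rfl⟩, (mem_vs _ _).mpr ⟨_, e, he, Sym2.eq_swap⟩⟩

/-- from placements to permutations -/
lemma av_le_Emb (E Z : Finset (PP n)) :
    av (Equiv.Perm (Fin n)) Z E ≤ (n - (vs Z).card).factorial * (Emb E Z (vs Z)).card := by
  classical
  unfold av
  apply Finset.card_le_mul_card_image_of_maps_to
    (f := fun g : Equiv.Perm (Fin n) => res (vs Z) (fun z => g z))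
  · intro g hg
    rw [mem_mv] at hg
    rw [mem_Emb]
    refine ⟨?_, fun z hz => res_of_not hz, ?_⟩
    · intro a ha b hb hab
      rw [Finset.mem_coe] at ha hb
      rw [res_of_mem ha, res_of_mem hb] at hab
      exact g.injective hab
    · intro a ha b hb hab
      rw [res_of_mem ha, res_of_mem hb]
      have h1 : Rel (tr g Z) (g a) (g b) := (rel_tr g Z a b).mpr hab
      obtain ⟨e, he, h⟩ := h1
      exact ⟨e, hg he, h⟩
  · intro φ _
    refine le_trans (Finset.card_le_card ?_) (card_perm_fixed (vs Z) φ)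
    intro g hg
    rw [Finset.mem_filter] at hg ⊢
    refine ⟨mem_univ _, ?_⟩
    intro x hx
    have := congrFun hg.2 x
    rwa [res_of_mem hx] at this

/-- placements bounded for all sets gives a spread orbit -/
lemma av_of_Emb (E Z : Finset (PP n)) (b : ℝ) (hb : 0 ≤ b)
    (h : ((Emb E Z (vs Z)).card : ℝ) ≤ (n : ℝ) ^ (vs Z).card * b ^ Z.card) :
    (av (Equiv.Perm (Fin n)) Z E : ℝ) ≤
      Fintype.card (Equiv.Perm (Fin n)) * (8 * b) ^ Z.card := by
  have h1 := av_le_Emb E Z
  have hle : (vs Z).card ≤ n := by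
    calc (vs Z).card ≤ (univ : Finset (Fin n)).card := Finset.card_le_card (Finset.subset_univ _)
      _ = n := by simp
  have h2 := pow_fact_le (n - (vs Z).card) (vs Z).card
  rw [Nat.sub_add_cancel hle] at h2
  have h3 : Real.exp 1 ^ (vs Z).card ≤ 8 ^ Z.card := by
    have he := Real.exp_one_lt_d9
    have he1 : (1 : ℝ) ≤ Real.exp 1 := by
      have := Real.add_one_le_exp (1 : ℝ)
      linarith
    calc Real.exp 1 ^ (vs Z).card ≤ Real.exp 1 ^ (2 * Z.card) :=
          pow_le_pow_right₀ he1 (card_vs Z)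
      _ = (Real.exp 1 ^ 2) ^ Z.card := pow_mul _ _ _
      _ ≤ 8 ^ Z.card := by
          apply pow_le_pow_left₀ (by positivity)
          nlinarith [Real.exp_pos 1]
  have hcardp : Fintype.card (Equiv.Perm (Fin n)) = n.factorial := by
    rw [Fintype.card_perm, Fintype.card_fin]
  rw [hcardp]
  calc (av (Equiv.Perm (Fin n)) Z E : ℝ) ≤ ((n - (vs Z).card).factorial : ℝ) *
        ((Emb E Z (vs Z)).card : ℝ) := by exact_mod_cast h1
    _ ≤ ((n - (vs Z).card).factorial : ℝ) * ((n : ℝ) ^ (vs Z).card * b ^ Z.card) :=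
        mul_le_mul_of_nonneg_left h (by positivity)
    _ = ((n : ℝ) ^ (vs Z).card * ((n - (vs Z).card).factorial : ℝ)) * b ^ Z.card := by ring
    _ ≤ (Real.exp 1 ^ (vs Z).card * (n.factorial : ℝ)) * b ^ Z.card :=
        mul_le_mul_of_nonneg_right h2 (by positivity)
    _ ≤ (8 ^ Z.card * (n.factorial : ℝ)) * b ^ Z.card := by
        apply mul_le_mul_of_nonneg_right _ (by positivity)
        exact mul_le_mul_of_nonneg_right h3 (by positivity)
    _ = _ := by
        rw [mul_pow]
        ring

end translate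

end Pool.Agent.W812.EG
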