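import Pool.Agent.W812.EG2

/-! The spread theorem with weights. -/

namespace Pool.Agent.W812.EG

open Finset

variable {G ι : Type*} [Group G] [Fintype G] [Fintype ι] [DecidableEq ι] [MulAction G ι]

omit [Fintype G] [Fintype ι] in
lemma prod_tr (q : ι → ℝ) (hinv : ∀ (g : G) x, q (g • x) = q x) (g : G) (S : Finset ι) :
    ∏ x ∈ tr g S, q x = ∏ x ∈ S, q x := by
  unfold tr
  rw [Finset.prod_image (fun a _ b _ h => MulAction.injective g h)]
  exact Finset.prod_congr rfl (fun x _ => hinv g x)

/-- the weight of one translate outside `T` -/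
noncomputable def fwW (G : Type*) [Group G] [Fintype G] [MulAction G ι] (q : ι → ℝ)
    (S T : Finset ι) : ℝ := ∑ g : G, ∏ x ∈ tr g S \ T, q x

omit [Fintype ι] in
lemma fwW_tr (q : ι → ℝ) (hinv : ∀ (g : G) x, q (g • x) = q x) (S T : Finset ι) (σ : G) :
    fwW G q S (tr σ T) = fwW G q S T := by
  unfold fwW
  refine Fintype.sum_equiv (Equiv.mulLeft σ⁻¹) _ _ ?_
  intro g
  have : tr (σ⁻¹ * g) S \ T = tr σ⁻¹ (tr g S \ tr σ T) := by
    rw [tr_sdiff, tr_mul, tr_inv_tr]
  simp only [Equiv.coe_mulLeft]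
  rw [this, prod_tr q hinv]

/-- the weighted number of tuples whose union is inside some translate of `T` -/
noncomputable def wtW (G : Type*) [Group G] [Fintype G] [MulAction G ι] (q : ι → ℝ)
    (S T : Finset ι) (J : ℕ) : ℝ :=
  by classical exact ∑ ω : Fin J → G, if ∃ σ : G, un ω S ⊆ tr σ T then ∏ x ∈ un ω S, q x else 0

omit [Fintype ι] in
lemma wtW_le (q : ι → ℝ) (hinv : ∀ (g : G) x, q (g • x) = q x) (hq0 : ∀ x, 0 ≤ q x)
    (S T : Finset ι) (hq1 : ∀ x ∈ T, q x ≤ 1) (J : ℕ) :
    wtW G q S T J ≤ fwW G q S T ^ J := by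
  classical
  induction J with
  | zero =>
    unfold wtW
    rw [Finset.sum_eq_single_of_mem (default : Fin 0 → G) (mem_univ _)
      (fun b _ hb => absurd (Subsingleton.elim b default) hb)]
    simp [un_zero]
  | succ J ih =>
    have hf0 : 0 ≤ fwW G q S T := Finset.sum_nonneg (fun g _ => Finset.prod_nonneg (fun x _ => hq0 x))
    have e1 : wtW G q S T (J + 1) = ∑ x : G × (Fin J → G),
        (if ∃ σ : G, un (Fin.cons x.1 x.2 : Fin (J + 1) → G) S ⊆ tr σ T then
          ∏ y ∈ un (Fin.cons x.1 x.2 : Fin (J + 1) → G) S, q y else 0) := by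
      unfold wtW
      refine (Fintype.sum_equiv (Fin.consEquiv (fun _ : Fin (J + 1) => G)) _ _ ?_).symm
      intro x
      rfl
    rw [e1, Fintype.sum_prod_type_right]
    have h2 : ∀ ω : Fin J → G, (∑ g : G,
        (if ∃ σ : G, un (Fin.cons g ω : Fin (J + 1) → G) S ⊆ tr σ T then
          ∏ y ∈ un (Fin.cons g ω : Fin (J + 1) → G) S, q y else 0)) ≤
        (if ∃ σ : G, un ω S ⊆ tr σ T then ∏ y ∈ un ω S, q y else 0) * fwW G q S T := by
      intro ω
      by_cases h : ∃ σ : G, un ω S ⊆ tr σ T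
      · rw [if_pos h]
        obtain ⟨σ, hσ⟩ := h
        rw [← fwW_tr q hinv S T σ]
        unfold fwW
        rw [Finset.mul_sum]
        apply Finset.sum_le_sum
        intro g _
        split_ifs with hc
        · rw [un_cons]
          have h3 : tr g S ∪ un ω S = un ω S ∪ (tr g S \ un ω S) := by
            rw [Finset.union_sdiff_self_eq_union, Finset.union_comm]
          rw [h3, Finset.prod_union Finset.disjoint_sdiff]
          apply mul_le_mul_of_nonneg_left _ (Finset.prod_nonneg (fun x _ => hq0 x))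
          have h4 : tr g S \ tr σ T ⊆ tr g S \ un ω S :=
            Finset.sdiff_subset_sdiff (Finset.Subset.refl _) hσ
          rw [← Finset.prod_sdiff h4]
          apply mul_le_of_le_one_left (Finset.prod_nonneg (fun x _ => hq0 x))
          apply Finset.prod_le_one (fun x _ => hq0 x)
          intro x hx
          rw [Finset.mem_sdiff, Finset.mem_sdiff, Finset.mem_sdiff] at hx
          have hxT : x ∈ tr σ T := by
            by_contra hcon
            exact hx.2 ⟨hx.1.1, hcon⟩
          rw [mem_tr] at hxT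
          have := hq1 _ hxT
          rwa [hinv] at this
        · exact mul_nonneg (Finset.prod_nonneg (fun x _ => hq0 x))
            (Finset.prod_nonneg (fun x _ => hq0 x))
      · rw [if_neg h, zero_mul]
        apply le_of_eq
        apply Finset.sum_eq_zero
        intro g _
        rw [if_neg]
        rintro ⟨σ, hσ⟩
        apply h
        refine ⟨σ, ?_⟩
        rw [un_cons] at hσ
        exact Finset.subset_union_right.trans hσ
    calc _ ≤ ∑ ω : Fin J → G,
          (if ∃ σ : G, un ω S ⊆ tr σ T then ∏ y ∈ un ω S, q y else 0) * fwW G q S T :=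
          Finset.sum_le_sum (fun ω _ => h2 ω)
      _ = wtW G q S T J * fwW G q S T := by
          rw [← Finset.sum_mul]; rfl
      _ ≤ fwW G q S T ^ J * fwW G q S T := mul_le_mul_of_nonneg_right ih hf0
      _ = fwW G q S T ^ (J + 1) := (pow_succ _ _).symm

omit [Fintype ι] in
/-- orbit counting -/
lemma orb_mul_tupW_le (q : ι → ℝ) (hinv : ∀ (g : G) x, q (g • x) = q x) (hq0 : ∀ x, 0 ≤ q x)
    (S T U : Finset ι) (hq1 : ∀ x ∈ T, q x ≤ 1) (hU : U ⊆ T) (J : ℕ) :
    ((orb G U).card : ℝ) * (tup G J S U).card * ∏ x ∈ U, q x ≤ fwW G q S T ^ J := by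
  classical
  refine le_trans ?_ (wtW_le q hinv hq0 S T hq1 J)
  have h1 : ((orb G U).card : ℝ) * (tup G J S U).card * ∏ x ∈ U, q x =
      ∑ V ∈ orb G U, ∑ ω ∈ tup G J S V, ∏ x ∈ un ω S, q x := by
    have : ∀ V ∈ orb G U, ∑ ω ∈ tup G J S V, ∏ x ∈ un ω S, q x =
        ((tup G J S U).card : ℝ) * ∏ x ∈ U, q x := by
      intro V hV
      obtain ⟨g, rfl⟩ := (mem_orb U V).mp hV
      rw [Finset.sum_congr rfl (g := fun _ => ∏ x ∈ U, q x), Finset.sum_const, nsmul_eq_mul,
        card_tup_tr J S U g]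
      intro ω hω
      rw [(mem_tup _ _ _ _).mp hω, prod_tr q hinv]
    rw [Finset.sum_congr rfl this, Finset.sum_const, nsmul_eq_mul]
    ring
  rw [h1, Finset.sum_sigma']
  unfold wtW
  rw [← Finset.sum_filter]
  have hinj : Set.InjOn (fun x : Σ _ : Finset ι, (Fin J → G) => x.2)
      ((orb G U).sigma (fun V => tup G J S V) : Finset (Σ _ : Finset ι, (Fin J → G))) := by
    rintro ⟨V, ω⟩ h ⟨V', ω'⟩ h' hh
    simp only [coe_sigma, Set.mem_sigma_iff, mem_coe] at h h'
    simp only at hh
    subst hh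
    have e1 := (mem_tup _ _ _ _).mp h.2
    have e2 := (mem_tup _ _ _ _).mp h'.2
    rw [← e1, ← e2]
  rw [← Finset.sum_image (f := fun ω : Fin J → G => ∏ x ∈ un ω S, q x) hinj]
  apply Finset.sum_le_sum_of_subset_of_nonneg
  · intro ω hω
    obtain ⟨⟨V, ω'⟩, h, rfl⟩ := Finset.mem_image.mp hω
    rw [Finset.mem_sigma] at h
    obtain ⟨g, hg⟩ := (mem_orb U V).mp h.1
    rw [Finset.mem_filter]
    refine ⟨mem_univ _, g, ?_⟩
    have e2 : un ω' S = V := (mem_tup _ _ _ _).mp h.2
    have e3 : tr g U = V := hg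
    change un ω' S ⊆ tr g T
    rw [e2, ← e3, tr_subset_tr]
    exact hU
  · intro ω _ _
    exact Finset.prod_nonneg (fun x _ => hq0 x)

omit [Fintype ι] in
/-- the weight in terms of the numbers of the subsets -/
lemma fwW_le (q : ι → ℝ) (hinv : ∀ (g : G) x, q (g • x) = q x) (hq0 : ∀ x, 0 ≤ q x)
    (S T : Finset ι) :
    fwW G q S T ≤ ∑ K ∈ S.powerset, (av G K T : ℝ) * ∏ x ∈ S \ K, q x := by
  classical
  unfold fwW
  let K : G → Finset ι := fun g => S.filter (fun x => g • x ∈ T)
  have hK : ∀ g : G, ∏ x ∈ tr g S \ T, q x = ∏ x ∈ S \ K g, q x := by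
    intro g
    have h1 : tr g S \ T = tr g (S \ K g) := by
      ext x
      simp only [Finset.mem_sdiff, mem_tr, K, Finset.mem_filter, smul_inv_smul]
      tauto
    rw [h1, prod_tr q hinv]
  have hK2 : ∀ g : G, tr g (K g) ⊆ T := by
    intro g x hx
    rw [mem_tr] at hx
    have := (Finset.mem_filter.mp hx).2
    simpa using this
  calc ∑ g : G, ∏ x ∈ tr g S \ T, q x = ∑ g : G, ∏ x ∈ S \ K g, q x :=
        Finset.sum_congr rfl (fun g _ => by rw [hK g])
    _ = ∑ g : G, ∑ K' ∈ S.powerset, (if K' = K g then ∏ x ∈ S \ K', q x else 0) := by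
        apply Finset.sum_congr rfl
        intro g _
        rw [Finset.sum_ite_eq', if_pos]
        rw [Finset.mem_powerset]
        exact Finset.filter_subset _ _
    _ = ∑ K' ∈ S.powerset, ∑ g : G, (if K' = K g then ∏ x ∈ S \ K', q x else 0) :=
        Finset.sum_comm
    _ ≤ ∑ K' ∈ S.powerset, (av G K' T : ℝ) * ∏ x ∈ S \ K', q x := by
        apply Finset.sum_le_sum
        intro K' _
        rw [← Finset.sum_filter, Finset.sum_const, nsmul_eq_mul]
        apply mul_le_mul_of_nonneg_right _ (Finset.prod_nonneg (fun x _ => hq0 x))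
        norm_cast
        unfold av
        apply Finset.card_le_card
        intro g hg
        rw [Finset.mem_filter] at hg
        rw [mem_mv, hg.2]
        exact hK2 g

/-- The spread theorem with weights. -/
theorem spreadW (E : Finset ι) (w : ι → ℝ) (hw : ∀ x, 0 < w x)
    (hinv : ∀ (g : G) x, w (g • x) = w x) (L : ℕ) (hL : 1 ≤ L) (hE : E.card ≤ 2 ^ L)
    (hq1 : ∀ x ∈ E, 256 * w x ≤ 1)
    (horb : ∀ U ⊆ E, 1 ≤ ((orb G U).card : ℝ) * ∏ x ∈ U, w x)
    (S₀ : Finset ι) : (av G S₀ E : ℝ) ≤ Fintype.card G * ∏ x ∈ S₀, (1536 * L * w x) := by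
  classical
  by_contra hcon
  rw [not_le] at hcon
  have hN : (0 : ℝ) < Fintype.card G := by exact_mod_cast Fintype.card_pos
  have hLr : (1 : ℝ) ≤ L := by exact_mod_cast hL
  set N : ℝ := ((Fintype.card G : ℕ) : ℝ) with hNdef
  set A : ℝ := 1536 * L with hA
  have hA0 : 0 < A := by positivity
  have hAw : ∀ x, 0 < A * w x := fun x => mul_pos hA0 (hw x)
  have hPw : ∀ S : Finset ι, 0 < ∏ x ∈ S, (A * w x) := fun S => Finset.prod_pos (fun x _ => hAw x)
  -- S₀ is nonempty
  have hS₀ : S₀.Nonempty := by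
    rw [Finset.nonempty_iff_ne_empty]
    rintro rfl
    rw [av_empty_left, Finset.prod_empty, mul_one] at hcon
    exact lt_irrefl _ hcon
  have hav0 : (0 : ℝ) < av G S₀ E := lt_of_le_of_lt (mul_nonneg hN.le (hPw S₀).le) hcon
  have hEpos : 0 < E.card := by
    have h1 : 0 < av G S₀ E := by exact_mod_cast hav0
    have := card_le_of_av_pos S₀ E h1
    have := Finset.card_pos.mpr hS₀
    omega
  have hEr : (0 : ℝ) < E.card := by exact_mod_cast hEpos
  -- the potential
  let R : Finset ι → Finset ι → ℝ := fun S T => (av G S T : ℝ) / (N * ∏ x ∈ S, (A * w x))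
  let Ψ : Finset ι → Finset ι → ℝ := fun S T => R S T ^ L * ((E.card : ℝ) / T.card) ^ S.card
  have hR0 : ∀ S T, 0 ≤ R S T := fun S T => div_nonneg (Nat.cast_nonneg _)
    (mul_nonneg hN.le (hPw S).le)
  obtain ⟨⟨S, T⟩, hST, hmax⟩ := Finset.exists_max_image
    (((univ : Finset (Finset ι)).filter (fun S => S.Nonempty)) ×ˢ
      (E.powerset.filter (fun T => T.Nonempty))) (fun x => Ψ x.1 x.2)
    ⟨(S₀, E), by
      rw [Finset.mem_product, Finset.mem_filter, Finset.mem_filter, Finset.mem_powerset]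
      exact ⟨⟨mem_univ _, hS₀⟩, Finset.Subset.refl _, Finset.card_pos.mp hEpos⟩⟩
  rw [Finset.mem_product, Finset.mem_filter, Finset.mem_filter, Finset.mem_powerset] at hST
  obtain ⟨⟨-, hSne⟩, hTE, hTne⟩ := hST
  simp only at hSne hTE hTne
  have hmax' : ∀ S' T', S'.Nonempty → T' ⊆ E → T'.Nonempty → Ψ S' T' ≤ Ψ S T := by
    intro S' T' h1 h2 h3
    exact hmax (S', T') (by
      rw [Finset.mem_product, Finset.mem_filter, Finset.mem_filter, Finset.mem_powerset]
      exact ⟨⟨mem_univ _, h1⟩, h2, h3⟩)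
  have hΨ1 : 1 ≤ Ψ S T := by
    refine le_trans ?_ (hmax' S₀ E hS₀ (Finset.Subset.refl _) (Finset.card_pos.mp hEpos))
    have h1 : 1 ≤ R S₀ E := by
      simp only [R]
      rw [le_div_iff₀ (mul_pos hN (hPw S₀)), one_mul]
      exact hcon.le
    simp only [Ψ]
    rw [div_self hEr.ne', one_pow, mul_one]
    exact one_le_pow₀ h1
  set e := S.card with he
  set h := T.card with hh
  have he1 : 1 ≤ e := Finset.card_pos.mpr hSne
  have hh1 : 1 ≤ h := Finset.card_pos.mpr hTne
  have hhr : (1 : ℝ) ≤ h := by exact_mod_cast hh1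
  have hhr0 : (0 : ℝ) < h := by linarith
  have ha0 : (0 : ℝ) < av G S T := by
    rcases Nat.eq_zero_or_pos (av G S T) with h0 | h0
    · exfalso
      have : Ψ S T = 0 := by
        simp only [Ψ, R, h0, Nat.cast_zero, zero_div]
        rw [zero_pow (by omega), zero_mul]
      linarith
    · exact_mod_cast h0
  have heh : e ≤ h := card_le_of_av_pos S T (by exact_mod_cast ha0)
  set a : ℝ := (av G S T : ℝ) with ha
  -- (ii)
  set x : ℝ := (E.card : ℝ) / h with hx
  have hx0 : 0 < x := by positivity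
  have hx2 : x ≤ 2 ^ L := by
    rw [hx, div_le_iff₀ hhr0]
    have h1 : (E.card : ℝ) ≤ 2 ^ L := by exact_mod_cast hE
    have h2 : (0 : ℝ) < 2 ^ L := by positivity
    nlinarith
  have hii : ∀ K ⊆ S, R K T ≤ R S T * 2 ^ (e - K.card) := by
    intro K hK
    have hKe : K.card ≤ e := Finset.card_le_card hK
    have h1 : R K T ^ L * x ^ K.card ≤ R S T ^ L * x ^ e := by
      rcases K.eq_empty_or_nonempty with rfl | hKne
      · have : R ∅ T = 1 := by
          simp only [R]
          rw [av_empty_left, Finset.prod_empty, mul_one]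
          exact div_self hN.ne'
        rw [this, one_pow, Finset.card_empty, pow_zero, mul_one]
        exact hΨ1
      · exact hmax' K T hKne hTE hTne
    have h2 : x ^ e = x ^ (e - K.card) * x ^ K.card := by
      rw [← pow_add]
      congr 1
      omega
    rw [h2, ← mul_assoc] at h1
    have h3 : R K T ^ L ≤ R S T ^ L * x ^ (e - K.card) :=
      le_of_mul_le_mul_right h1 (by positivity)
    have h4 : R K T ^ L ≤ (R S T * 2 ^ (e - K.card)) ^ L := by
      refine h3.trans ?_
      rw [mul_pow]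
      apply mul_le_mul_of_nonneg_left _ (pow_nonneg (hR0 S T) L)
      calc x ^ (e - K.card) ≤ (2 ^ L) ^ (e - K.card) := pow_le_pow_left₀ hx0.le hx2 _
        _ = (2 ^ (e - K.card)) ^ L := by rw [← pow_mul, ← pow_mul, mul_comm]
    exact (pow_le_pow_iff_left₀ (hR0 K T) (mul_nonneg (hR0 S T) (by positivity)) (by omega)).mp h4
  -- (i)
  have hi : ∀ g ∈ T, (av G S (T.erase g) : ℝ) ^ L ≤ a ^ L * (((h : ℝ) - 1) / h) ^ e := by
    intro g hg
    have hcard : (T.erase g).card = h - 1 := by rw [Finset.card_erase_of_mem hg]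
    rcases Nat.lt_or_ge h 2 with h2 | h2
    · have hem : T.erase g = ∅ := by
        rw [← Finset.card_eq_zero, hcard]
        omega
      rw [hem, av_right_empty S hSne, Nat.cast_zero, zero_pow (by omega)]
      apply mul_nonneg (by positivity)
      apply pow_nonneg
      apply div_nonneg (by linarith) hhr0.le
    · have hne : (T.erase g).Nonempty := by
        rw [← Finset.card_pos, hcard]
        omega
      have h3 := hmax' S (T.erase g) hSne ((Finset.erase_subset _ _).trans hTE) hne
      simp only [Ψ, R] at h3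
      rw [hcard, ← ha, ← hh, ← he] at h3
      have hcast : ((h - 1 : ℕ) : ℝ) = (h : ℝ) - 1 := by
        rw [Nat.cast_sub hh1]
        simp
      rw [hcast] at h3
      have hh2 : (0 : ℝ) < (h : ℝ) - 1 := by
        have : (2 : ℝ) ≤ h := by exact_mod_cast h2
        linarith
      have hD : 0 < (N * ∏ x ∈ S, (A * w x)) := mul_pos hN (hPw S)
      set D : ℝ := N * ∏ x ∈ S, (A * w x) with hDdef
      rw [div_pow, div_pow, div_pow, div_pow] at h3
      have h4 : (av G S (T.erase g) : ℝ) ^ L * (((E.card : ℝ) ^ e) /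
          (D ^ L * ((h : ℝ) - 1) ^ e)) ≤
          a ^ L * (((E.card : ℝ) ^ e) / (D ^ L * (h : ℝ) ^ e)) := by
        calc _ = (av G S (T.erase g) : ℝ) ^ L / D ^ L *
              ((E.card : ℝ) ^ e / ((h : ℝ) - 1) ^ e) := by
              field_simp
          _ ≤ _ := h3
          _ = _ := by
              field_simp
      have h5 := mul_le_mul_of_nonneg_right h4
        (show 0 ≤ D ^ L * ((h : ℝ) - 1) ^ e / (E.card : ℝ) ^ e by positivity)
      calc (av G S (T.erase g) : ℝ) ^ L = (av G S (T.erase g) : ℝ) ^ L * (((E.card : ℝ) ^ e) /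
          (D ^ L * ((h : ℝ) - 1) ^ e)) *
          (D ^ L * ((h : ℝ) - 1) ^ e / (E.card : ℝ) ^ e) := by
            field_simp
        _ ≤ _ := h5
        _ = _ := by
            rw [div_pow]
            field_simp
  -- the numbers of stages
  obtain ⟨j, hj1, hj2⟩ : ∃ j : ℕ, 2 * h ≤ e * j ∧ e * j ≤ 3 * h := by
    refine ⟨(2 * h + (e - 1)) / e, ?_, ?_⟩
    · have h1 := Nat.div_add_mod (2 * h + (e - 1)) e
      have h2 := Nat.mod_lt (2 * h + (e - 1)) (show e > 0 by omega)
      omega
    · have h1 := Nat.mul_div_le (2 * h + (e - 1)) e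
      omega
  set J := L * j with hJ
  have hexp4 : Real.exp (-2) ≤ 1 / 4 := by
    have h1 : (4 : ℝ) ≤ Real.exp 2 := by
      have h2 : (2 : ℝ) ≤ Real.exp 1 := by
        have := Real.add_one_le_exp (1 : ℝ)
        linarith
      have h3 : Real.exp 2 = Real.exp 1 * Real.exp 1 := by
        rw [← Real.exp_add]; norm_num
      rw [h3]
      nlinarith
    rw [Real.exp_neg]
    rw [inv_le_comm₀ (Real.exp_pos _) (by norm_num)]
    norm_num
    exact h1
  have hdrop : ∀ g ∈ T, (av G S (T.erase g) : ℝ) ^ J ≤ a ^ J / 4 := by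
    intro g hg
    have h0 : (0 : ℝ) ≤ ((h : ℝ) - 1) / h := div_nonneg (by linarith) hhr0.le
    have h1 : ((h : ℝ) - 1) / h ≤ Real.exp (-(1 / h)) := by
      have := Real.add_one_le_exp (-(1 / (h : ℝ)))
      have h2 : ((h : ℝ) - 1) / h = -(1 / h) + 1 := by
        field_simp
        ring
      rw [h2]
      exact this
    have h2 : (((h : ℝ) - 1) / h) ^ (e * j) ≤ 1 / 4 := by
      calc (((h : ℝ) - 1) / h) ^ (e * j) ≤ Real.exp (-(1 / h)) ^ (e * j) :=
            pow_le_pow_left₀ h0 h1 _
        _ = Real.exp (((e * j : ℕ) : ℝ) * (-(1 / h))) := (Real.exp_nat_mul _ _).symm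
        _ ≤ Real.exp (-2) := by
            apply Real.exp_le_exp.mpr
            have h3 : (2 : ℝ) * h ≤ ((e * j : ℕ) : ℝ) := by exact_mod_cast hj1
            have h4 : ((e * j : ℕ) : ℝ) * (-(1 / h)) = -(((e * j : ℕ) : ℝ) / h) := by ring
            rw [h4, neg_le_neg_iff, le_div_iff₀ hhr0]
            exact h3
        _ ≤ 1 / 4 := hexp4
    calc (av G S (T.erase g) : ℝ) ^ J = ((av G S (T.erase g) : ℝ) ^ L) ^ j := by
          rw [hJ, pow_mul]
      _ ≤ (a ^ L * (((h : ℝ) - 1) / h) ^ e) ^ j := pow_le_pow_left₀ (by positivity) (hi g hg) _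
      _ = a ^ J * (((h : ℝ) - 1) / h) ^ (e * j) := by
          rw [mul_pow, ← pow_mul, ← pow_mul]
      _ ≤ a ^ J * (1 / 4) := mul_le_mul_of_nonneg_left h2 (by positivity)
      _ = a ^ J / 4 := by ring
  have hmany := many_large (G := G) S T J (by omega) hdrop
  -- weights
  set q : ι → ℝ := fun x => 256 * w x with hq
  have hqinv : ∀ (g : G) x, q (g • x) = q x := fun g x => by simp only [hq, hinv]
  have hq0 : ∀ x, 0 ≤ q x := fun x => by
    have := hw x
    simp only [hq]
    positivity
  have hf : fwW G q S T ≤ a * (1 + 1 / (3 * L)) ^ e := by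
    refine (fwW_le q hqinv hq0 S T).trans ?_
    calc ∑ K ∈ S.powerset, (av G K T : ℝ) * ∏ x ∈ S \ K, q x
        ≤ ∑ K ∈ S.powerset, a * (1 ^ K.card * (1 / (3 * L)) ^ (e - K.card)) := by
          apply Finset.sum_le_sum
          intro K hK
          rw [Finset.mem_powerset] at hK
          have hKe : K.card ≤ e := Finset.card_le_card hK
          have h1 := hii K hK
          simp only [R] at h1
          have h2 : ∏ x ∈ S, (A * w x) = (∏ x ∈ S \ K, (A * w x)) * ∏ x ∈ K, (A * w x) :=
            (Finset.prod_sdiff hK).symm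
          have hPK := hPw K
          have hPS := hPw S
          have hPSK := hPw (S \ K)
          have h3 : (av G K T : ℝ) * (∏ x ∈ S \ K, (A * w x)) ≤ a * 2 ^ (e - K.card) := by
            have h4 := mul_le_mul_of_nonneg_right h1
              (show 0 ≤ N * ∏ x ∈ S, (A * w x) from (mul_pos hN hPS).le)
            calc (av G K T : ℝ) * (∏ x ∈ S \ K, (A * w x))
                = (av G K T : ℝ) / (N * ∏ x ∈ K, (A * w x)) * (N * ∏ x ∈ S, (A * w x)) := by
                  rw [h2]
                  field_simp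
              _ ≤ _ := h4
              _ = a * 2 ^ (e - K.card) := by
                  rw [← ha]
                  field_simp
          rw [one_pow, one_mul]
          have hcSK : (S \ K).card = e - K.card := by
            rw [Finset.card_sdiff_of_subset hK]
          have h5 : ∏ x ∈ S \ K, q x = (∏ x ∈ S \ K, (A * w x)) *
              ((1 / 2) ^ (e - K.card) * (1 / (3 * L)) ^ (e - K.card)) := by
            rw [← mul_pow, ← hcSK, ← Finset.prod_const, ← Finset.prod_mul_distrib]
            apply Finset.prod_congr rfl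
            intro x _
            simp only [hq]
            rw [hA]
            field_simp
            ring
          rw [h5, ← mul_assoc]
          calc _ ≤ a * 2 ^ (e - K.card) * ((1 / 2) ^ (e - K.card) * (1 / (3 * L)) ^ (e - K.card)) :=
                mul_le_mul_of_nonneg_right h3 (by positivity)
            _ = a * (((2 : ℝ) ^ (e - K.card) * (1 / 2) ^ (e - K.card)) *
                (1 / (3 * L)) ^ (e - K.card)) := by ring
            _ = _ := by
                rw [← mul_pow]
                norm_num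
      _ = a * (1 + 1 / (3 * L)) ^ e := by
          rw [← Finset.mul_sum, he, Finset.sum_pow_mul_eq_add_pow]
  have hf0 : 0 ≤ fwW G q S T :=
    Finset.sum_nonneg (fun g _ => Finset.prod_nonneg (fun x _ => hq0 x))
  have hfJ : fwW G q S T ^ J ≤ a ^ J * Real.exp h := by
    have h1 : (1 + 1 / (3 * (L : ℝ))) ≤ Real.exp (1 / (3 * L)) := by
      have := Real.add_one_le_exp (1 / (3 * (L : ℝ)))
      linarith
    calc fwW G q S T ^ J ≤ (a * (1 + 1 / (3 * L)) ^ e) ^ J := pow_le_pow_left₀ hf0 hf _
      _ = a ^ J * (1 + 1 / (3 * (L : ℝ))) ^ (e * J) := by rw [mul_pow, ← pow_mul]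
      _ ≤ a ^ J * Real.exp (1 / (3 * L)) ^ (e * J) := by
          apply mul_le_mul_of_nonneg_left _ (by positivity)
          exact pow_le_pow_left₀ (by positivity) h1 _
      _ = a ^ J * Real.exp (((e * J : ℕ) : ℝ) * (1 / (3 * L))) := by
          rw [Real.exp_nat_mul]
      _ ≤ a ^ J * Real.exp h := by
          apply mul_le_mul_of_nonneg_left _ (by positivity)
          apply Real.exp_le_exp.mpr
          have h2 : ((e * J : ℕ) : ℝ) = L * ((e * j : ℕ) : ℝ) := by
            rw [hJ]
            push_cast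
            ring
          rw [h2]
          have h3 : ((e * j : ℕ) : ℝ) ≤ 3 * h := by exact_mod_cast hj2
          have h4 : (L : ℝ) * ((e * j : ℕ) : ℝ) * (1 / (3 * L)) = ((e * j : ℕ) : ℝ) / 3 := by
            field_simp
          rw [h4]
          linarith
  -- each large union has few tuples
  have hfew : ∀ U ∈ T.powerset.filter (fun U => T.card ≤ 2 * U.card),
      ((tup G J S U).card : ℝ) ≤ a ^ J * Real.exp h / 16 ^ h := by
    intro U hU
    rw [Finset.mem_filter, Finset.mem_powerset] at hU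
    obtain ⟨hUT, hUc⟩ := hU
    have h1 := orb_mul_tupW_le (G := G) q hqinv hq0 S T U (fun x hx => hq1 x (hTE hx)) hUT J
    have h2 := horb U (hUT.trans hTE)
    rw [le_div_iff₀ (by positivity)]
    have h3 : (16 : ℝ) ^ h ≤ ((orb G U).card : ℝ) * ∏ x ∈ U, q x := by
      calc (16 : ℝ) ^ h ≤ 16 ^ (2 * U.card) := pow_le_pow_right₀ (by norm_num) hUc
        _ = 256 ^ U.card := by rw [pow_mul]; norm_num
        _ = 256 ^ U.card * 1 := by ring
        _ ≤ 256 ^ U.card * (((orb G U).card : ℝ) * ∏ x ∈ U, w x) :=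
            mul_le_mul_of_nonneg_left h2 (by positivity)
        _ = _ := by
            simp only [hq]
            rw [Finset.prod_mul_distrib, Finset.prod_const]
            ring
    calc ((tup G J S U).card : ℝ) * 16 ^ h ≤
          ((tup G J S U).card : ℝ) * (((orb G U).card : ℝ) * ∏ x ∈ U, q x) :=
          mul_le_mul_of_nonneg_left h3 (by positivity)
      _ = ((orb G U).card : ℝ) * (tup G J S U).card * ∏ x ∈ U, q x := by ring
      _ ≤ _ := h1
      _ ≤ _ := hfJ
  have hcount : ∑ U ∈ T.powerset.filter (fun U => T.card ≤ 2 * U.card),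
      ((tup G J S U).card : ℝ) ≤ 2 ^ h * (a ^ J * Real.exp h / 16 ^ h) := by
    calc _ ≤ ∑ U ∈ T.powerset.filter (fun U => T.card ≤ 2 * U.card),
          a ^ J * Real.exp h / 16 ^ h := Finset.sum_le_sum hfew
      _ = ((T.powerset.filter (fun U => T.card ≤ 2 * U.card)).card : ℝ) *
          (a ^ J * Real.exp h / 16 ^ h) := by rw [Finset.sum_const, nsmul_eq_mul]
      _ ≤ _ := by
          apply mul_le_mul_of_nonneg_right _ (by positivity)
          have : (T.powerset.filter (fun U => T.card ≤ 2 * U.card)).card ≤ 2 ^ h := by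
            refine (Finset.card_filter_le _ _).trans ?_
            rw [Finset.card_powerset]
          exact_mod_cast this
  have hfin := hmany.trans hcount
  rw [← ha] at hfin
  have haJ : 0 < a ^ J := by positivity
  have h1 : (1 : ℝ) / 2 ≤ 2 ^ h * (Real.exp h / 16 ^ h) := by
    refine le_of_mul_le_mul_left ?_ haJ
    calc a ^ J * (1 / 2) = a ^ J / 2 := by ring
      _ ≤ _ := hfin
      _ = _ := by ring
  have h2 : Real.exp h ≤ 3 ^ h := by
    have h3 : Real.exp (h : ℝ) = Real.exp 1 ^ h := by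
      rw [← Real.exp_nat_mul, mul_one]
    rw [h3]
    apply pow_le_pow_left₀ (Real.exp_pos 1).le
    have := Real.exp_one_lt_d9
    linarith
  have h3 : (16 : ℝ) ^ h = 2 ^ h * 8 ^ h := by
    rw [← mul_pow]; norm_num
  have h4 : (8 : ℝ) ^ h ≤ 2 * 3 ^ h := by
    have h5 : 2 ^ h * (Real.exp h / 16 ^ h) = Real.exp h / 8 ^ h := by
      rw [h3]
      field_simp
    rw [h5, le_div_iff₀ (by positivity)] at h1
    linarith
  have h5 : (8 : ℝ) ^ h = (8 / 3) ^ h * 3 ^ h := by
    rw [← mul_pow]; norm_num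
  have h6 : (8 / 3 : ℝ) ≤ (8 / 3) ^ h := by
    calc (8 / 3 : ℝ) = (8 / 3) ^ 1 := by norm_num
      _ ≤ (8 / 3) ^ h := pow_le_pow_right₀ (by norm_num) hh1
  have h7 : (0 : ℝ) < 3 ^ h := by positivity
  rw [h5] at h4
  nlinarith

/-- The spread theorem with weights, without an upper bound for the weights. -/
theorem spreadW' (E : Finset ι) (w : ι → ℝ) (hw : ∀ x, 0 < w x)
    (hinv : ∀ (g : G) x, w (g • x) = w x) (L : ℕ) (hL : 1 ≤ L) (hE : E.card ≤ 2 ^ L)
    (horb : ∀ U ⊆ E, 1 ≤ ((orb G U).card : ℝ) * ∏ x ∈ U, w x)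
    (S₀ : Finset ι) : (av G S₀ E : ℝ) ≤ Fintype.card G * ∏ x ∈ S₀, (1536 * L * w x) := by
  classical
  have hLr : (1 : ℝ) ≤ L := by exact_mod_cast hL
  set E' := E.filter (fun x => 1536 * (L : ℝ) * w x ≤ 1) with hE'
  set S' := S₀.filter (fun x => 1536 * (L : ℝ) * w x ≤ 1) with hS'
  have h1 := spreadW (G := G) E' w hw hinv L hL
    ((Finset.card_le_card (Finset.filter_subset _ _)).trans hE) (by
      intro x hx
      have h2 := (Finset.mem_filter.mp hx).2
      have h3 := hw x
      nlinarith) (fun U hU => horb U (hU.trans (Finset.filter_subset _ _))) S'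
  have h4 : (av G S₀ E : ℝ) ≤ av G S' E' := by
    have : av G S₀ E ≤ av G S' E' := by
      unfold av
      apply Finset.card_le_card
      intro g hg
      rw [mem_mv] at hg ⊢
      intro x hx
      rw [mem_tr, hS', Finset.mem_filter] at hx
      rw [hE', Finset.mem_filter]
      refine ⟨hg ((mem_tr _ _ _).mpr hx.1), ?_⟩
      have := hx.2
      rwa [hinv] at this
    exact_mod_cast this
  refine h4.trans (h1.trans ?_)
  apply mul_le_mul_of_nonneg_left _ (Nat.cast_nonneg _)
  rw [← Finset.prod_sdiff (Finset.filter_subset (fun x => 1536 * (L : ℝ) * w x ≤ 1) S₀)]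
  have hpos : ∀ S : Finset ι, 0 ≤ ∏ x ∈ S, (1536 * (L : ℝ) * w x) := fun S =>
    Finset.prod_nonneg (fun x _ => by
      have := hw x
      positivity)
  apply le_mul_of_one_le_left (hpos _)
  apply Finset.one_le_prod
  intro x hx
  rw [Finset.mem_sdiff, Finset.mem_filter] at hx
  by_contra hcon
  rw [not_le] at hcon
  exact hx.2 ⟨hx.1, hcon.le⟩

end Pool.Agent.W812.EG
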