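import Pool.Agent.W812.EG14
import Pool.Agent.W812.EG16

/-! Vertices together with their out-neighbourhoods. -/

namespace Pool.Agent.W812.EG

open Finset

/-- a vertex and a set of vertices -/
def VN (n : ℕ) := Fin n × Finset (Fin n)

instance (n : ℕ) : Fintype (VN n) := inferInstanceAs (Fintype (Fin n × Finset (Fin n)))

instance (n : ℕ) : DecidableEq (VN n) := inferInstanceAs (DecidableEq (Fin n × Finset (Fin n)))

instance actVN (n : ℕ) : MulAction (Equiv.Perm (Fin n)) (VN n) where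
  smul g x := (g x.1, x.2.image g)
  one_smul x := by
    change ((1 : Equiv.Perm (Fin n)) x.1, x.2.image (1 : Equiv.Perm (Fin n))) = x
    apply Prod.ext
    · rfl
    · ext z
      simp
  mul_smul g h x := by
    change ((g * h) x.1, x.2.image (g * h)) = (g (h x.1), (x.2.image h).image g)
    apply Prod.ext
    · rfl
    · ext z
      simp

variable {n : ℕ}

lemma smulVN_fst (g : Equiv.Perm (Fin n)) (x : VN n) : (g • x).1 = g x.1 := rfl

lemma smulVN_snd (g : Equiv.Perm (Fin n)) (x : VN n) : (g • x).2 = x.2.image g := rfl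

lemma card_smulVN (g : Equiv.Perm (Fin n)) (x : VN n) : (g • x).2.card = x.2.card := by
  rw [smulVN_snd, Finset.card_image_of_injective _ g.injective]

/-- the pairs given by vertices and out-neighbourhoods -/
def Ed (U : Finset (VN n)) : Finset (PP n) :=
  univ.filter (fun e => ∃ x ∈ U, (x.1 = e.1.1 ∧ e.1.2 ∈ x.2) ∨ (x.1 = e.1.2 ∧ e.1.1 ∈ x.2))

lemma mem_Ed (U : Finset (VN n)) (e : PP n) : e ∈ Ed U ↔
    ∃ x ∈ U, (x.1 = e.1.1 ∧ e.1.2 ∈ x.2) ∨ (x.1 = e.1.2 ∧ e.1.1 ∈ x.2) := by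
  simp [Ed]

lemma rel_Ed (U : Finset (VN n)) (a b : Fin n) : Rel (Ed U) a b ↔
    a ≠ b ∧ ∃ x ∈ U, (x.1 = a ∧ b ∈ x.2) ∨ (x.1 = b ∧ a ∈ x.2) := by
  constructor
  · intro h
    refine ⟨h.ne, ?_⟩
    obtain ⟨e, he, h⟩ := h
    obtain ⟨x, hx, h'⟩ := (mem_Ed _ _).mp he
    refine ⟨x, hx, ?_⟩
    rw [Sym2.eq_iff] at h
    rcases h with ⟨h1, h2⟩ | ⟨h1, h2⟩
    · rw [h1, h2] at h'
      exact h'
    · rw [h1, h2] at h'
      exact h'.symm
  · rintro ⟨hne, x, hx, h⟩
    rcases lt_or_gt_of_ne hne with hlt | hlt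
    · exact ⟨⟨(a, b), hlt⟩, (mem_Ed _ _).mpr ⟨x, hx, h⟩, rfl⟩
    · exact ⟨⟨(b, a), hlt⟩, (mem_Ed _ _).mpr ⟨x, hx, h.symm⟩, Sym2.eq_swap⟩

lemma Ed_tr (g : Equiv.Perm (Fin n)) (U : Finset (VN n)) : Ed (tr g U) = tr g (Ed U) := by
  apply eq_of_rel
  intro u v
  obtain ⟨a, rfl⟩ := g.surjective u
  obtain ⟨b, rfl⟩ := g.surjective v
  rw [rel_tr, rel_Ed, rel_Ed]
  constructor
  · rintro ⟨hne, x, hx, h⟩
    refine ⟨fun h' => hne (by rw [h']), g⁻¹ • x, (mem_tr _ _ _).mp hx, ?_⟩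
    have e1 : x = g • (g⁻¹ • x) := by simp
    rw [e1, smulVN_fst, smulVN_snd] at h
    rcases h with ⟨h1, h2⟩ | ⟨h1, h2⟩
    · left
      refine ⟨g.injective h1, ?_⟩
      obtain ⟨c, hc, hcb⟩ := Finset.mem_image.mp h2
      rwa [g.injective hcb] at hc
    · right
      refine ⟨g.injective h1, ?_⟩
      obtain ⟨c, hc, hcb⟩ := Finset.mem_image.mp h2
      rwa [g.injective hcb] at hc
  · rintro ⟨hne, x, hx, h⟩
    refine ⟨fun h' => hne (g.injective h'), g • x, ?_, ?_⟩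
    · rw [mem_tr]
      simpa using hx
    · rw [smulVN_fst, smulVN_snd]
      rcases h with ⟨h1, h2⟩ | ⟨h1, h2⟩
      · exact Or.inl ⟨by rw [h1], Finset.mem_image_of_mem _ h2⟩
      · exact Or.inr ⟨by rw [h1], Finset.mem_image_of_mem _ h2⟩

lemma card_orb_Ed (U : Finset (VN n)) :
    (orb (Equiv.Perm (Fin n)) (Ed U)).card ≤ (orb (Equiv.Perm (Fin n)) U).card := by
  classical
  have : orb (Equiv.Perm (Fin n)) (Ed U) ⊆ (orb (Equiv.Perm (Fin n)) U).image Ed := by
    intro V hV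
    obtain ⟨g, rfl⟩ := (mem_orb _ _).mp hV
    exact Finset.mem_image.mpr ⟨tr g U, (mem_orb _ _).mpr ⟨g, rfl⟩, Ed_tr g U⟩
  exact (Finset.card_le_card this).trans Finset.card_image_le

open Classical in
/-- the neighbours of larger rank -/
noncomputable def nbp (r : Fin n → ℕ) (A : Finset (PP n)) (u : Fin n) : Finset (Fin n) :=
  univ.filter (fun w => Rel A u w ∧ r u < r w)

lemma mem_nbp (r : Fin n → ℕ) (A : Finset (PP n)) (u w : Fin n) :
    w ∈ nbp r A u ↔ Rel A u w ∧ r u < r w := by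
  classical
  simp [nbp]

/-- the vertices in `V` with their out-neighbourhoods -/
noncomputable def lft (r : Fin n → ℕ) (A : Finset (PP n)) (V : Finset (Fin n)) : Finset (VN n) :=
  V.image (fun u => ((u, nbp r A u) : Fin n × Finset (Fin n)))

lemma mem_lft (r : Fin n → ℕ) (A : Finset (PP n)) (V : Finset (Fin n)) (x : VN n) :
    x ∈ lft r A V ↔ x.1 ∈ V ∧ x.2 = nbp r A x.1 := by
  unfold lft
  rw [Finset.mem_image]
  constructor
  · rintro ⟨u, hu, rfl⟩
    exact ⟨hu, rfl⟩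
  · rintro ⟨h1, h2⟩
    exact ⟨x.1, h1, Prod.ext rfl h2.symm⟩

lemma Ed_lft_subset (r : Fin n → ℕ) (A : Finset (PP n)) (V : Finset (Fin n))
    (U : Finset (VN n)) (hU : U ⊆ lft r A V) : Ed U ⊆ A := by
  intro e he
  obtain ⟨x, hx, h⟩ := (mem_Ed _ _).mp he
  obtain ⟨_, h2⟩ := (mem_lft _ _ _ _).mp (hU hx)
  rw [h2] at h
  rcases h with ⟨a, b⟩ | ⟨a, b⟩
  · obtain ⟨⟨e', he', hs⟩, _⟩ := (mem_nbp _ _ _ _).mp b
    rw [a] at hs
    rwa [← pp_ext hs]
  · obtain ⟨⟨e', he', hs⟩, _⟩ := (mem_nbp _ _ _ _).mp b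
    rw [a] at hs
    rwa [← pp_ext (hs.trans Sym2.eq_swap)]

/-- each pair is counted once -/
lemma sum_card_le_Ed (r : Fin n → ℕ) (A : Finset (PP n)) (V : Finset (Fin n))
    (U : Finset (VN n)) (hU : U ⊆ lft r A V) : ∑ x ∈ U, x.2.card ≤ (Ed U).card := by
  classical
  rw [← Finset.card_sigma]
  have hch : ∀ y : (Σ _ : VN n, Fin n), y ∈ U.sigma (fun x => x.2) →
      ∃ e ∈ Ed U, s(e.1.1, e.1.2) = s(y.1.1, y.2) := by
    rintro ⟨x, w⟩ hy
    rw [Finset.mem_sigma] at hy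
    obtain ⟨hx, hw⟩ := hy
    simp only at hx hw
    have h2 := ((mem_lft _ _ _ _).mp (hU hx)).2
    have hw' := hw
    rw [h2] at hw'
    have hne : x.1 ≠ w := ((mem_nbp _ _ _ _).mp hw').1.ne
    exact (rel_Ed U x.1 w).mpr ⟨hne, x, hx, Or.inl ⟨rfl, hw⟩⟩
  rcases (U.sigma (fun x => x.2)).eq_empty_or_nonempty with hem | ⟨y₀, hy₀⟩
  · rw [hem, Finset.card_empty]
    exact Nat.zero_le _
  have : Nonempty (PP n) := ⟨(hch y₀ hy₀).choose⟩
  choose! f hf using hch
  apply Finset.card_le_card_of_injOn f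
  · intro y hy
    exact (hf y hy).1
  · rintro ⟨x, w⟩ hy ⟨x', w'⟩ hy' heq
    rw [Finset.mem_coe] at hy hy'
    have e1 := (hf _ hy).2
    have e2 := (hf _ hy').2
    rw [heq, e2] at e1
    simp only at e1
    rw [Finset.mem_sigma] at hy hy'
    simp only at hy hy'
    have a1 := (mem_lft _ _ _ _).mp (hU hy.1)
    have a2 := (mem_lft _ _ _ _).mp (hU hy'.1)
    have b1 : w ∈ nbp r A x.1 := by rw [← a1.2]; exact hy.2
    have b2 : w' ∈ nbp r A x'.1 := by rw [← a2.2]; exact hy'.2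
    have c1 := ((mem_nbp _ _ _ _).mp b1).2
    have c2 := ((mem_nbp _ _ _ _).mp b2).2
    rw [Sym2.eq_iff] at e1
    rcases e1 with ⟨h1, h2⟩ | ⟨h1, h2⟩
    · have hx : x = x' := by
        apply Prod.ext
        · exact h1.symm
        · rw [a1.2, a2.2, h1]
      subst hx
      rw [h2]
    · exfalso
      rw [h1, h2] at c2
      omega

/-- the lifted set satisfies the condition of the weighted spread theorem -/
lemma horb_lft (E : Finset (PP n)) (p : ℝ) (hp : 0 < p) (hp1 : p ≤ 1)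
    (horb : ∀ U ⊆ E, 1 ≤ ((orb (Equiv.Perm (Fin n)) U).card : ℝ) * p ^ U.card)
    (r : Fin n → ℕ) (A : Finset (PP n)) (hA : A ⊆ E) (V : Finset (Fin n))
    (U : Finset (VN n)) (hU : U ⊆ lft r A V) :
    1 ≤ ((orb (Equiv.Perm (Fin n)) U).card : ℝ) * ∏ x ∈ U, p ^ x.2.card := by
  have h1 := horb (Ed U) ((Ed_lft_subset r A V U hU).trans hA)
  rw [Finset.prod_pow_eq_pow_sum]
  refine h1.trans ?_
  apply mul_le_mul _ _ (by positivity) (by positivity)
  · exact_mod_cast card_orb_Ed U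
  · exact pow_le_pow_of_le_one hp.le hp1 (sum_card_le_Ed r A V U hU)

/-- a rank function with few neighbours of larger rank -/
lemma exists_rank (E : Finset (PP n)) (d : ℕ)
    (hd : ∀ W : Finset (Fin n), W.Nonempty → ∃ y ∈ W, (nbS E (W.erase y) y).card ≤ d) :
    ∀ m : ℕ, ∀ W : Finset (Fin n), W.card = m → ∃ r : Fin n → ℕ, Set.InjOn r (W : Set (Fin n)) ∧
      ∀ u ∈ W, ((nbS E W u).filter (fun w => r u < r w)).card ≤ d := by
  classical
  intro m
  induction m with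
  | zero =>
    intro W hW
    rw [Finset.card_eq_zero] at hW
    subst hW
    exact ⟨fun _ => 0, by simp, by simp⟩
  | succ m ih =>
    intro W hW
    obtain ⟨y, hy, hyd⟩ := hd W (Finset.card_pos.mp (by omega))
    obtain ⟨r, hr1, hr2⟩ := ih (W.erase y) (by rw [Finset.card_erase_of_mem hy]; omega)
    refine ⟨fun z => if z = y then 0 else r z + 1, ?_, ?_⟩
    · intro a ha b hb hab
      rw [Finset.mem_coe] at ha hb
      simp only at hab
      by_cases h1 : a = y
      · by_cases h2 : b = y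
        · rw [h1, h2]
        · rw [if_pos h1, if_neg h2] at hab
          omega
      · by_cases h2 : b = y
        · rw [if_neg h1, if_pos h2] at hab
          omega
        · rw [if_neg h1, if_neg h2] at hab
          apply hr1 _ _ (by omega)
          · exact Finset.mem_coe.mpr (Finset.mem_erase.mpr ⟨h1, ha⟩)
          · exact Finset.mem_coe.mpr (Finset.mem_erase.mpr ⟨h2, hb⟩)
    · intro u hu
      by_cases h1 : u = y
      · subst h1
        refine le_trans (Finset.card_le_card ?_) hyd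
        intro w hw
        rw [Finset.mem_filter, mem_nbS] at hw
        rw [mem_nbS]
        refine ⟨Finset.mem_erase.mpr ⟨?_, hw.1.1⟩, hw.1.2⟩
        rintro rfl
        exact hw.1.2.ne rfl
      · refine le_trans (Finset.card_le_card ?_) (hr2 u (Finset.mem_erase.mpr ⟨h1, hu⟩))
        intro w hw
        rw [Finset.mem_filter, mem_nbS] at hw
        rw [Finset.mem_filter, mem_nbS]
        obtain ⟨⟨hwW, hrel⟩, hlt⟩ := hw
        simp only at hlt
        rw [if_neg h1] at hlt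
        by_cases h2 : w = y
        · rw [if_pos h2] at hlt
          omega
        · rw [if_neg h2] at hlt
          exact ⟨⟨Finset.mem_erase.mpr ⟨h2, hwW⟩, hrel⟩, by omega⟩

/-- sparse sets of pairs have such a rank function -/
lemma exists_rank_of_sparse (E : Finset (PP n)) (k₁ : ℕ)
    (hs : ∀ W : Finset (Fin n), W.Nonempty → (ins E W).card < 2 * k₁ * W.card) :
    ∃ r : Fin n → ℕ, Function.Injective r ∧ ∀ u, (nbp r E u).card ≤ 4 * k₁ := by
  classical
  obtain ⟨r, hr1, hr2⟩ := exists_rank E (4 * k₁) (by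
    intro W hW
    by_contra hcon
    push Not at hcon
    have h1 := sum_deg_le E W
    have h2 : W.card * (4 * k₁) ≤ ∑ y ∈ W, (nbS E (W.erase y) y).card := by
      rw [← smul_eq_mul]
      exact Finset.card_nsmul_le_sum W _ _ (fun y hy => (hcon y hy).le)
    have h3 := hs W hW
    nlinarith) n univ (by simp)
  refine ⟨r, fun a b hab => hr1 (by simp) (by simp) hab, fun u => ?_⟩
  refine le_trans (Finset.card_le_card ?_) (hr2 u (mem_univ u))
  intro w hw
  rw [mem_nbp] at hw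
  rw [Finset.mem_filter, mem_nbS]
  exact ⟨⟨mem_univ _, hw.1⟩, hw.2⟩

/-- balanced sets of pairs are sparse -/
lemma sparse_of_orb (E : Finset (PP n)) (p : ℝ) (hp : 0 < p) (hp1 : p < 1)
    (horb : ∀ U ⊆ E, 1 ≤ ((orb (Equiv.Perm (Fin n)) U).card : ℝ) * p ^ U.card)
    (k₁ : ℕ) (hk : (n : ℝ) * p ^ (2 * k₁) < 1) (W : Finset (Fin n)) (hW : W.Nonempty) :
    (ins E W).card < 2 * k₁ * W.card := by
  classical
  have hn : 0 < n := by
    obtain ⟨w, _⟩ := hW
    exact Nat.lt_of_le_of_lt (Nat.zero_le _) w.2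
  have hnr : (0 : ℝ) < n := by exact_mod_cast hn
  have h1 := horb (ins E W) (Finset.filter_subset _ _)
  have h2 := orb_mul_sym_le (Y := W) (fun y => (y : Fin n)) Subtype.val_injective (ins E W) (by
    rintro u v ⟨e, he, h⟩
    unfold ins at he
    rw [Finset.mem_filter] at he
    rw [Sym2.eq_iff] at h
    rcases h with ⟨a, _⟩ | ⟨_, b⟩
    · exact ⟨⟨e.1.1, he.2.1⟩, a⟩
    · exact ⟨⟨e.1.2, he.2.2⟩, b⟩) {1} (by
    intro σ hσ x y
    rw [Finset.mem_singleton] at hσ
    subst hσ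
    rfl)
  rw [Finset.card_singleton, mul_one, Fintype.card_coe] at h2
  have h3 : 1 ≤ (n : ℝ) ^ W.card * p ^ (ins E W).card := by
    refine h1.trans (mul_le_mul_of_nonneg_right ?_ (by positivity))
    exact_mod_cast h2
  have h4 : (n : ℝ) ^ W.card * p ^ (2 * k₁ * W.card) < (n : ℝ) ^ W.card * p ^ (ins E W).card := by
    have h5 : ((n : ℝ) * p ^ (2 * k₁)) ^ W.card < 1 :=
      pow_lt_one₀ (by positivity) hk (Finset.card_pos.mpr hW).ne'
    calc (n : ℝ) ^ W.card * p ^ (2 * k₁ * W.card) = ((n : ℝ) * p ^ (2 * k₁)) ^ W.card := by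
          rw [mul_pow, ← pow_mul]
      _ < 1 := h5
      _ ≤ _ := h3
  have h6 : p ^ (2 * k₁ * W.card) < p ^ (ins E W).card :=
    lt_of_mul_lt_mul_left h4 (by positivity)
  exact (pow_lt_pow_iff_right_of_lt_one₀ hp hp1).mp h6

end Pool.Agent.W812.EG
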