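import Pool.Agent.W812.EG1

/-! The orbit of a set all of whose subsets have many translates is spread. -/

namespace Pool.Agent.W812.EG

open Finset

variable {G ι : Type*} [Group G] [Fintype G] [Fintype ι] [DecidableEq ι] [MulAction G ι]

omit [Fintype ι] in
/-- Double counting step: many tuples have a large union. -/
lemma many_large (S T : Finset ι) (J : ℕ) (hT : 0 < T.card)
    (hdrop : ∀ g ∈ T, (av G S (T.erase g) : ℝ) ^ J ≤ (av G S T : ℝ) ^ J / 4) :
    (av G S T : ℝ) ^ J / 2 ≤
      ∑ U ∈ T.powerset.filter (fun U => T.card ≤ 2 * U.card), ((tup G J S U).card : ℝ) := by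
  classical
  let P : Finset (Fin J → G) := Fintype.piFinset (fun _ : Fin J => mv G S T)
  have hPmem : ∀ ω, ω ∈ P ↔ un ω S ⊆ T := by
    intro ω
    simp only [P, Fintype.mem_piFinset, mem_mv, un, Finset.biUnion_subset, mem_univ, true_imp_iff]
  have hPcard : P.card = av G S T ^ J := by
    simp only [P, Fintype.card_piFinset, Finset.prod_const, Finset.card_univ, Fintype.card_fin]
    rfl
  have hmiss : ∀ g ∈ T, (P.filter (fun ω => g ∉ un ω S)).card = av G S (T.erase g) ^ J := by
    intro g _
    have : P.filter (fun ω => g ∉ un ω S) =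
        Fintype.piFinset (fun _ : Fin J => mv G S (T.erase g)) := by
      ext ω
      rw [Finset.mem_filter, hPmem, Fintype.mem_piFinset]
      constructor
      · rintro ⟨h1, h2⟩ j
        rw [mem_mv]
        intro x hx
        have hxu : x ∈ un ω S := Finset.mem_biUnion.mpr ⟨j, mem_univ _, hx⟩
        rw [Finset.mem_erase]
        exact ⟨fun hxg => h2 (hxg ▸ hxu), h1 hxu⟩
      · intro h
        constructor
        · intro x hx
          obtain ⟨j, _, hj⟩ := Finset.mem_biUnion.mp hx
          exact Finset.mem_of_mem_erase ((mem_mv _ _ _).mp (h j) hj)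
        · intro hx
          obtain ⟨j, _, hj⟩ := Finset.mem_biUnion.mp hx
          exact Finset.notMem_erase g T ((mem_mv _ _ _).mp (h j) hj)
    rw [this]
    simp only [Fintype.card_piFinset, Finset.prod_const, Finset.card_univ, Fintype.card_fin]
    rfl
  have hsum : ∑ ω ∈ P, ((T \ un ω S).card : ℝ) ≤ T.card * ((av G S T : ℝ) ^ J / 4) := by
    have h1 : ∑ ω ∈ P, (T \ un ω S).card = ∑ g ∈ T, (P.filter (fun ω => g ∉ un ω S)).card := by
      simp only [Finset.card_eq_sum_ones, Finset.sum_filter, Finset.sdiff_eq_filter]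
      exact Finset.sum_comm
    have h2 : ∑ ω ∈ P, ((T \ un ω S).card : ℝ) =
        ∑ g ∈ T, ((P.filter (fun ω => g ∉ un ω S)).card : ℝ) := by
      exact_mod_cast h1
    rw [h2]
    calc _ ≤ ∑ g ∈ T, (av G S T : ℝ) ^ J / 4 := by
          apply Finset.sum_le_sum
          intro g hg
          rw [hmiss g hg]
          push_cast
          exact hdrop g hg
      _ = _ := by rw [Finset.sum_const, nsmul_eq_mul]
  let Bad := P.filter (fun ω => 2 * (un ω S).card < T.card)
  let Good := P.filter (fun ω => ¬ 2 * (un ω S).card < T.card)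
  have hBG : Bad.card + Good.card = P.card := Finset.card_filter_add_card_filter_not _
  have hT' : (0 : ℝ) < T.card := by exact_mod_cast hT
  have hbad : (Bad.card : ℝ) ≤ (av G S T : ℝ) ^ J / 2 := by
    have h1 : (Bad.card : ℝ) * (T.card / 2) ≤ ∑ ω ∈ P, ((T \ un ω S).card : ℝ) := by
      calc (Bad.card : ℝ) * (T.card / 2) = ∑ ω ∈ Bad, ((T.card : ℝ) / 2) := by
            rw [Finset.sum_const, nsmul_eq_mul]
        _ ≤ ∑ ω ∈ Bad, ((T \ un ω S).card : ℝ) := by
            apply Finset.sum_le_sum
            intro ω hω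
            obtain ⟨h1, h2⟩ := Finset.mem_filter.mp hω
            have h3 := (hPmem ω).mp h1
            have h4 := Finset.card_sdiff_add_card_eq_card h3
            have h5 : T.card ≤ 2 * (T \ un ω S).card := by omega
            have h6 : (T.card : ℝ) ≤ 2 * ((T \ un ω S).card : ℝ) := by exact_mod_cast h5
            linarith
        _ ≤ _ := by
            apply Finset.sum_le_sum_of_subset_of_nonneg (Finset.filter_subset _ _)
            intro _ _ _
            positivity
    have h2 := h1.trans hsum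
    have h3 : (Bad.card : ℝ) * T.card ≤ (av G S T : ℝ) ^ J / 2 * T.card := by linarith
    exact le_of_mul_le_mul_right h3 hT'
  have hgood : (av G S T : ℝ) ^ J / 2 ≤ Good.card := by
    have : (Bad.card : ℝ) + Good.card = (av G S T : ℝ) ^ J := by
      have := hBG
      rw [hPcard] at this
      exact_mod_cast this
    linarith
  refine hgood.trans ?_
  have hsub : Good ⊆ (T.powerset.filter (fun U => T.card ≤ 2 * U.card)).biUnion
      (fun U => tup G J S U) := by
    intro ω hω
    obtain ⟨h1, h2⟩ := Finset.mem_filter.mp hω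
    rw [Finset.mem_biUnion]
    refine ⟨un ω S, ?_, (mem_tup _ _ _ _).mpr rfl⟩
    rw [Finset.mem_filter, Finset.mem_powerset]
    exact ⟨(hPmem ω).mp h1, not_lt.mp h2⟩
  have h3 := (Finset.card_le_card hsub).trans Finset.card_biUnion_le
  exact_mod_cast h3

/-- The spread theorem. -/
theorem spread (E : Finset ι) (p : ℝ) (hp : 0 < p) (L : ℕ) (hL : 1 ≤ L) (hE : E.card ≤ 2 ^ L)
    (horb : ∀ U ⊆ E, 1 ≤ ((orb G U).card : ℝ) * p ^ U.card)
    (S₀ : Finset ι) : (av G S₀ E : ℝ) ≤ Fintype.card G * (1536 * L * p) ^ S₀.card := by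
  classical
  by_contra hcon
  rw [not_le] at hcon
  have hN : (0 : ℝ) < Fintype.card G := by exact_mod_cast Fintype.card_pos
  have hLr : (1 : ℝ) ≤ L := by exact_mod_cast hL
  set N : ℝ := ((Fintype.card G : ℕ) : ℝ) with hNdef
  set A : ℝ := 1536 * L with hA
  have hA0 : 0 < A := by positivity
  have hAp : 0 < A * p := by positivity
  -- S₀ is nonempty
  have hS₀ : S₀.Nonempty := by
    rw [Finset.nonempty_iff_ne_empty]
    rintro rfl
    rw [av_empty_left, Finset.card_empty, pow_zero, mul_one] at hcon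
    exact lt_irrefl _ hcon
  -- the density 256 p is at most one
  have hq1 : 256 * p ≤ 1 := by
    by_contra hq
    rw [not_le] at hq
    have h1 : 1 ≤ A * p := by
      have : 256 * p * 1 ≤ A * p := by
        rw [hA]
        nlinarith
      linarith
    have h2 : 1 ≤ (A * p) ^ S₀.card := one_le_pow₀ h1
    have h3 : (av G S₀ E : ℝ) ≤ N := by
      rw [hNdef]
      exact_mod_cast av_le (G := G) S₀ E
    nlinarith
  have hav0 : (0 : ℝ) < av G S₀ E := lt_of_le_of_lt (by positivity) hcon
  have hEpos : 0 < E.card := by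
    have h1 : 0 < av G S₀ E := by exact_mod_cast hav0
    have := card_le_of_av_pos S₀ E h1
    have := Finset.card_pos.mpr hS₀
    omega
  have hEr : (0 : ℝ) < E.card := by exact_mod_cast hEpos
  -- the potential
  let R : Finset ι → Finset ι → ℝ := fun S T => (av G S T : ℝ) / (N * (A * p) ^ S.card)
  let Ψ : Finset ι → Finset ι → ℝ := fun S T => R S T ^ L * ((E.card : ℝ) / T.card) ^ S.card
  have hR0 : ∀ S T, 0 ≤ R S T := fun S T => by positivity
  obtain ⟨⟨S, T⟩, hST, hmax⟩ := Finset.exists_max_image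
    (((univ : Finset (Finset ι)).filter (fun S => S.Nonempty)) ×ˢ
      (E.powerset.filter (fun T => T.Nonempty))) (fun x => Ψ x.1 x.2)
    ⟨(S₀, E), by
      rw [Finset.mem_product, Finset.mem_filter, Finset.mem_filter, Finset.mem_powerset]
      exact ⟨⟨mem_univ _, hS₀⟩, Finset.Subset.refl _, Finset.card_pos.mp hEpos⟩⟩
  rw [Finset.mem_product, Finset.mem_filter, Finset.mem_filter, Finset.mem_powerset] at hST
  obtain ⟨⟨-, hSne⟩, hTE, hTne⟩ := hST
  simp only at hSne hTE hTne
  have hmax' : ∀ S' T', S'.Nonempty → T' ⊆ E → T'.Nonempty → Ψ S' T' ≤ Ψ S T := by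
    intro S' T' h1 h2 h3
    exact hmax (S', T') (by
      rw [Finset.mem_product, Finset.mem_filter, Finset.mem_filter, Finset.mem_powerset]
      exact ⟨⟨mem_univ _, h1⟩, h2, h3⟩)
  have hΨ1 : 1 ≤ Ψ S T := by
    refine le_trans ?_ (hmax' S₀ E hS₀ (Finset.Subset.refl _) (Finset.card_pos.mp hEpos))
    have h1 : 1 ≤ R S₀ E := by
      simp only [R]
      rw [le_div_iff₀ (by positivity), one_mul]
      exact hcon.le
    simp only [Ψ]
    rw [div_self hEr.ne', one_pow, mul_one]
    exact one_le_pow₀ h1
  set e := S.card with he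
  set h := T.card with hh
  have he1 : 1 ≤ e := Finset.card_pos.mpr hSne
  have hh1 : 1 ≤ h := Finset.card_pos.mpr hTne
  have hhr : (1 : ℝ) ≤ h := by exact_mod_cast hh1
  have hhr0 : (0 : ℝ) < h := by linarith
  have ha0 : (0 : ℝ) < av G S T := by
    rcases Nat.eq_zero_or_pos (av G S T) with h0 | h0
    · exfalso
      have : Ψ S T = 0 := by
        simp only [Ψ, R, h0, Nat.cast_zero, zero_div]
        rw [zero_pow (by omega), zero_mul]
      linarith
    · exact_mod_cast h0
  have heh : e ≤ h := card_le_of_av_pos S T (by exact_mod_cast ha0)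
  set a : ℝ := (av G S T : ℝ) with ha
  -- (ii)
  set x : ℝ := (E.card : ℝ) / h with hx
  have hx0 : 0 < x := by positivity
  have hx2 : x ≤ 2 ^ L := by
    rw [hx, div_le_iff₀ hhr0]
    have h1 : (E.card : ℝ) ≤ 2 ^ L := by exact_mod_cast hE
    have h2 : (0 : ℝ) < 2 ^ L := by positivity
    nlinarith
  have hii : ∀ K ⊆ S, R K T ≤ R S T * 2 ^ (e - K.card) := by
    intro K hK
    have hKe : K.card ≤ e := Finset.card_le_card hK
    have h1 : R K T ^ L * x ^ K.card ≤ R S T ^ L * x ^ e := by
      rcases K.eq_empty_or_nonempty with rfl | hKne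
      · have : R ∅ T = 1 := by
          simp only [R]
          rw [av_empty_left, Finset.card_empty, pow_zero, mul_one]
          exact div_self hN.ne'
        rw [this, one_pow, Finset.card_empty, pow_zero, mul_one]
        exact hΨ1
      · exact hmax' K T hKne hTE hTne
    have h2 : x ^ e = x ^ (e - K.card) * x ^ K.card := by
      rw [← pow_add]
      congr 1
      omega
    rw [h2, ← mul_assoc] at h1
    have h3 : R K T ^ L ≤ R S T ^ L * x ^ (e - K.card) :=
      le_of_mul_le_mul_right h1 (by positivity)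
    have h4 : R K T ^ L ≤ (R S T * 2 ^ (e - K.card)) ^ L := by
      refine h3.trans ?_
      rw [mul_pow]
      apply mul_le_mul_of_nonneg_left _ (pow_nonneg (hR0 S T) L)
      calc x ^ (e - K.card) ≤ (2 ^ L) ^ (e - K.card) := pow_le_pow_left₀ hx0.le hx2 _
        _ = (2 ^ (e - K.card)) ^ L := by rw [← pow_mul, ← pow_mul, mul_comm]
    exact (pow_le_pow_iff_left₀ (hR0 K T) (mul_nonneg (hR0 S T) (by positivity)) (by omega)).mp h4
  -- (i)
  have hi : ∀ g ∈ T, (av G S (T.erase g) : ℝ) ^ L ≤ a ^ L * (((h : ℝ) - 1) / h) ^ e := by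
    intro g hg
    have hcard : (T.erase g).card = h - 1 := by rw [Finset.card_erase_of_mem hg]
    rcases Nat.lt_or_ge h 2 with h2 | h2
    · have hem : T.erase g = ∅ := by
        rw [← Finset.card_eq_zero, hcard]
        omega
      rw [hem, av_right_empty S hSne, Nat.cast_zero, zero_pow (by omega)]
      apply mul_nonneg (by positivity)
      apply pow_nonneg
      apply div_nonneg (by linarith) hhr0.le
    · have hne : (T.erase g).Nonempty := by
        rw [← Finset.card_pos, hcard]
        omega
      have h3 := hmax' S (T.erase g) hSne ((Finset.erase_subset _ _).trans hTE) hne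
      simp only [Ψ, R] at h3
      rw [hcard, ← ha, ← hh, ← he] at h3
      have hcast : ((h - 1 : ℕ) : ℝ) = (h : ℝ) - 1 := by
        rw [Nat.cast_sub hh1]
        simp
      rw [hcast] at h3
      have hh2 : (0 : ℝ) < (h : ℝ) - 1 := by
        have : (2 : ℝ) ≤ h := by exact_mod_cast h2
        linarith
      have hD : 0 < (N * (A * p) ^ e) := by positivity
      rw [div_pow, div_pow, div_pow, div_pow] at h3
      have h4 : (av G S (T.erase g) : ℝ) ^ L * (((E.card : ℝ) ^ e) /
          ((N * (A * p) ^ e) ^ L * ((h : ℝ) - 1) ^ e)) ≤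
          a ^ L * (((E.card : ℝ) ^ e) / ((N * (A * p) ^ e) ^ L * (h : ℝ) ^ e)) := by
        calc _ = (av G S (T.erase g) : ℝ) ^ L / (N * (A * p) ^ e) ^ L *
              ((E.card : ℝ) ^ e / ((h : ℝ) - 1) ^ e) := by
              field_simp
          _ ≤ _ := h3
          _ = _ := by
              field_simp
      have h5 := mul_le_mul_of_nonneg_right h4
        (show 0 ≤ (N * (A * p) ^ e) ^ L * ((h : ℝ) - 1) ^ e / (E.card : ℝ) ^ e by positivity)
      calc (av G S (T.erase g) : ℝ) ^ L = (av G S (T.erase g) : ℝ) ^ L * (((E.card : ℝ) ^ e) /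
          ((N * (A * p) ^ e) ^ L * ((h : ℝ) - 1) ^ e)) *
          ((N * (A * p) ^ e) ^ L * ((h : ℝ) - 1) ^ e / (E.card : ℝ) ^ e) := by
            field_simp
        _ ≤ _ := h5
        _ = _ := by
            rw [div_pow]
            field_simp
  -- the numbers of stages
  obtain ⟨j, hj1, hj2⟩ : ∃ j : ℕ, 2 * h ≤ e * j ∧ e * j ≤ 3 * h := by
    refine ⟨(2 * h + (e - 1)) / e, ?_, ?_⟩
    · have h1 := Nat.div_add_mod (2 * h + (e - 1)) e
      have h2 := Nat.mod_lt (2 * h + (e - 1)) (show e > 0 by omega)
      omega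
    · have h1 := Nat.mul_div_le (2 * h + (e - 1)) e
      omega
  set J := L * j with hJ
  have hexp4 : Real.exp (-2) ≤ 1 / 4 := by
    have h1 : (4 : ℝ) ≤ Real.exp 2 := by
      have h2 : (2 : ℝ) ≤ Real.exp 1 := by
        have := Real.add_one_le_exp (1 : ℝ)
        linarith
      have h3 : Real.exp 2 = Real.exp 1 * Real.exp 1 := by
        rw [← Real.exp_add]; norm_num
      rw [h3]
      nlinarith
    rw [Real.exp_neg]
    rw [inv_le_comm₀ (Real.exp_pos _) (by norm_num)]
    norm_num
    exact h1
  have hdrop : ∀ g ∈ T, (av G S (T.erase g) : ℝ) ^ J ≤ a ^ J / 4 := by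
    intro g hg
    have h0 : (0 : ℝ) ≤ ((h : ℝ) - 1) / h := div_nonneg (by linarith) hhr0.le
    have h1 : ((h : ℝ) - 1) / h ≤ Real.exp (-(1 / h)) := by
      have := Real.add_one_le_exp (-(1 / (h : ℝ)))
      have h2 : ((h : ℝ) - 1) / h = -(1 / h) + 1 := by
        field_simp
        ring
      rw [h2]
      exact this
    have h2 : (((h : ℝ) - 1) / h) ^ (e * j) ≤ 1 / 4 := by
      calc (((h : ℝ) - 1) / h) ^ (e * j) ≤ Real.exp (-(1 / h)) ^ (e * j) :=
            pow_le_pow_left₀ h0 h1 _
        _ = Real.exp (((e * j : ℕ) : ℝ) * (-(1 / h))) := (Real.exp_nat_mul _ _).symm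
        _ ≤ Real.exp (-2) := by
            apply Real.exp_le_exp.mpr
            have h3 : (2 : ℝ) * h ≤ ((e * j : ℕ) : ℝ) := by exact_mod_cast hj1
            have h4 : ((e * j : ℕ) : ℝ) * (-(1 / h)) = -(((e * j : ℕ) : ℝ) / h) := by ring
            rw [h4, neg_le_neg_iff, le_div_iff₀ hhr0]
            exact h3
        _ ≤ 1 / 4 := hexp4
    calc (av G S (T.erase g) : ℝ) ^ J = ((av G S (T.erase g) : ℝ) ^ L) ^ j := by
          rw [hJ, pow_mul]
      _ ≤ (a ^ L * (((h : ℝ) - 1) / h) ^ e) ^ j := pow_le_pow_left₀ (by positivity) (hi g hg) _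
      _ = a ^ J * (((h : ℝ) - 1) / h) ^ (e * j) := by
          rw [mul_pow, ← pow_mul, ← pow_mul]
      _ ≤ a ^ J * (1 / 4) := mul_le_mul_of_nonneg_left h2 (by positivity)
      _ = a ^ J / 4 := by ring
  have hmany := many_large (G := G) S T J (by omega) hdrop
  -- weights
  have hf : fw G (256 * p) S T ≤ a * (1 + 1 / (3 * L)) ^ e := by
    refine (fw_le (256 * p) (by positivity) S T).trans ?_
    calc ∑ K ∈ S.powerset, (av G K T : ℝ) * (256 * p) ^ (S.card - K.card)
        ≤ ∑ K ∈ S.powerset, a * (1 ^ K.card * (1 / (3 * L)) ^ (e - K.card)) := by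
          apply Finset.sum_le_sum
          intro K hK
          rw [Finset.mem_powerset] at hK
          have hKe : K.card ≤ e := Finset.card_le_card hK
          have h1 := hii K hK
          simp only [R] at h1
          have h2 : (A * p) ^ e = (A * p) ^ (e - K.card) * (A * p) ^ K.card := by
            rw [← pow_add]
            congr 1
            omega
          have h3 : (av G K T : ℝ) * (A * p) ^ (e - K.card) ≤ a * 2 ^ (e - K.card) := by
            have h4 := mul_le_mul_of_nonneg_right h1
              (show 0 ≤ N * (A * p) ^ e by positivity)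
            calc (av G K T : ℝ) * (A * p) ^ (e - K.card)
                = (av G K T : ℝ) / (N * (A * p) ^ K.card) * (N * (A * p) ^ e) := by
                  rw [h2]
                  field_simp
              _ ≤ _ := h4
              _ = a * 2 ^ (e - K.card) := by
                  rw [← he, ← ha]
                  field_simp
          rw [one_pow, one_mul, ← he]
          have h5 : (256 * p) ^ (e - K.card) = (A * p) ^ (e - K.card) *
              ((1 / 2) ^ (e - K.card) * (1 / (3 * L)) ^ (e - K.card)) := by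
            rw [← mul_pow, ← mul_pow]
            congr 1
            rw [hA]
            field_simp
            norm_num
          rw [h5, ← mul_assoc]
          calc _ ≤ a * 2 ^ (e - K.card) * ((1 / 2) ^ (e - K.card) * (1 / (3 * L)) ^ (e - K.card)) :=
                mul_le_mul_of_nonneg_right h3 (by positivity)
            _ = a * (((2 : ℝ) ^ (e - K.card) * (1 / 2) ^ (e - K.card)) *
                (1 / (3 * L)) ^ (e - K.card)) := by ring
            _ = _ := by
                rw [← mul_pow]
                norm_num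
      _ = a * (1 + 1 / (3 * L)) ^ e := by
          rw [← Finset.mul_sum, he, Finset.sum_pow_mul_eq_add_pow]
  have hf0 : 0 ≤ fw G (256 * p) S T := Finset.sum_nonneg (fun g _ => by positivity)
  have hfJ : fw G (256 * p) S T ^ J ≤ a ^ J * Real.exp h := by
    have h1 : (1 + 1 / (3 * (L : ℝ))) ≤ Real.exp (1 / (3 * L)) := by
      have := Real.add_one_le_exp (1 / (3 * (L : ℝ)))
      linarith
    calc fw G (256 * p) S T ^ J ≤ (a * (1 + 1 / (3 * L)) ^ e) ^ J := pow_le_pow_left₀ hf0 hf _
      _ = a ^ J * (1 + 1 / (3 * (L : ℝ))) ^ (e * J) := by rw [mul_pow, ← pow_mul]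
      _ ≤ a ^ J * Real.exp (1 / (3 * L)) ^ (e * J) := by
          apply mul_le_mul_of_nonneg_left _ (by positivity)
          exact pow_le_pow_left₀ (by positivity) h1 _
      _ = a ^ J * Real.exp (((e * J : ℕ) : ℝ) * (1 / (3 * L))) := by
          rw [Real.exp_nat_mul]
      _ ≤ a ^ J * Real.exp h := by
          apply mul_le_mul_of_nonneg_left _ (by positivity)
          apply Real.exp_le_exp.mpr
          have h2 : ((e * J : ℕ) : ℝ) = L * ((e * j : ℕ) : ℝ) := by
            rw [hJ]
            push_cast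
            ring
          rw [h2]
          have h3 : ((e * j : ℕ) : ℝ) ≤ 3 * h := by exact_mod_cast hj2
          have h4 : (L : ℝ) * ((e * j : ℕ) : ℝ) * (1 / (3 * L)) = ((e * j : ℕ) : ℝ) / 3 := by
            field_simp
          rw [h4]
          linarith
  -- each large union has few tuples
  have hfew : ∀ U ∈ T.powerset.filter (fun U => T.card ≤ 2 * U.card),
      ((tup G J S U).card : ℝ) ≤ a ^ J * Real.exp h / 16 ^ h := by
    intro U hU
    rw [Finset.mem_filter, Finset.mem_powerset] at hU
    obtain ⟨hUT, hUc⟩ := hU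
    have h1 := orb_mul_tup_le (G := G) (256 * p) (by positivity) hq1 S T U hUT J
    have h2 := horb U (hUT.trans hTE)
    rw [le_div_iff₀ (by positivity)]
    have h3 : (16 : ℝ) ^ h ≤ ((orb G U).card : ℝ) * (256 * p) ^ U.card := by
      calc (16 : ℝ) ^ h ≤ 16 ^ (2 * U.card) := pow_le_pow_right₀ (by norm_num) hUc
        _ = 256 ^ U.card := by rw [pow_mul]; norm_num
        _ = 256 ^ U.card * 1 := by ring
        _ ≤ 256 ^ U.card * (((orb G U).card : ℝ) * p ^ U.card) :=
            mul_le_mul_of_nonneg_left h2 (by positivity)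
        _ = _ := by rw [mul_pow]; ring
    calc ((tup G J S U).card : ℝ) * 16 ^ h ≤
          ((tup G J S U).card : ℝ) * (((orb G U).card : ℝ) * (256 * p) ^ U.card) :=
          mul_le_mul_of_nonneg_left h3 (by positivity)
      _ = ((orb G U).card : ℝ) * (tup G J S U).card * (256 * p) ^ U.card := by ring
      _ ≤ _ := h1
      _ ≤ _ := hfJ
  have hcount : ∑ U ∈ T.powerset.filter (fun U => T.card ≤ 2 * U.card),
      ((tup G J S U).card : ℝ) ≤ 2 ^ h * (a ^ J * Real.exp h / 16 ^ h) := by
    calc _ ≤ ∑ U ∈ T.powerset.filter (fun U => T.card ≤ 2 * U.card),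
          a ^ J * Real.exp h / 16 ^ h := Finset.sum_le_sum hfew
      _ = ((T.powerset.filter (fun U => T.card ≤ 2 * U.card)).card : ℝ) *
          (a ^ J * Real.exp h / 16 ^ h) := by rw [Finset.sum_const, nsmul_eq_mul]
      _ ≤ _ := by
          apply mul_le_mul_of_nonneg_right _ (by positivity)
          have : (T.powerset.filter (fun U => T.card ≤ 2 * U.card)).card ≤ 2 ^ h := by
            refine (Finset.card_filter_le _ _).trans ?_
            rw [Finset.card_powerset]
          exact_mod_cast this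
  have hfin := hmany.trans hcount
  rw [← ha] at hfin
  have haJ : 0 < a ^ J := by positivity
  have h1 : (1 : ℝ) / 2 ≤ 2 ^ h * (Real.exp h / 16 ^ h) := by
    refine le_of_mul_le_mul_left ?_ haJ
    calc a ^ J * (1 / 2) = a ^ J / 2 := by ring
      _ ≤ _ := hfin
      _ = _ := by ring
  have h2 : Real.exp h ≤ 3 ^ h := by
    have h3 : Real.exp (h : ℝ) = Real.exp 1 ^ h := by
      rw [← Real.exp_nat_mul, mul_one]
    rw [h3]
    apply pow_le_pow_left₀ (Real.exp_pos 1).le
    have := Real.exp_one_lt_d9
    linarith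
  have h3 : (16 : ℝ) ^ h = 2 ^ h * 8 ^ h := by
    rw [← mul_pow]; norm_num
  have h4 : (8 : ℝ) ^ h ≤ 2 * 3 ^ h := by
    have h5 : 2 ^ h * (Real.exp h / 16 ^ h) = Real.exp h / 8 ^ h := by
      rw [h3]
      field_simp
    rw [h5, le_div_iff₀ (by positivity)] at h1
    linarith
  have h5 : (8 : ℝ) ^ h = (8 / 3) ^ h * 3 ^ h := by
    rw [← mul_pow]; norm_num
  have h6 : (8 / 3 : ℝ) ≤ (8 / 3) ^ h := by
    calc (8 / 3 : ℝ) = (8 / 3) ^ 1 := by norm_num
      _ ≤ (8 / 3) ^ h := pow_le_pow_right₀ (by norm_num) hh1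
  have h7 : (0 : ℝ) < 3 ^ h := by positivity
  rw [h5] at h4
  nlinarith

end Pool.Agent.W812.EG
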