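import Pool.Agent.W812.EG2
import Pool.Agent.H560R2.Spread2
import Pool.Agent.H362C.Bern

/-! From a spread orbit to a random set containing a translate. -/

namespace Pool.Agent.W812.EG

open Finset Pool.Agent.H560R2 Pool.Agent.H362C

section law

variable {α : Type*} [DecidableEq α]

/-- Two independent random subsets: the law of the union. -/
lemma Ex_cup (a b : ℝ) (U : Finset α) (f : Finset α → ℝ) :
    Ex a U (fun W => Ex b U (fun W' => f (W ∪ W'))) = Ex (a + b - a * b) U f := by
  induction U using Finset.induction_on generalizing f with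
  | empty => simp [Ex_empty]
  | insert x U hx ih =>
    rw [Ex_insert (a + b - a * b) U x hx, Ex_insert a U x hx]
    have h1 : ∀ W, Ex b (insert x U) (fun W' => f (insert x W ∪ W')) =
        Ex b U (fun W' => f (insert x (W ∪ W'))) := by
      intro W
      rw [Ex_insert b U x hx]
      have e1 : ∀ W' : Finset α, insert x W ∪ insert x W' = insert x (W ∪ W') := by
        intro W'
        ext y
        simp only [Finset.mem_union, Finset.mem_insert]
        tauto
      have e2 : ∀ W' : Finset α, insert x W ∪ W' = insert x (W ∪ W') := by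
        intro W'
        ext y
        simp only [Finset.mem_union, Finset.mem_insert]
        tauto
      simp only [e1, e2]
      ring
    have h2 : ∀ W, Ex b (insert x U) (fun W' => f (W ∪ W')) =
        b * Ex b U (fun W' => f (insert x (W ∪ W'))) + (1 - b) * Ex b U (fun W' => f (W ∪ W')) := by
      intro W
      rw [Ex_insert b U x hx]
      have e1 : ∀ W' : Finset α, W ∪ insert x W' = insert x (W ∪ W') := by
        intro W'
        ext y
        simp only [Finset.mem_union, Finset.mem_insert]
        tauto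
      simp only [e1]
    simp only [h1, h2]
    rw [Ex_add, Ex_mul_left, Ex_mul_left]
    have i1 := ih (fun W => f (insert x W))
    have i2 := ih f
    rw [i1, i2]
    ring

lemma Ex_zero (U : Finset α) (f : Finset α → ℝ) : Ex 0 U f = f ∅ := by
  induction U using Finset.induction_on generalizing f with
  | empty => simp [Ex_empty]
  | insert x U hx ih =>
    rw [Ex_insert 0 U x hx, ih f]
    ring

lemma Ex_map {β : Type*} [DecidableEq β] (φ : α ↪ β) (p : ℝ) (U : Finset α)
    (f : Finset β → ℝ) : Ex p (U.map φ) f = Ex p U (fun W => f (W.map φ)) := by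
  induction U using Finset.induction_on generalizing f with
  | empty => simp [Ex_empty]
  | insert x U hx ih =>
    rw [Finset.map_insert, Ex_insert p (U.map φ) (φ x) (by simpa using hx), ih, ih,
      Ex_insert p U x hx]
    simp only [Finset.map_insert]

end law

section

variable {ι : Type*} [Fintype ι] [DecidableEq ι] {Q : ℕ} [NeZero Q]

lemma card_W1 (W : Finset ι) :
    ((univ : Finset (ι → Fin Q)).filter (fun κ => W1 κ = W)).card =
      (Q - 1) ^ (Fintype.card ι - W.card) := by
  classical
  have h1 : (univ : Finset (ι → Fin Q)).filter (fun κ => W1 κ = W) =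
      Fintype.piFinset (fun i => if i ∈ W then {(0 : Fin Q)} else univ.erase 0) := by
    ext κ
    rw [Finset.mem_filter, Fintype.mem_piFinset]
    constructor
    · rintro ⟨-, rfl⟩ i
      by_cases hi : i ∈ W1 κ
      · rw [if_pos hi, Finset.mem_singleton]
        exact (mem_W1 κ i).mp hi
      · rw [if_neg hi, Finset.mem_erase]
        exact ⟨fun h => hi ((mem_W1 κ i).mpr h), mem_univ _⟩
    · intro h
      refine ⟨mem_univ _, ?_⟩
      ext i
      rw [mem_W1]
      have := h i
      by_cases hi : i ∈ W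
      · rw [if_pos hi, Finset.mem_singleton] at this
        exact ⟨fun _ => hi, fun _ => this⟩
      · rw [if_neg hi, Finset.mem_erase] at this
        exact ⟨fun h => absurd h this.1, fun h => absurd h hi⟩
  rw [h1, Fintype.card_piFinset]
  have h2 : ∀ i, (if i ∈ W then {(0 : Fin Q)} else univ.erase 0 : Finset (Fin Q)).card =
      if i ∈ W then 1 else (Q - 1) := by
    intro i
    split_ifs
    · simp
    · rw [Finset.card_erase_of_mem (mem_univ _), Finset.card_univ, Fintype.card_fin]
  rw [Finset.prod_congr rfl (fun i _ => h2 i), Finset.prod_ite, Finset.prod_const_one, one_mul,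
    Finset.prod_const]
  congr 1
  have h3 : (univ : Finset ι).filter (fun i => i ∉ W) = univ \ W := by
    ext i; simp
  rw [h3, Finset.card_sdiff_of_subset (Finset.subset_univ _), Finset.card_univ]

lemma sum_W1 (f : Finset ι → ℝ) :
    ∑ κ : ι → Fin Q, f (W1 κ) = (Q : ℝ) ^ Fintype.card ι * Ex (1 / Q) univ f := by
  classical
  have hQ : 0 < Q := Nat.pos_of_ne_zero (NeZero.ne Q)
  have hQr : (0 : ℝ) < Q := by exact_mod_cast hQ
  have h1 : ∑ κ : ι → Fin Q, f (W1 κ) = ∑ W : Finset ι,
      (((univ : Finset (ι → Fin Q)).filter (fun κ => W1 κ = W)).card : ℝ) * f W := by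
    rw [← Finset.sum_fiberwise (s := (univ : Finset (ι → Fin Q))) (g := fun κ => W1 κ)]
    apply Finset.sum_congr rfl
    intro W _
    rw [Finset.sum_congr rfl (g := fun _ => f W), Finset.sum_const, nsmul_eq_mul]
    intro κ hκ
    rw [(Finset.mem_filter.mp hκ).2]
  rw [h1]
  unfold Ex
  rw [Finset.powerset_univ, Finset.mul_sum]
  apply Finset.sum_congr rfl
  intro W _
  rw [card_W1, Finset.card_univ]
  have hW : W.card ≤ Fintype.card ι := Finset.card_le_univ W
  have e1 : (Q : ℝ) ^ Fintype.card ι = (Q : ℝ) ^ W.card * (Q : ℝ) ^ (Fintype.card ι - W.card) := by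
    rw [← pow_add]
    congr 1
    omega
  have e2 : (((Q - 1 : ℕ) : ℝ)) = (Q : ℝ) * (1 - 1 / Q) := by
    rw [Nat.cast_sub hQ]
    field_simp
    simp
  push_cast
  rw [e2, mul_pow, e1]
  have e3 : (Q : ℝ) ^ W.card * (1 / Q) ^ W.card = 1 := by
    rw [← mul_pow]
    rw [mul_one_div_cancel hQr.ne', one_pow]
  calc _ = ((Q : ℝ) ^ (Fintype.card ι - W.card) * (1 - 1 / Q) ^ (Fintype.card ι - W.card)) *
        f W := by ring
    _ = ((Q : ℝ) ^ W.card * (1 / Q) ^ W.card) *
        (((Q : ℝ) ^ (Fintype.card ι - W.card) * (1 - 1 / Q) ^ (Fintype.card ι - W.card)) *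
        f W) := by rw [e3, one_mul]
    _ = _ := by ring

lemma sum_WJ (J : ℕ) (f : Finset ι → ℝ) :
    ∑ ω : Fin J → ι → Fin Q, f (WJ ω) =
      ((Q : ℝ) ^ Fintype.card ι) ^ J * Ex (1 - (1 - 1 / Q) ^ J) univ f := by
  classical
  induction J generalizing f with
  | zero =>
    rw [Finset.sum_eq_single_of_mem (default : Fin 0 → ι → Fin Q) (mem_univ _)
      (fun b _ hb => absurd (Subsingleton.elim b default) hb)]
    have : WJ (default : Fin 0 → ι → Fin Q) = ∅ := by
      ext v
      simp [mem_WJ]
    rw [this]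
    simp [Ex_zero]
  | succ J ih =>
    have e1 : ∑ ω : Fin (J + 1) → ι → Fin Q, f (WJ ω) =
        ∑ x : (ι → Fin Q) × (Fin J → ι → Fin Q),
          f (WJ (Fin.cons x.1 x.2 : Fin (J + 1) → ι → Fin Q)) := by
      refine (Fintype.sum_equiv (Fin.consEquiv (fun _ : Fin (J + 1) => ι → Fin Q)) _ _ ?_).symm
      intro x
      rfl
    rw [e1, Fintype.sum_prod_type]
    have e2 : ∀ κ : ι → Fin Q, ∑ ω : Fin J → ι → Fin Q,
        f (WJ (Fin.cons κ ω : Fin (J + 1) → ι → Fin Q)) =
        ((Q : ℝ) ^ Fintype.card ι) ^ J * Ex (1 - (1 - 1 / Q) ^ J) univ (fun W => f (W1 κ ∪ W)) := by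
      intro κ
      rw [← ih]
      apply Finset.sum_congr rfl
      intro ω _
      rw [WJ_cons]
    rw [Finset.sum_congr rfl (fun κ _ => e2 κ), ← Finset.mul_sum,
      sum_W1 (Q := Q) (fun V => Ex (1 - (1 - 1 / Q) ^ J) univ (fun W => f (V ∪ W))), Ex_cup]
    rw [pow_succ, mul_assoc]
    congr 2
    congr 1
    rw [pow_succ]
    ring

end

section

variable {G ι : Type*} [Group G] [Fintype G] [Fintype ι] [DecidableEq ι] [MulAction G ι]

/-- Contains a translate of `E`. -/
def Has (G : Type*) [Group G] [MulAction G ι] (E W : Finset ι) : Prop := ∃ g : G, tr g E ⊆ W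

/-- The abstract theorem. -/
theorem contains_translate (E : Finset ι) (p : ℝ) (hp : 0 < p) (L : ℕ) (hL : 1 ≤ L)
    (hE : E.card < 2 ^ L)
    (horb : ∀ U ⊆ E, 1 ≤ ((orb G U).card : ℝ) * p ^ U.card)
    (q : ℝ) (hq1 : q ≤ 1) (hq : 196608 * (L : ℝ) ^ 2 * p ≤ q) :
    3 / 4 ≤ Pr q univ (Has G E) := by
  classical
  have hLr : (1 : ℝ) ≤ L := by exact_mod_cast hL
  -- the number of colours
  set x : ℝ := 1 / (98304 * L * p) with hx
  have hx0 : 0 < x := by positivity
  have hx2 : 2 ≤ x := by
    rw [hx, le_div_iff₀ (by positivity)]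
    nlinarith [mul_pos (show (0 : ℝ) < L by linarith) hp]
  obtain ⟨Q, hQ1, hQ2⟩ : ∃ Q : ℕ, (Q : ℝ) ≤ x ∧ x ≤ 2 * Q := by
    refine ⟨⌊x⌋₊, Nat.floor_le hx0.le, ?_⟩
    have := Nat.lt_floor_add_one x
    linarith
  have hQ0 : 0 < Q := by
    rcases Nat.eq_zero_or_pos Q with h | h
    · rw [h] at hQ2
      norm_num at hQ2
      linarith
    · exact h
  have : NeZero Q := ⟨hQ0.ne'⟩
  have hQr : (0 : ℝ) < Q := by exact_mod_cast hQ0
  have hr1 : ((64 * Q : ℕ) : ℝ) * (1536 * L * p) ≤ 1 := by
    push_cast
    have h1 : (Q : ℝ) * (98304 * L * p) ≤ 1 := by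
      rw [hx, le_div_iff₀ (by positivity)] at hQ1
      exact hQ1
    nlinarith
  -- the spread condition
  have hspread : ∀ Z : Finset ι, ((univ : Finset G).filter (fun g => Z ⊆ tr g E)).card *
      (64 * Q) ^ Z.card ≤ Fintype.card G := by
    intro Z
    have h1 : ((univ : Finset G).filter (fun g => Z ⊆ tr g E)).card = av G Z E := by
      unfold av
      apply Finset.card_bij (fun g _ => g⁻¹)
      · intro g hg
        rw [mem_mv, tr_subset_iff, inv_inv]
        exact (Finset.mem_filter.mp hg).2
      · intro g _ g' _ h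
        exact inv_injective h
      · intro g hg
        refine ⟨g⁻¹, ?_, inv_inv g⟩
        rw [Finset.mem_filter]
        refine ⟨mem_univ _, ?_⟩
        rw [mem_mv, tr_subset_iff] at hg
        exact hg
    rw [h1]
    have h2 := spread (G := G) E p hp L hL hE.le horb Z
    have h3 : ((av G Z E * (64 * Q) ^ Z.card : ℕ) : ℝ) ≤ Fintype.card G := by
      push_cast
      calc (av G Z E : ℝ) * (64 * Q) ^ Z.card ≤
            Fintype.card G * (1536 * L * p) ^ Z.card * (64 * Q) ^ Z.card :=
            mul_le_mul_of_nonneg_right h2 (by positivity)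
        _ = Fintype.card G * (((64 * Q : ℕ) : ℝ) * (1536 * L * p)) ^ Z.card := by
            push_cast
            rw [mul_assoc, ← mul_pow]
            congr 2
            ring
        _ ≤ Fintype.card G * 1 := by
            apply mul_le_mul_of_nonneg_left _ (by positivity)
            exact pow_le_one₀ (by positivity) hr1
        _ = Fintype.card G := mul_one _
    exact_mod_cast h3
  have hph := phase (Q := Q) L (64 * Q) le_rfl (univ : Finset G) (fun g => tr g E)
    (Fintype.card G) (by
      intro g _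
      rw [card_tr]
      exact hE) hspread
  -- failing probability
  have hN : (0 : ℚ) < (Fintype.card G : ℚ) := by exact_mod_cast Fintype.card_pos
  have hfail : ((failJ Q L (univ : Finset G) (fun g => tr g E)).card : ℝ) ≤
      1 / 4 * ((Q : ℝ) ^ Fintype.card ι) ^ L := by
    have h1 : ((failJ Q L (univ : Finset G) (fun g => tr g E)).card : ℚ) ≤
        1 / 4 * ((Q : ℚ) ^ Fintype.card ι) ^ L := by
      rw [Finset.card_univ] at hph
      have h2 : ((failJ Q L (univ : Finset G) (fun g => tr g E)).card : ℚ) ≤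
          cJ L * ((Q : ℚ) ^ (Fintype.card ι)) ^ L := by
        refine le_of_mul_le_mul_right ?_ hN
        calc _ ≤ _ := hph
          _ = _ := by ring
      exact h2.trans (mul_le_mul_of_nonneg_right (cJ_le L) (by positivity))
    have h3 : ((failJ Q L (univ : Finset G) (fun g => tr g E)).card : ℚ) * 4 ≤
        ((Q : ℚ) ^ Fintype.card ι) ^ L := by linarith
    have h4 : (failJ Q L (univ : Finset G) (fun g => tr g E)).card * 4 ≤
        (Q ^ Fintype.card ι) ^ L := by exact_mod_cast h3
    have h5 : ((failJ Q L (univ : Finset G) (fun g => tr g E)).card : ℝ) * 4 ≤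
        ((Q : ℝ) ^ Fintype.card ι) ^ L := by exact_mod_cast h4
    linarith
  have hfail2 : ((failJ Q L (univ : Finset G) (fun g => tr g E)).card : ℝ) =
      ∑ ω : Fin L → ι → Fin Q, (if ¬ Has G E (WJ ω) then (1 : ℝ) else 0) := by
    rw [← Finset.sum_filter, Finset.sum_const, nsmul_eq_mul, mul_one]
    congr 2
    ext ω
    rw [mem_failJ, Finset.mem_filter]
    unfold Has
    push Not
    constructor
    · intro h
      exact ⟨mem_univ _, fun g => h g (mem_univ _)⟩
    · intro h g _
      exact h.2 g
  set w : ℝ := 1 - (1 - 1 / Q) ^ L with hw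
  have hPr : Pr w univ (fun W => ¬ Has G E W) ≤ 1 / 4 := by
    have h1 := sum_WJ (Q := Q) L (fun W : Finset ι => if ¬ Has G E W then (1 : ℝ) else 0)
    rw [← hfail2, Ex_ite] at h1
    have h2 : ((Q : ℝ) ^ Fintype.card ι) ^ L * Pr w univ (fun W => ¬ Has G E W) ≤
        ((Q : ℝ) ^ Fintype.card ι) ^ L * (1 / 4) := by
      rw [← h1]
      linarith
    exact le_of_mul_le_mul_left h2 (by positivity)
  rw [Pr_not] at hPr
  have hQ1' : (1 : ℝ) / Q ≤ 1 := by
    rw [div_le_one hQr]
    exact_mod_cast hQ0
  have hw0 : 0 ≤ w := by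
    rw [hw]
    have : (1 - 1 / (Q : ℝ)) ^ L ≤ 1 := pow_le_one₀ (by linarith) (by
      have : (0 : ℝ) ≤ 1 / Q := by positivity
      linarith)
    linarith
  have hwq : w ≤ q := by
    refine le_trans ?_ hq
    have h1 := one_add_mul_le_pow (a := -(1 / (Q : ℝ))) (by linarith) L
    have h2 : w ≤ L * (1 / Q) := by
      rw [hw]
      have h3 : (1 - 1 / (Q : ℝ)) = 1 + -(1 / Q) := by ring
      rw [h3]
      linarith
    refine h2.trans ?_
    have h4 : (1 : ℝ) / Q ≤ 2 * (98304 * L * p) := by
      rw [div_le_iff₀ hQr]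
      have h5 : 1 = x * (98304 * L * p) := by
        rw [hx]
        field_simp
      calc (1 : ℝ) = x * (98304 * L * p) := h5
        _ ≤ 2 * Q * (98304 * L * p) := mul_le_mul_of_nonneg_right hQ2 (by positivity)
        _ = _ := by ring
    calc (L : ℝ) * (1 / Q) ≤ L * (2 * (98304 * L * p)) :=
          mul_le_mul_of_nonneg_left h4 (by positivity)
      _ = 196608 * (L : ℝ) ^ 2 * p := by ring
  have hmono := Pr_mono_param hw0 hwq hq1 (univ : Finset ι) (Has G E) (by
    rintro A B hAB ⟨g, hg⟩
    exact ⟨g, hg.trans hAB⟩)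
  linarith

end

end Pool.Agent.W812.EG
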