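import Pool.Agent.W812.EG2

/-! Tuples of translates weighted by the pattern of the points covered before. -/

namespace Pool.Agent.W812.EG

open Finset

variable {G ι : Type*} [Group G] [Fintype G] [DecidableEq ι] [MulAction G ι]

/-- the points of `S` which `g` moves into `U` -/
def Kp (S U : Finset ι) (g : G) : Finset ι := S.filter (fun x => g • x ∈ U)

omit [Fintype G] in
lemma card_tr_sdiff (S U : Finset ι) (g : G) :
    (tr g S \ U).card = S.card - (Kp S U g).card := by
  have h1 : tr g S \ U = tr g (S \ Kp S U g) := by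
    ext x
    simp only [Finset.mem_sdiff, mem_tr, Kp, Finset.mem_filter, smul_inv_smul]
    tauto
  have h2 : Kp S U g ⊆ S := Finset.filter_subset _ _
  rw [h1, card_tr, Finset.card_sdiff_of_subset h2]

omit [Fintype G] in
lemma tr_Kp_subset (S U : Finset ι) (g : G) : tr g (Kp S U g) ⊆ U := by
  intro x hx
  rw [mem_tr] at hx
  have := (Finset.mem_filter.mp hx).2
  simpa using this

omit [Fintype G] in
lemma Kp_mul (S U : Finset ι) (g σ : G) : Kp S (tr σ U) (σ * g) = Kp S U g := by
  ext x
  simp [Kp, mem_tr, mul_smul]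

/-- the weight of a tuple; the newest copy is the first one -/
noncomputable def QW (Qf : ℕ → Finset ι → ℝ) (S : Finset ι) : (J : ℕ) → (Fin J → G) → ℝ
  | 0, _ => 1
  | J + 1, ω => Qf J (Kp S (un (Fin.tail ω) S) (ω 0)) * QW Qf S J (Fin.tail ω)

omit [Fintype G] in
lemma QW_cons (Qf : ℕ → Finset ι → ℝ) (S : Finset ι) (J : ℕ) (g : G) (ω : Fin J → G) :
    QW Qf S (J + 1) (Fin.cons g ω : Fin (J + 1) → G) =
      Qf J (Kp S (un ω S) g) * QW Qf S J ω := by
  simp [QW]

omit [Fintype G] in
lemma QW_nonneg (Qf : ℕ → Finset ι → ℝ) (hQ : ∀ j K, 0 ≤ Qf j K) (S : Finset ι) (J : ℕ)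
    (ω : Fin J → G) : 0 ≤ QW Qf S J ω := by
  induction J with
  | zero => simp [QW]
  | succ J ih => exact mul_nonneg (hQ _ _) (ih _)

omit [Fintype G] in
lemma QW_mul (Qf : ℕ → Finset ι → ℝ) (S : Finset ι) (J : ℕ) (ω : Fin J → G) (σ : G) :
    QW Qf S J (fun j => σ * ω j) = QW Qf S J ω := by
  induction J with
  | zero => simp [QW]
  | succ J ih =>
    have h1 : Fin.tail (fun j => σ * ω j) = fun j => σ * (Fin.tail ω) j := rfl
    simp only [QW]
    rw [h1, ih, un_mul, Kp_mul]

/-- weighted number of tuples inside some translate of `T` -/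
noncomputable def WT (G : Type*) [Group G] [Fintype G] [MulAction G ι]
    (Qf : ℕ → Finset ι → ℝ) (c : ℝ) (S T : Finset ι) (J : ℕ) : ℝ :=
  by classical exact ∑ ω : Fin J → G,
    if ∃ σ : G, un ω S ⊆ tr σ T then QW Qf S J ω * c ^ (un ω S).card else 0

lemma WT_le (Qf : ℕ → Finset ι → ℝ) (hQ : ∀ j K, 0 ≤ Qf j K) (c : ℝ) (hc : 0 ≤ c)
    (S T : Finset ι) (hQ1 : ∀ j, ∑ K ∈ S.powerset, Qf j K ≤ 1) (a : ℝ) (ha : 0 ≤ a)
    (hK : ∀ K ⊆ S, (av G K T : ℝ) * c ^ (S.card - K.card) ≤ a) (J : ℕ) :
    WT G Qf c S T J ≤ a ^ J := by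
  classical
  induction J with
  | zero =>
    unfold WT
    rw [Finset.sum_eq_single_of_mem (default : Fin 0 → G) (mem_univ _)
      (fun b _ hb => absurd (Subsingleton.elim b default) hb)]
    simp [un_zero, QW]
  | succ J ih =>
    have e1 : WT G Qf c S T (J + 1) = ∑ x : G × (Fin J → G),
        (if ∃ σ : G, un (Fin.cons x.1 x.2 : Fin (J + 1) → G) S ⊆ tr σ T then
          QW Qf S (J + 1) (Fin.cons x.1 x.2 : Fin (J + 1) → G) *
            c ^ (un (Fin.cons x.1 x.2 : Fin (J + 1) → G) S).card else 0) := by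
      unfold WT
      refine (Fintype.sum_equiv (Fin.consEquiv (fun _ : Fin (J + 1) => G)) _ _ ?_).symm
      intro x
      rfl
    rw [e1, Fintype.sum_prod_type_right]
    have h2 : ∀ ω : Fin J → G, (∑ g : G,
        (if ∃ σ : G, un (Fin.cons g ω : Fin (J + 1) → G) S ⊆ tr σ T then
          QW Qf S (J + 1) (Fin.cons g ω : Fin (J + 1) → G) *
            c ^ (un (Fin.cons g ω : Fin (J + 1) → G) S).card else 0)) ≤
        (if ∃ σ : G, un ω S ⊆ tr σ T then QW Qf S J ω * c ^ (un ω S).card else 0) * a := by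
      intro ω
      by_cases h : ∃ σ : G, un ω S ⊆ tr σ T
      · rw [if_pos h]
        obtain ⟨σ, hσ⟩ := h
        have hW0 : 0 ≤ QW Qf S J ω * c ^ (un ω S).card :=
          mul_nonneg (QW_nonneg Qf hQ S J ω) (pow_nonneg hc _)
        have h3 : ∀ g : G, (if ∃ σ : G, un (Fin.cons g ω : Fin (J + 1) → G) S ⊆ tr σ T then
          QW Qf S (J + 1) (Fin.cons g ω : Fin (J + 1) → G) *
            c ^ (un (Fin.cons g ω : Fin (J + 1) → G) S).card else 0) ≤
            (QW Qf S J ω * c ^ (un ω S).card) *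
              (Qf J (Kp S (un ω S) g) * c ^ (S.card - (Kp S (un ω S) g).card)) := by
          intro g
          split_ifs with hc'
          · rw [un_cons, QW_cons]
            have : tr g S ∪ un ω S = un ω S ∪ (tr g S \ un ω S) := by
              rw [Finset.union_sdiff_self_eq_union, Finset.union_comm]
            rw [this, Finset.card_union_of_disjoint Finset.disjoint_sdiff, card_tr_sdiff, pow_add]
            apply le_of_eq
            ring
          · exact mul_nonneg hW0 (mul_nonneg (hQ _ _) (pow_nonneg hc _))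
        have h4 : ∑ g : G, (Qf J (Kp S (un ω S) g) * c ^ (S.card - (Kp S (un ω S) g).card)) ≤
            a := by
          calc ∑ g : G, (Qf J (Kp S (un ω S) g) * c ^ (S.card - (Kp S (un ω S) g).card))
              = ∑ g : G, ∑ K ∈ S.powerset,
                (if K = Kp S (un ω S) g then Qf J K * c ^ (S.card - K.card) else 0) := by
                apply Finset.sum_congr rfl
                intro g _
                rw [Finset.sum_ite_eq', if_pos]
                rw [Finset.mem_powerset]
                exact Finset.filter_subset _ _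
            _ = ∑ K ∈ S.powerset, ∑ g : G,
                (if K = Kp S (un ω S) g then Qf J K * c ^ (S.card - K.card) else 0) :=
                Finset.sum_comm
            _ ≤ ∑ K ∈ S.powerset, Qf J K * a := by
                apply Finset.sum_le_sum
                intro K hK'
                rw [Finset.mem_powerset] at hK'
                rw [← Finset.sum_filter, Finset.sum_const, nsmul_eq_mul]
                have h5 : (((univ : Finset G).filter (fun g => K = Kp S (un ω S) g)).card : ℝ) ≤
                    av G K T := by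
                  norm_cast
                  unfold av
                  apply Finset.card_le_card_of_injOn (fun g => σ⁻¹ * g)
                  · intro g hg
                    have hg' : K = Kp S (un ω S) g :=
                      (Finset.mem_filter.mp (Finset.mem_coe.mp hg)).2
                    rw [Finset.mem_coe, mem_mv, tr_mul, tr_subset_iff, inv_inv, hg']
                    exact (tr_Kp_subset S (un ω S) g).trans hσ
                  · intro g _ g' _ h
                    exact mul_left_cancel h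
                calc _ ≤ (av G K T : ℝ) * (Qf J K * c ^ (S.card - K.card)) :=
                      mul_le_mul_of_nonneg_right h5 (mul_nonneg (hQ _ _) (pow_nonneg hc _))
                  _ = Qf J K * ((av G K T : ℝ) * c ^ (S.card - K.card)) := by ring
                  _ ≤ Qf J K * a := mul_le_mul_of_nonneg_left (hK K hK') (hQ _ _)
            _ = (∑ K ∈ S.powerset, Qf J K) * a := by rw [Finset.sum_mul]
            _ ≤ 1 * a := mul_le_mul_of_nonneg_right (hQ1 J) ha
            _ = a := one_mul a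
        calc _ ≤ ∑ g : G, (QW Qf S J ω * c ^ (un ω S).card) *
              (Qf J (Kp S (un ω S) g) * c ^ (S.card - (Kp S (un ω S) g).card)) :=
              Finset.sum_le_sum (fun g _ => h3 g)
          _ = (QW Qf S J ω * c ^ (un ω S).card) *
              ∑ g : G, (Qf J (Kp S (un ω S) g) * c ^ (S.card - (Kp S (un ω S) g).card)) := by
              rw [Finset.mul_sum]
          _ ≤ _ := mul_le_mul_of_nonneg_left h4 hW0
      · rw [if_neg h, zero_mul]
        apply le_of_eq
        apply Finset.sum_eq_zero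
        intro g _
        rw [if_neg]
        rintro ⟨σ, hσ⟩
        apply h
        refine ⟨σ, ?_⟩
        rw [un_cons] at hσ
        exact Finset.subset_union_right.trans hσ
    calc _ ≤ ∑ ω : Fin J → G,
          (if ∃ σ : G, un ω S ⊆ tr σ T then QW Qf S J ω * c ^ (un ω S).card else 0) * a :=
          Finset.sum_le_sum (fun ω _ => h2 ω)
      _ = WT G Qf c S T J * a := by
          rw [← Finset.sum_mul]; rfl
      _ ≤ a ^ J * a := mul_le_mul_of_nonneg_right ih ha
      _ = a ^ (J + 1) := (pow_succ _ _).symm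

/-- one union -/
lemma tup_weight_le (Qf : ℕ → Finset ι → ℝ) (hQ : ∀ j K, 0 ≤ Qf j K) (c : ℝ) (hc : 0 ≤ c)
    (S T : Finset ι) (hQ1 : ∀ j, ∑ K ∈ S.powerset, Qf j K ≤ 1) (a : ℝ) (ha : 0 ≤ a)
    (hK : ∀ K ⊆ S, (av G K T : ℝ) * c ^ (S.card - K.card) ≤ a) (J : ℕ) (U : Finset ι)
    (hU : U ⊆ T) :
    ((orb G U).card : ℝ) * (∑ ω ∈ tup G J S U, QW Qf S J ω) * c ^ U.card ≤ a ^ J := by
  classical
  refine le_trans ?_ (WT_le Qf hQ c hc S T hQ1 a ha hK J)
  have h0 : ∀ g : G, ∑ ω ∈ tup G J S (tr g U), QW Qf S J ω = ∑ ω ∈ tup G J S U, QW Qf S J ω := by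
    intro g
    symm
    apply Finset.sum_bij (fun ω _ => fun j => g * ω j)
    · intro ω hω
      rw [mem_tup] at hω ⊢
      rw [un_mul, hω]
    · intro ω _ ω' _ h
      funext j
      exact mul_left_cancel (congrFun h j)
    · intro ω hω
      refine ⟨fun j => g⁻¹ * ω j, ?_, ?_⟩
      · rw [mem_tup] at hω ⊢
        rw [un_mul, hω, tr_inv_tr]
      · funext j
        simp
    · intro ω _
      rw [QW_mul]
  have h1 : ((orb G U).card : ℝ) * (∑ ω ∈ tup G J S U, QW Qf S J ω) * c ^ U.card =
      ∑ V ∈ orb G U, ∑ ω ∈ tup G J S V, QW Qf S J ω * c ^ (un ω S).card := by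
    have : ∀ V ∈ orb G U, ∑ ω ∈ tup G J S V, QW Qf S J ω * c ^ (un ω S).card =
        (∑ ω ∈ tup G J S U, QW Qf S J ω) * c ^ U.card := by
      intro V hV
      obtain ⟨g, rfl⟩ := (mem_orb U V).mp hV
      rw [Finset.sum_congr rfl (g := fun ω => QW Qf S J ω * c ^ U.card), ← Finset.sum_mul, h0]
      intro ω hω
      rw [(mem_tup _ _ _ _).mp hω, card_tr]
    rw [Finset.sum_congr rfl this, Finset.sum_const, nsmul_eq_mul]
    ring
  rw [h1, Finset.sum_sigma']
  unfold WT
  rw [← Finset.sum_filter]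
  have hinj : Set.InjOn (fun x : Σ _ : Finset ι, (Fin J → G) => x.2)
      ((orb G U).sigma (fun V => tup G J S V) : Finset (Σ _ : Finset ι, (Fin J → G))) := by
    rintro ⟨V, ω⟩ h ⟨V', ω'⟩ h' hh
    simp only [coe_sigma, Set.mem_sigma_iff, mem_coe] at h h'
    simp only at hh
    subst hh
    have e1 := (mem_tup _ _ _ _).mp h.2
    have e2 := (mem_tup _ _ _ _).mp h'.2
    rw [← e1, ← e2]
  rw [← Finset.sum_image (f := fun ω : Fin J → G => QW Qf S J ω * c ^ (un ω S).card) hinj]
  apply Finset.sum_le_sum_of_subset_of_nonneg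
  · intro ω hω
    obtain ⟨⟨V, ω'⟩, h, rfl⟩ := Finset.mem_image.mp hω
    rw [Finset.mem_sigma] at h
    obtain ⟨g, hg⟩ := (mem_orb U V).mp h.1
    have e1 := (mem_tup _ _ _ _).mp h.2
    rw [Finset.mem_filter]
    refine ⟨mem_univ _, g, ?_⟩
    have e2 : un ω' S = V := e1
    have e3 : tr g U = V := hg
    change un ω' S ⊆ tr g T
    rw [e2, ← e3, tr_subset_tr]
    exact hU
  · intro ω _ _
    exact mul_nonneg (QW_nonneg Qf hQ S J ω) (pow_nonneg hc _)

/-- all unions -/
lemma sum_weight_le (Qf : ℕ → Finset ι → ℝ) (hQ : ∀ j K, 0 ≤ Qf j K) (A p : ℝ) (hA : 0 < A)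
    (hp : 0 < p) (S T : Finset ι) (hQ1 : ∀ j, ∑ K ∈ S.powerset, Qf j K ≤ 1)
    (hK : ∀ K ⊆ S, (av G K T : ℝ) * (A * p) ^ (S.card - K.card) ≤ av G S T)
    (horb : ∀ U ⊆ T, 1 ≤ ((orb G U).card : ℝ) * p ^ U.card) (J : ℕ) :
    ∑ ω ∈ Fintype.piFinset (fun _ : Fin J => mv G S T), QW Qf S J ω * A ^ (un ω S).card ≤
      2 ^ T.card * (av G S T : ℝ) ^ J := by
  classical
  have ha : (0 : ℝ) ≤ av G S T := by positivity
  have hone : ∀ U ∈ T.powerset, ∑ ω ∈ tup G J S U, QW Qf S J ω * A ^ (un ω S).card ≤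
      (av G S T : ℝ) ^ J := by
    intro U hU
    rw [Finset.mem_powerset] at hU
    have h1 := tup_weight_le (G := G) Qf hQ (A * p) (by positivity) S T hQ1 (av G S T) ha hK J U hU
    have h2 := horb U hU
    have hs0 : 0 ≤ ∑ ω ∈ tup G J S U, QW Qf S J ω :=
      Finset.sum_nonneg (fun ω _ => QW_nonneg Qf hQ S J ω)
    calc ∑ ω ∈ tup G J S U, QW Qf S J ω * A ^ (un ω S).card
        = (∑ ω ∈ tup G J S U, QW Qf S J ω) * A ^ U.card := by
          rw [Finset.sum_mul]
          apply Finset.sum_congr rfl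
          intro ω hω
          rw [(mem_tup _ _ _ _).mp hω]
      _ = (∑ ω ∈ tup G J S U, QW Qf S J ω) * A ^ U.card * 1 := by ring
      _ ≤ (∑ ω ∈ tup G J S U, QW Qf S J ω) * A ^ U.card *
          (((orb G U).card : ℝ) * p ^ U.card) :=
          mul_le_mul_of_nonneg_left h2 (mul_nonneg hs0 (by positivity))
      _ = ((orb G U).card : ℝ) * (∑ ω ∈ tup G J S U, QW Qf S J ω) * (A * p) ^ U.card := by
          rw [mul_pow]; ring
      _ ≤ _ := h1
  have hsub : Fintype.piFinset (fun _ : Fin J => mv G S T) ⊆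
      T.powerset.biUnion (fun U => tup G J S U) := by
    intro ω hω
    rw [Fintype.mem_piFinset] at hω
    rw [Finset.mem_biUnion]
    refine ⟨un ω S, ?_, (mem_tup _ _ _ _).mpr rfl⟩
    rw [Finset.mem_powerset]
    intro x hx
    obtain ⟨j, _, hj⟩ := Finset.mem_biUnion.mp hx
    exact (mem_mv _ _ _).mp (hω j) hj
  calc _ ≤ ∑ ω ∈ T.powerset.biUnion (fun U => tup G J S U), QW Qf S J ω * A ^ (un ω S).card := by
        apply Finset.sum_le_sum_of_subset_of_nonneg hsub
        intro ω _ _
        exact mul_nonneg (QW_nonneg Qf hQ S J ω) (by positivity)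
    _ ≤ ∑ U ∈ T.powerset, ∑ ω ∈ tup G J S U, QW Qf S J ω * A ^ (un ω S).card := by
        rw [Finset.sum_biUnion]
        intro U _ V _ hne
        rw [Function.onFun, Finset.disjoint_left]
        intro ω h1 h2
        exact hne (((mem_tup _ _ _ _).mp h1).symm.trans ((mem_tup _ _ _ _).mp h2))
    _ ≤ ∑ U ∈ T.powerset, (av G S T : ℝ) ^ J := Finset.sum_le_sum hone
    _ = 2 ^ T.card * (av G S T : ℝ) ^ J := by
        rw [Finset.sum_const, Finset.card_powerset, nsmul_eq_mul]
        push_cast
        rfl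

/-- Jensen's inequality for the exponential function. -/
lemma avg_le_of_exp {α : Type*} (P : Finset α) (hP : 0 < P.card) (F : α → ℝ) (B : ℝ)
    (h : ∑ x ∈ P, Real.exp (F x) ≤ P.card * Real.exp B) : ∑ x ∈ P, F x ≤ P.card * B := by
  have hPr : (0 : ℝ) < P.card := by exact_mod_cast hP
  by_contra hcon
  rw [not_le] at hcon
  have h1 : ∀ x ∈ P, Real.exp B * (1 + (F x - B)) ≤ Real.exp (F x) := by
    intro x _
    have h2 := Real.add_one_le_exp (F x - B)
    have h3 : Real.exp (F x) = Real.exp B * Real.exp (F x - B) := by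
      rw [← Real.exp_add]
      congr 1
      ring
    rw [h3]
    apply mul_le_mul_of_nonneg_left _ (Real.exp_pos B).le
    linarith
  have h2 := Finset.sum_le_sum h1
  rw [← Finset.mul_sum, Finset.sum_add_distrib, Finset.sum_sub_distrib, Finset.sum_const,
    Finset.sum_const, nsmul_eq_mul, nsmul_eq_mul, mul_one] at h2
  have h3 : Real.exp B * (P.card + (∑ x ∈ P, F x - P.card * B)) ≤ P.card * Real.exp B :=
    h2.trans h
  have h4 : 0 < Real.exp B * (∑ x ∈ P, F x - P.card * B) :=
    mul_pos (Real.exp_pos B) (by linarith)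
  nlinarith

end Pool.Agent.W812.EG
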