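import Pool.Agent.W812.EG6

/-! The entropy sum of the pattern weights. -/

namespace Pool.Agent.W812.EG

open Finset

/-- the chance, used in the weights, that a point of weight `w` is still uncovered -/
noncomputable def qx (w : ℝ) (j : ℕ) : ℝ := ((1 + w) ^ j)⁻¹

lemma qx_pos (w : ℝ) (hw : 0 < w) (j : ℕ) : 0 < qx w j := by
  unfold qx; positivity

lemma qx_le_one (w : ℝ) (hw : 0 < w) (j : ℕ) : qx w j ≤ 1 := by
  unfold qx
  apply inv_le_one_of_one_le₀
  exact one_le_pow₀ (by linarith)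

lemma qx_zero (w : ℝ) : qx w 0 = 1 := by simp [qx]

lemma one_sub_qx (w : ℝ) (hw : 0 < w) (j : ℕ) : j * w / (1 + j * w) ≤ 1 - qx w j := by
  unfold qx
  have h1 : 1 + j * w ≤ (1 + w) ^ j := one_add_mul_le_pow (by linarith) j
  have h2 : (0 : ℝ) < 1 + j * w := by positivity
  have h3 : ((1 + w) ^ j)⁻¹ ≤ (1 + j * w)⁻¹ := inv_anti₀ h2 h1
  have h4 : j * w / (1 + j * w) = 1 - (1 + j * w)⁻¹ := by
    field_simp
    ring
  rw [h4]
  linarith

lemma qx_lt_one (w : ℝ) (hw : 0 < w) (j : ℕ) (hj : 1 ≤ j) : qx w j < 1 := by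
  have h1 := one_sub_qx w hw j
  have hjr : (1 : ℝ) ≤ j := by exact_mod_cast hj
  have h2 : 0 < j * w / (1 + j * w) := by positivity
  linarith

/-- the contribution of a point of weight `w` at time `j` -/
noncomputable def psi (Λ w : ℝ) (j : ℕ) : ℝ :=
  (1 - w) ^ j * (Real.log (qx w j) + Λ) + (1 - (1 - w) ^ j) * Real.log (1 - qx w j)

lemma psi_zero (Λ w : ℝ) : psi Λ w 0 = Λ := by
  simp [psi, qx_zero]

lemma psi_ge (Λ w : ℝ) (hw : 0 < w) (hw1 : w ≤ 1) (j : ℕ) (hj : 1 ≤ j) :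
    Λ * (1 - w) ^ j - j * w * (1 - w) ^ j - 2 * qx w j ≤ psi Λ w j := by
  have hr0 : 0 ≤ 1 - w := by linarith
  have hr1 : 1 - w ≤ 1 := by linarith
  have hjr : (1 : ℝ) ≤ j := by exact_mod_cast hj
  have hδ0 : 0 ≤ (1 - w) ^ j := pow_nonneg hr0 j
  have hδ1 : (1 - w) ^ j ≤ 1 := pow_le_one₀ hr0 hr1
  have h1 : -(j * w) ≤ Real.log (qx w j) := by
    unfold qx
    rw [Real.log_inv, Real.log_pow, neg_le_neg_iff]
    apply mul_le_mul_of_nonneg_left _ (by linarith)
    have := Real.log_le_sub_one_of_pos (show (0 : ℝ) < 1 + w by linarith)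
    linarith
  set q := qx w j with hq
  have hq0 := qx_pos w hw j
  have hq1 := qx_lt_one w hw j hj
  rw [← hq] at hq0 hq1
  have h1q : 0 < 1 - q := by linarith
  have h2 : -(q / (1 - q)) ≤ Real.log (1 - q) := by
    have := Real.one_sub_inv_le_log_of_pos h1q
    have h3 : 1 - (1 - q)⁻¹ = -(q / (1 - q)) := by
      field_simp
      ring
    rw [h3] at this
    exact this
  have h4 : 1 - (1 - w) ^ j ≤ 2 * (1 - q) := by
    have h5 := one_sub_qx w hw j
    rw [← hq] at h5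
    have h6 : 1 - (1 - w) ^ j ≤ j * w := by
      have := one_add_mul_le_pow (a := -w) (by linarith) j
      have h7 : (1 + -w) = 1 - w := by ring
      rw [h7] at this
      linarith
    have hjw : 0 < j * w := by positivity
    have h8 : 1 - (1 - w) ^ j ≤ 2 * (j * w / (1 + j * w)) := by
      rw [← mul_div_assoc, le_div_iff₀ (by positivity)]
      rcases le_or_gt (j * w) 1 with hle | hgt
      · nlinarith
      · nlinarith
    linarith
  have h5 : -(2 * q) ≤ (1 - (1 - w) ^ j) * Real.log (1 - q) := by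
    calc -(2 * q) = -(2 * (1 - q) * (q / (1 - q))) := by
          field_simp
      _ ≤ -((1 - (1 - w) ^ j) * (q / (1 - q))) := by
          rw [neg_le_neg_iff]
          exact mul_le_mul_of_nonneg_right h4 (by positivity)
      _ = (1 - (1 - w) ^ j) * (-(q / (1 - q))) := by ring
      _ ≤ _ := mul_le_mul_of_nonneg_left h2 (by linarith)
  unfold psi
  rw [← hq]
  nlinarith [mul_le_mul_of_nonneg_left h1 hδ0]

lemma sum_one (w : ℝ) (J : ℕ) : ∑ j ∈ Finset.range J, w * (1 - w) ^ j = 1 - (1 - w) ^ J := by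
  induction J with
  | zero => simp
  | succ J ih => rw [Finset.sum_range_succ, ih, pow_succ]; ring

lemma sum_two (w : ℝ) (hw : 0 < w) (J : ℕ) :
    ∑ j ∈ Finset.range J, w * qx w (j + 1) = 1 - qx w J := by
  induction J with
  | zero => simp [qx]
  | succ J ih =>
    rw [Finset.sum_range_succ, ih]
    unfold qx
    rw [pow_succ]
    have h1 : (1 + w) ≠ 0 := by linarith
    have h2 : (1 + w) ^ J ≠ 0 := pow_ne_zero _ h1
    field_simp
    ring

lemma sum_three (w : ℝ) (hw : 0 < w) (hw1 : w ≤ 1) (J : ℕ) :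
    ∑ j ∈ Finset.range J, ((j + 1 : ℕ) : ℝ) * w ^ 2 * (1 - w) ^ (j + 1) ≤
      1 - (1 - w) ^ J * (1 + J * w) := by
  have hr0 : 0 ≤ 1 - w := by linarith
  induction J with
  | zero => simp
  | succ J ih =>
    rw [Finset.sum_range_succ]
    have h1 : ((J + 1 : ℕ) : ℝ) * w ^ 2 * (1 - w) ^ (J + 1) ≤
        ((J + 1 : ℕ) : ℝ) * w ^ 2 * (1 - w) ^ J := by
      apply mul_le_mul_of_nonneg_left _ (by positivity)
      rw [pow_succ]
      have : 0 ≤ (1 - w) ^ J := pow_nonneg hr0 J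
      nlinarith
    have h2 : 1 - (1 - w) ^ J * (1 + J * w) + ((J + 1 : ℕ) : ℝ) * w ^ 2 * (1 - w) ^ J =
        1 - (1 - w) ^ (J + 1) * (1 + ((J + 1 : ℕ) : ℝ) * w) := by
      rw [pow_succ]
      push_cast
      ring
    linarith

/-- lower bound for the total contribution of a point -/
lemma sum_psi_ge (Λ w : ℝ) (hw : 0 < w) (hw1 : w ≤ 1) (J : ℕ) :
    (Λ * (1 - (1 - w) ^ (J + 1)) - 3) / w ≤ ∑ j ∈ Finset.range (J + 1), psi Λ w j := by
  rw [Finset.sum_range_succ', psi_zero]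
  have hr0 : 0 ≤ 1 - w := by linarith
  have h1 : ∑ j ∈ Finset.range J, (Λ * (1 - w) ^ (j + 1) - ((j + 1 : ℕ) : ℝ) * w *
      (1 - w) ^ (j + 1) - 2 * qx w (j + 1)) ≤ ∑ j ∈ Finset.range J, psi Λ w (j + 1) := by
    apply Finset.sum_le_sum
    intro j _
    exact psi_ge Λ w hw hw1 (j + 1) (by omega)
  rw [div_le_iff₀ hw]
  have h2 := mul_le_mul_of_nonneg_right h1 hw.le
  have h3 : (∑ j ∈ Finset.range J, (Λ * (1 - w) ^ (j + 1) - ((j + 1 : ℕ) : ℝ) * w *
      (1 - w) ^ (j + 1) - 2 * qx w (j + 1))) * w =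
      Λ * (1 - w) * (∑ j ∈ Finset.range J, w * (1 - w) ^ j) -
      (∑ j ∈ Finset.range J, ((j + 1 : ℕ) : ℝ) * w ^ 2 * (1 - w) ^ (j + 1)) -
      2 * ∑ j ∈ Finset.range J, w * qx w (j + 1) := by
    rw [Finset.sum_mul, Finset.mul_sum, Finset.mul_sum, ← Finset.sum_sub_distrib,
      ← Finset.sum_sub_distrib]
    apply Finset.sum_congr rfl
    intro j _
    rw [pow_succ]
    ring
  rw [h3, sum_one, sum_two w hw] at h2
  have h4 := sum_three w hw hw1 J
  have h5 : 0 ≤ (1 - w) ^ J * (1 + J * w) := mul_nonneg (pow_nonneg hr0 J) (by positivity)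
  have h6 := qx_pos w hw J
  have h7 : (1 - w) ^ (J + 1) = (1 - w) ^ J * (1 - w) := pow_succ _ _
  rw [h7]
  nlinarith

end Pool.Agent.W812.EG
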