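import Pool.Agent.W812.EG7

/-! The orbit of a set with few kinds of points is spread. -/

namespace Pool.Agent.W812.EG

open Finset

section counting

variable {G ι τ : Type*} [Group G] [Fintype G] [DecidableEq ι] [MulAction G ι] [DecidableEq τ]
  (ty : ι → τ)

/-- number of points of type `t` -/
def cnt (S : Finset ι) (t : τ) : ℕ := (S.filter (fun x => ty x = t)).card

omit [Fintype G] in
lemma cover_card (hty : ∀ (g : G) x, ty (g • x) = ty x) (S T : Finset ι) (g : G)
    (hg : tr g S ⊆ T) (t : τ) :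
    ((T.filter (fun y => ty y = t)).filter (fun y => y ∈ tr g S)).card = cnt ty S t := by
  unfold cnt
  rw [← card_tr g (S.filter (fun x => ty x = t))]
  congr 1
  ext y
  simp only [Finset.mem_filter, mem_tr]
  constructor
  · rintro ⟨⟨_, h2⟩, h3⟩
    exact ⟨h3, by rw [hty]; exact h2⟩
  · rintro ⟨h1, h2⟩
    rw [hty] at h2
    exact ⟨⟨hg ((mem_tr _ _ _).mpr h1), h2⟩, h1⟩

lemma cover_count (hty : ∀ (g : G) x, ty (g • x) = ty x) (S T : Finset ι)
    (htrans : ∀ x ∈ T, ∀ y ∈ T, ty x = ty y → ∃ γ : G, tr γ T = T ∧ γ • x = y)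
    (y : ι) (hy : y ∈ T) :
    cnt ty T (ty y) * ((mv G S T).filter (fun g => y ∈ tr g S)).card =
      av G S T * cnt ty S (ty y) := by
  classical
  have hconst : ∀ y' ∈ T.filter (fun z => ty z = ty y),
      ((mv G S T).filter (fun g => y' ∈ tr g S)).card =
      ((mv G S T).filter (fun g => y ∈ tr g S)).card := by
    intro y' hy'
    obtain ⟨hy'T, hty'⟩ := Finset.mem_filter.mp hy'
    obtain ⟨γ, hγT, hγ⟩ := htrans y' hy'T y hy hty'
    apply Finset.card_bij (fun g _ => γ * g)
    · intro g hg
      obtain ⟨h1, h2⟩ := Finset.mem_filter.mp hg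
      rw [Finset.mem_filter, mem_mv, tr_mul]
      rw [mem_mv] at h1
      constructor
      · rw [← hγT, tr_subset_tr]
        exact h1
      · rw [mem_tr, ← hγ]
        simpa using h2
    · intro g _ g' _ h
      exact mul_left_cancel h
    · intro g hg
      obtain ⟨h1, h2⟩ := Finset.mem_filter.mp hg
      rw [mem_mv] at h1
      refine ⟨γ⁻¹ * g, ?_, by simp⟩
      rw [Finset.mem_filter, mem_mv, tr_mul]
      constructor
      · rw [tr_subset_iff, inv_inv, hγT]
        exact h1
      · rw [mem_tr, inv_inv, hγ]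
        exact h2
  have h1 : ∑ y' ∈ T.filter (fun z => ty z = ty y),
      ((mv G S T).filter (fun g => y' ∈ tr g S)).card =
      ∑ g ∈ mv G S T, ((T.filter (fun z => ty z = ty y)).filter (fun z => z ∈ tr g S)).card := by
    simp only [Finset.card_eq_sum_ones, Finset.sum_filter]
    rw [← Finset.sum_filter, Finset.sum_comm]
    apply Finset.sum_congr rfl
    intro g _
    rw [Finset.sum_filter]
  rw [Finset.sum_congr rfl hconst, Finset.sum_const, smul_eq_mul] at h1
  rw [Finset.sum_congr rfl (g := fun _ => cnt ty S (ty y))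
    (fun g hg => cover_card ty hty S T g ((mem_mv S T g).mp hg) (ty y)), Finset.sum_const,
    smul_eq_mul] at h1
  exact h1

/-- weight of a type -/
noncomputable def wty (S T : Finset ι) (t : τ) : ℝ := (cnt ty S t : ℝ) / cnt ty T t

lemma uncovered_count (hty : ∀ (g : G) x, ty (g • x) = ty x) (S T : Finset ι)
    (htrans : ∀ x ∈ T, ∀ y ∈ T, ty x = ty y → ∃ γ : G, tr γ T = T ∧ γ • x = y)
    (y : ι) (hy : y ∈ T) (J : ℕ) :
    (((Fintype.piFinset (fun _ : Fin J => mv G S T)).filter (fun ω => y ∉ un ω S)).card : ℝ) =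
      (av G S T : ℝ) ^ J * (1 - wty ty S T (ty y)) ^ J := by
  classical
  have h1 : (Fintype.piFinset (fun _ : Fin J => mv G S T)).filter (fun ω => y ∉ un ω S) =
      Fintype.piFinset (fun _ : Fin J => (mv G S T).filter (fun g => y ∉ tr g S)) := by
    ext ω
    simp only [Finset.mem_filter, Fintype.mem_piFinset, un, Finset.mem_biUnion, mem_univ,
      true_and, not_exists]
    constructor
    · rintro ⟨h1, h2⟩ j
      exact ⟨h1 j, h2 j⟩
    · intro h
      exact ⟨fun j => (h j).1, fun j => (h j).2⟩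
  rw [h1, Fintype.card_piFinset]
  simp only [Finset.prod_const, Finset.card_univ, Fintype.card_fin]
  have h2 := Finset.card_filter_add_card_filter_not (s := mv G S T) (fun g => y ∈ tr g S)
  have h3 := cover_count ty hty S T htrans y hy
  have hpos : 0 < cnt ty T (ty y) := by
    unfold cnt
    rw [Finset.card_pos]
    exact ⟨y, Finset.mem_filter.mpr ⟨hy, rfl⟩⟩
  have hposr : (0 : ℝ) < cnt ty T (ty y) := by exact_mod_cast hpos
  have h4 : (((mv G S T).filter (fun g => y ∈ tr g S)).card : ℝ) =
      (av G S T : ℝ) * wty ty S T (ty y) := by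
    unfold wty
    rw [← mul_div_assoc, eq_div_iff hposr.ne']
    have h5 : (cnt ty T (ty y) : ℝ) * (((mv G S T).filter (fun g => y ∈ tr g S)).card : ℝ) =
        (av G S T : ℝ) * cnt ty S (ty y) := by exact_mod_cast h3
    linarith
  have h5 : (((mv G S T).filter (fun g => y ∈ tr g S)).card : ℝ) +
      (((mv G S T).filter (fun g => y ∉ tr g S)).card : ℝ) = av G S T := by
    unfold av
    exact_mod_cast h2
  push_cast
  rw [← mul_pow]
  congr 1
  rw [mul_sub, mul_one, ← h4]
  linarith

/-- the logarithm of the weight -/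
noncomputable def LW (Λ : ℝ) (S T : Finset ι) : (J : ℕ) → (Fin J → G) → ℝ
  | 0, _ => 0
  | J + 1, ω => (∑ x ∈ S, (if ω 0 • x ∈ un (Fin.tail ω) S then
      Real.log (1 - qx (wty ty S T (ty x)) J) else
      Real.log (qx (wty ty S T (ty x)) J) + Λ)) + LW Λ S T J (Fin.tail ω)

/-- the pattern weights -/
noncomputable def Qfun (S T : Finset ι) (j : ℕ) (K : Finset ι) : ℝ :=
  ∏ x ∈ S, (if x ∈ K then 1 - qx (wty ty S T (ty x)) j else qx (wty ty S T (ty x)) j)

lemma Qfun_nonneg (S T : Finset ι) (hw : ∀ x ∈ S, 0 < wty ty S T (ty x)) (j : ℕ)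
    (K : Finset ι) : 0 ≤ Qfun ty S T j K := by
  apply Finset.prod_nonneg
  intro x hx
  split_ifs
  · have := qx_le_one _ (hw x hx) j
    linarith
  · exact (qx_pos _ (hw x hx) j).le

lemma sum_Qfun (S T : Finset ι) (j : ℕ) : ∑ K ∈ S.powerset, Qfun ty S T j K = 1 := by
  have h := Finset.prod_add (fun x => 1 - qx (wty ty S T (ty x)) j)
    (fun x => qx (wty ty S T (ty x)) j) S
  have h1 : ∏ x ∈ S, ((1 - qx (wty ty S T (ty x)) j) + qx (wty ty S T (ty x)) j) = 1 := by
    apply Finset.prod_eq_one
    intro x _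
    ring
  rw [h1] at h
  rw [h]
  apply Finset.sum_congr rfl
  intro K hK
  rw [Finset.mem_powerset] at hK
  unfold Qfun
  rw [Finset.prod_ite]
  congr 1
  · apply Finset.prod_congr _ (fun _ _ => rfl)
    ext x
    rw [Finset.mem_filter]
    exact ⟨fun h => h.2, fun h => ⟨hK h, h⟩⟩
  · apply Finset.prod_congr _ (fun _ _ => rfl)
    ext x
    rw [Finset.mem_filter, Finset.mem_sdiff]

omit [Fintype G] in
lemma exp_LW (A : ℝ) (hA : 0 < A) (S T : Finset ι) (hw : ∀ x ∈ S, 0 < wty ty S T (ty x))
    (J : ℕ) (ω : Fin J → G) :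
    Real.exp (LW ty (Real.log A) S T J ω) =
      QW (Qfun ty S T) S J ω * A ^ (un ω S).card := by
  induction J with
  | zero => simp [LW, QW, un_zero]
  | succ J ih =>
    have hω : ω = Fin.cons (ω 0) (Fin.tail ω) := (Fin.cons_self_tail ω).symm
    have hun : (un ω S).card = (un (Fin.tail ω) S).card +
        (S.card - (Kp S (un (Fin.tail ω) S) (ω 0)).card) := by
      conv_lhs => rw [hω]
      rw [un_cons]
      have : tr (ω 0) S ∪ un (Fin.tail ω) S =
          un (Fin.tail ω) S ∪ (tr (ω 0) S \ un (Fin.tail ω) S) := by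
        rw [Finset.union_sdiff_self_eq_union, Finset.union_comm]
      rw [this, Finset.card_union_of_disjoint Finset.disjoint_sdiff, card_tr_sdiff]
    simp only [LW, QW]
    rw [Real.exp_add, ih, hun, pow_add, Real.exp_sum]
    have h1 : ∏ x ∈ S, Real.exp (if ω 0 • x ∈ un (Fin.tail ω) S then
        Real.log (1 - qx (wty ty S T (ty x)) J) else
        Real.log (qx (wty ty S T (ty x)) J) + Real.log A) =
        Qfun ty S T J (Kp S (un (Fin.tail ω) S) (ω 0)) *
          A ^ (S.card - (Kp S (un (Fin.tail ω) S) (ω 0)).card) := by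
      have h2 : A ^ (S.card - (Kp S (un (Fin.tail ω) S) (ω 0)).card) =
          ∏ x ∈ S, (if x ∈ Kp S (un (Fin.tail ω) S) (ω 0) then (1 : ℝ) else A) := by
        rw [Finset.prod_ite, Finset.prod_const_one, one_mul, Finset.prod_const]
        congr 1
        have h3 : S.filter (fun x => x ∉ Kp S (un (Fin.tail ω) S) (ω 0)) =
            S \ Kp S (un (Fin.tail ω) S) (ω 0) := by
          ext x
          rw [Finset.mem_filter, Finset.mem_sdiff]
        rw [h3, Finset.card_sdiff_of_subset (show Kp S (un (Fin.tail ω) S) (ω 0) ⊆ S from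
          Finset.filter_subset _ _)]
      rw [h2]
      unfold Qfun
      rw [← Finset.prod_mul_distrib]
      apply Finset.prod_congr rfl
      intro x hx
      by_cases hc : ω 0 • x ∈ un (Fin.tail ω) S
      · have hxK : x ∈ Kp S (un (Fin.tail ω) S) (ω 0) := Finset.mem_filter.mpr ⟨hx, hc⟩
        rw [if_pos hc, if_pos hxK, if_pos hxK, mul_one]
        have hJ : 1 ≤ J := by
          by_contra h0
          have : J = 0 := by omega
          subst this
          rw [un_zero] at hc
          exact absurd hc (Finset.notMem_empty _)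
        have := qx_lt_one _ (hw x hx) J hJ
        exact Real.exp_log (by linarith)
      · have hxK : x ∉ Kp S (un (Fin.tail ω) S) (ω 0) :=
          fun h => hc (Finset.mem_filter.mp h).2
        rw [if_neg hc, if_neg hxK, if_neg hxK, Real.exp_add,
          Real.exp_log (qx_pos _ (hw x hx) J), Real.exp_log hA]
    rw [h1]
    ring

lemma sum_pi_succ (P : Finset G) (J : ℕ) (f : (Fin (J + 1) → G) → ℝ) :
    ∑ ω ∈ Fintype.piFinset (fun _ : Fin (J + 1) => P), f ω =
      ∑ ω' ∈ Fintype.piFinset (fun _ : Fin J => P), ∑ g ∈ P, f (Fin.cons g ω') := by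
  classical
  rw [← Finset.sum_product']
  symm
  apply Finset.sum_bij (fun x _ => (Fin.cons x.2 x.1 : Fin (J + 1) → G))
  · rintro ⟨ω', g⟩ h
    rw [Finset.mem_product] at h
    rw [Fintype.mem_piFinset]
    intro j
    refine Fin.cases ?_ ?_ j
    · simpa using h.2
    · intro i
      have := h.1
      rw [Fintype.mem_piFinset] at this
      simpa using this i
  · rintro ⟨ω', g⟩ _ ⟨ω'', g'⟩ _ h
    have h' : (Fin.cons g ω' : Fin (J + 1) → G) = Fin.cons g' ω'' := h
    have := Fin.cons_injective2 h'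
    exact Prod.ext this.2 this.1
  · intro ω hω
    rw [Fintype.mem_piFinset] at hω
    refine ⟨(Fin.tail ω, ω 0), ?_, Fin.cons_self_tail ω⟩
    rw [Finset.mem_product, Fintype.mem_piFinset]
    exact ⟨fun j => hω _, hω 0⟩
  · rintro ⟨ω', g⟩ _
    rfl

lemma sum_LW (hty : ∀ (g : G) x, ty (g • x) = ty x) (Λ : ℝ) (S T : Finset ι)
    (htrans : ∀ x ∈ T, ∀ y ∈ T, ty x = ty y → ∃ γ : G, tr γ T = T ∧ γ • x = y) (J : ℕ) :
    ∑ ω ∈ Fintype.piFinset (fun _ : Fin J => mv G S T), LW ty Λ S T J ω =
      (av G S T : ℝ) ^ J * ∑ x ∈ S, ∑ j ∈ Finset.range J, psi Λ (wty ty S T (ty x)) j := by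
  classical
  induction J with
  | zero => simp [LW]
  | succ J ih =>
    rw [sum_pi_succ]
    have hcardP : ((Fintype.piFinset (fun _ : Fin J => mv G S T)).card : ℝ) =
        (av G S T : ℝ) ^ J := by
      rw [Fintype.card_piFinset]
      simp [av]
    have h1 : ∀ ω' : Fin J → G, ∀ g : G, LW ty Λ S T (J + 1) (Fin.cons g ω' : Fin (J + 1) → G) =
        (∑ x ∈ S, (if g • x ∈ un ω' S then Real.log (1 - qx (wty ty S T (ty x)) J) else
        Real.log (qx (wty ty S T (ty x)) J) + Λ)) + LW ty Λ S T J ω' := by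
      intro ω' g
      simp [LW]
    simp only [h1]
    have h2 : ∀ x ∈ S, ∀ g ∈ mv G S T,
        ∑ ω' ∈ Fintype.piFinset (fun _ : Fin J => mv G S T),
          (if g • x ∈ un ω' S then Real.log (1 - qx (wty ty S T (ty x)) J) else
            Real.log (qx (wty ty S T (ty x)) J) + Λ) =
        (av G S T : ℝ) ^ J * psi Λ (wty ty S T (ty x)) J := by
      intro x hx g hg
      have hgx : g • x ∈ T := by
        rw [mem_mv] at hg
        apply hg
        rw [mem_tr]
        simpa using hx
      have hunc := uncovered_count ty hty S T htrans (g • x) hgx J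
      rw [hty] at hunc
      have hsplit := Finset.card_filter_add_card_filter_not
        (s := Fintype.piFinset (fun _ : Fin J => mv G S T)) (fun ω' => g • x ∈ un ω' S)
      have hcov : (((Fintype.piFinset (fun _ : Fin J => mv G S T)).filter
          (fun ω' => g • x ∈ un ω' S)).card : ℝ) =
          (av G S T : ℝ) ^ J - (av G S T : ℝ) ^ J * (1 - wty ty S T (ty x)) ^ J := by
        rw [← hunc, ← hcardP, ← hsplit]
        push_cast
        ring
      rw [Finset.sum_ite, Finset.sum_const, Finset.sum_const, nsmul_eq_mul, nsmul_eq_mul, hcov,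
        hunc]
      unfold psi
      ring
    calc ∑ ω' ∈ Fintype.piFinset (fun _ : Fin J => mv G S T), ∑ g ∈ mv G S T,
          ((∑ x ∈ S, (if g • x ∈ un ω' S then Real.log (1 - qx (wty ty S T (ty x)) J) else
            Real.log (qx (wty ty S T (ty x)) J) + Λ)) + LW ty Λ S T J ω')
        = (∑ x ∈ S, ∑ g ∈ mv G S T, ∑ ω' ∈ Fintype.piFinset (fun _ : Fin J => mv G S T),
            (if g • x ∈ un ω' S then Real.log (1 - qx (wty ty S T (ty x)) J) else
            Real.log (qx (wty ty S T (ty x)) J) + Λ)) +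
          ∑ ω' ∈ Fintype.piFinset (fun _ : Fin J => mv G S T),
            (av G S T : ℝ) * LW ty Λ S T J ω' := by
          simp only [Finset.sum_add_distrib, Finset.sum_const, nsmul_eq_mul]
          congr 1
          rw [Finset.sum_comm]
          rw [Finset.sum_comm (s := S)]
          apply Finset.sum_congr rfl
          intro g _
          rw [Finset.sum_comm]
      _ = (∑ x ∈ S, ∑ g ∈ mv G S T, (av G S T : ℝ) ^ J * psi Λ (wty ty S T (ty x)) J) +
          (av G S T : ℝ) * ((av G S T : ℝ) ^ J *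
            ∑ x ∈ S, ∑ j ∈ Finset.range J, psi Λ (wty ty S T (ty x)) j) := by
          rw [← Finset.mul_sum, ih]
          congr 1
          apply Finset.sum_congr rfl
          intro x hx
          exact Finset.sum_congr rfl (fun g hg => h2 x hx g hg)
      _ = _ := by
          simp only [Finset.sum_const, nsmul_eq_mul, Finset.sum_range_succ,
            Finset.sum_add_distrib]
          rw [← Finset.mul_sum, ← Finset.mul_sum]
          have : ((mv G S T).card : ℝ) = av G S T := rfl
          rw [this, pow_succ]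
          ring

end counting

end Pool.Agent.W812.EG
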