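import Pool.Agent.W812.EG8

/-! The spread theorem for sets with few kinds of points. -/

namespace Pool.Agent.W812.EG

open Finset

section typed

variable {G ι τ : Type*} [Group G] [Fintype G] [Fintype ι] [DecidableEq ι] [MulAction G ι]
  [DecidableEq τ] (ty : ι → τ)

omit [Fintype ι] in
lemma extremal_false (hty : ∀ (g : G) x, ty (g • x) = ty x) (S T : Finset ι) (hS : S.Nonempty)
    (htrans : ∀ x ∈ T, ∀ y ∈ T, ty x = ty y → ∃ γ : G, tr γ T = T ∧ γ • x = y)
    (hT : ∀ y ∈ T, ty y ∈ S.image ty) (p : ℝ) (hp : 0 < p)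
    (horb : ∀ U ⊆ T, 1 ≤ ((orb G U).card : ℝ) * p ^ U.card)
    (hpos : 0 < av G S T)
    (hK : ∀ K ⊆ S, (av G K T : ℝ) * (4096 * p) ^ (S.card - K.card) ≤ av G S T) : False := by
  classical
  have hav : (0 : ℝ) < av G S T := by exact_mod_cast hpos
  obtain ⟨g₀, hg₀⟩ := Finset.card_pos.mp hpos
  rw [mem_mv] at hg₀
  -- the weights
  have hsT : ∀ x ∈ S, cnt ty S (ty x) ≤ cnt ty T (ty x) ∧ 0 < cnt ty S (ty x) := by
    intro x hx
    constructor
    · have h1 := cover_card ty hty S T g₀ hg₀ (ty x)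
      rw [← h1]
      exact Finset.card_filter_le _ _
    · unfold cnt
      rw [Finset.card_pos]
      exact ⟨x, Finset.mem_filter.mpr ⟨hx, rfl⟩⟩
  have hw : ∀ x ∈ S, 0 < wty ty S T (ty x) := by
    intro x hx
    obtain ⟨h1, h2⟩ := hsT x hx
    unfold wty
    have h3 : (0 : ℝ) < cnt ty S (ty x) := by exact_mod_cast h2
    have h4 : (0 : ℝ) < cnt ty T (ty x) := by exact_mod_cast (lt_of_lt_of_le h2 h1)
    positivity
  have hw1 : ∀ x ∈ S, wty ty S T (ty x) ≤ 1 := by
    intro x hx
    obtain ⟨h1, h2⟩ := hsT x hx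
    unfold wty
    have h4 : (0 : ℝ) < cnt ty T (ty x) := by exact_mod_cast (lt_of_lt_of_le h2 h1)
    rw [div_le_one h4]
    exact_mod_cast h1
  have hTpos : 0 < T.card := by
    have h1 := card_le_of_av_pos S T hpos
    have h2 := Finset.card_pos.mpr hS
    omega
  obtain ⟨J, hJ⟩ : ∃ J, T.card = J + 1 := ⟨T.card - 1, by omega⟩
  -- upper bound
  have hub := sum_weight_le (G := G) (Qfun ty S T) (Qfun_nonneg ty S T hw) 4096 p (by norm_num)
    hp S T (fun j => (sum_Qfun ty S T j).le) hK horb (J + 1)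
  have hPcard : ((Fintype.piFinset (fun _ : Fin (J + 1) => mv G S T)).card : ℝ) =
      (av G S T : ℝ) ^ (J + 1) := by
    rw [Fintype.card_piFinset]
    simp [av]
  have hexp : ∑ ω ∈ Fintype.piFinset (fun _ : Fin (J + 1) => mv G S T),
      Real.exp (LW ty (Real.log 4096) S T (J + 1) ω) ≤
      ((Fintype.piFinset (fun _ : Fin (J + 1) => mv G S T)).card : ℝ) *
        Real.exp (T.card * Real.log 2) := by
    rw [Finset.sum_congr rfl (fun ω _ => exp_LW ty 4096 (by norm_num) S T hw (J + 1) ω), hPcard]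
    refine hub.trans (le_of_eq ?_)
    rw [mul_comm, Real.exp_nat_mul, Real.exp_log (by norm_num)]
  have hPpos : 0 < (Fintype.piFinset (fun _ : Fin (J + 1) => mv G S T)).card := by
    have : (0 : ℝ) < (Fintype.piFinset (fun _ : Fin (J + 1) => mv G S T)).card := by
      rw [hPcard]
      positivity
    exact_mod_cast this
  have hj := avg_le_of_exp _ hPpos _ _ hexp
  rw [sum_LW ty hty (Real.log 4096) S T htrans (J + 1), hPcard] at hj
  have hj2 : ∑ x ∈ S, ∑ j ∈ Finset.range (J + 1), psi (Real.log 4096) (wty ty S T (ty x)) j ≤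
      T.card * Real.log 2 := le_of_mul_le_mul_left hj (by positivity)
  have hlog : Real.log 4096 = 12 * Real.log 2 := by
    have : (4096 : ℝ) = 2 ^ 12 := by norm_num
    rw [this, Real.log_pow]
    norm_num
  have hl2 := Real.log_two_gt_d9
  -- lower bound for each point
  have hlow : ∀ x ∈ S, (6 * Real.log 2 - 3) * (1 / wty ty S T (ty x)) ≤
      ∑ j ∈ Finset.range (J + 1), psi (Real.log 4096) (wty ty S T (ty x)) j := by
    intro x hx
    have h1 := sum_psi_ge (Real.log 4096) _ (hw x hx) (hw1 x hx) J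
    refine le_trans ?_ h1
    have hwx := hw x hx
    have hwx1 := hw1 x hx
    set w := wty ty S T (ty x) with hwdef
    have h2 : (1 : ℝ) ≤ w * ((J + 1 : ℕ) : ℝ) := by
      rw [hwdef]
      unfold wty
      obtain ⟨h3, h4⟩ := hsT x hx
      have h5 : (0 : ℝ) < cnt ty T (ty x) := by exact_mod_cast (lt_of_lt_of_le h4 h3)
      rw [div_mul_eq_mul_div, le_div_iff₀ h5, one_mul]
      have h6 : cnt ty T (ty x) ≤ J + 1 := by
        rw [← hJ]
        exact Finset.card_filter_le _ _
      have h7 : (cnt ty T (ty x) : ℝ) ≤ ((J + 1 : ℕ) : ℝ) := by exact_mod_cast h6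
      have h8 : (1 : ℝ) ≤ cnt ty S (ty x) := by exact_mod_cast h4
      have h9 : (0 : ℝ) ≤ ((J + 1 : ℕ) : ℝ) := by positivity
      nlinarith
    have h3 : (1 - w) ^ (J + 1) ≤ 1 / 2 := by
      have h4 : 1 - w ≤ Real.exp (-w) := by
        have := Real.add_one_le_exp (-w)
        linarith
      calc (1 - w) ^ (J + 1) ≤ Real.exp (-w) ^ (J + 1) := pow_le_pow_left₀ (by linarith) h4 _
        _ = Real.exp (((J + 1 : ℕ) : ℝ) * (-w)) := (Real.exp_nat_mul _ _).symm
        _ ≤ Real.exp (-1) := by
            apply Real.exp_le_exp.mpr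
            linarith
        _ ≤ 1 / 2 := by
            rw [Real.exp_neg, inv_le_comm₀ (Real.exp_pos _) (by norm_num)]
            have := Real.add_one_le_exp (1 : ℝ)
            norm_num
            linarith
    rw [hlog, mul_one_div, div_le_div_iff_of_pos_right hwx]
    nlinarith
  have hsum : ∑ x ∈ S, (1 / wty ty S T (ty x)) = T.card := by
    rw [← Finset.sum_fiberwise_of_maps_to (s := S) (t := S.image ty) (g := ty)
      (fun x hx => Finset.mem_image_of_mem ty hx)]
    rw [Finset.card_eq_sum_card_fiberwise (f := ty) (s := T) (t := S.image ty)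
      (fun y hy => hT y hy)]
    push_cast
    apply Finset.sum_congr rfl
    intro t ht
    obtain ⟨x₀, hx₀, rfl⟩ := Finset.mem_image.mp ht
    obtain ⟨h3, h4⟩ := hsT x₀ hx₀
    have h5 : (0 : ℝ) < cnt ty S (ty x₀) := by exact_mod_cast h4
    have h6 : (0 : ℝ) < cnt ty T (ty x₀) := by exact_mod_cast (lt_of_lt_of_le h4 h3)
    rw [Finset.sum_congr rfl (g := fun _ => (cnt ty T (ty x₀) : ℝ) / cnt ty S (ty x₀)),
      Finset.sum_const, nsmul_eq_mul]
    · have : ((S.filter (fun x => ty x = ty x₀)).card : ℝ) = cnt ty S (ty x₀) := rfl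
      rw [this]
      unfold cnt at *
      field_simp
    · intro x hx
      rw [(Finset.mem_filter.mp hx).2]
      unfold wty
      rw [one_div_div]
  have hfin : (6 * Real.log 2 - 3) * T.card ≤ T.card * Real.log 2 := by
    rw [← hsum, Finset.mul_sum]
    refine (Finset.sum_le_sum hlow).trans ?_
    rw [hsum]
    exact hj2
  have hTr : (0 : ℝ) < T.card := by exact_mod_cast hTpos
  nlinarith

/-- The spread theorem for sets whose points of one type are equivalent. -/
theorem spread_typed (hty : ∀ (g : G) x, ty (g • x) = ty x) (E : Finset ι)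
    (htrans : ∀ x ∈ E, ∀ y ∈ E, ty x = ty y → ∃ γ : G, tr γ E = E ∧ γ • x = y)
    (p : ℝ) (hp : 0 < p)
    (horb : ∀ U ⊆ E, 1 ≤ ((orb G U).card : ℝ) * p ^ U.card)
    (S₀ : Finset ι) : (av G S₀ E : ℝ) ≤ Fintype.card G * (4096 * p) ^ S₀.card := by
  classical
  by_contra hcon
  rw [not_le] at hcon
  have hN : (0 : ℝ) < ((Fintype.card G : ℕ) : ℝ) := by exact_mod_cast Fintype.card_pos
  set N : ℝ := ((Fintype.card G : ℕ) : ℝ) with hNdef
  set c : ℝ := 4096 * p with hc
  have hc0 : 0 < c := by positivity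
  have hS₀ : S₀.Nonempty := by
    rw [Finset.nonempty_iff_ne_empty]
    rintro rfl
    rw [av_empty_left, Finset.card_empty, pow_zero, mul_one] at hcon
    exact lt_irrefl _ hcon
  let R : Finset ι → ℝ := fun S => (av G S E : ℝ) / (N * c ^ S.card)
  obtain ⟨S, hSm, hmax⟩ := Finset.exists_max_image
    ((univ : Finset (Finset ι)).filter (fun S => S.Nonempty)) R
    ⟨S₀, Finset.mem_filter.mpr ⟨mem_univ _, hS₀⟩⟩
  have hSne : S.Nonempty := (Finset.mem_filter.mp hSm).2
  have hR1 : 1 ≤ R S := by
    refine le_trans ?_ (hmax S₀ (Finset.mem_filter.mpr ⟨mem_univ _, hS₀⟩))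
    simp only [R]
    rw [le_div_iff₀ (by positivity), one_mul]
    exact hcon.le
  have hKE : ∀ K ⊆ S, (av G K E : ℝ) * c ^ (S.card - K.card) ≤ av G S E := by
    intro K hKS
    have hle := Finset.card_le_card hKS
    have h1 : R K ≤ R S := by
      rcases K.eq_empty_or_nonempty with rfl | hKne
      · refine le_trans (le_of_eq ?_) hR1
        simp only [R]
        rw [av_empty_left, Finset.card_empty, pow_zero, mul_one]
        exact div_self hN.ne'
      · exact hmax K (Finset.mem_filter.mpr ⟨mem_univ _, hKne⟩)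
    simp only [R] at h1
    have h2 : c ^ S.card = c ^ (S.card - K.card) * c ^ K.card := by
      rw [← pow_add]
      congr 1
      omega
    have h3 := mul_le_mul_of_nonneg_right h1 (show 0 ≤ N * c ^ S.card by positivity)
    calc (av G K E : ℝ) * c ^ (S.card - K.card)
        = (av G K E : ℝ) / (N * c ^ K.card) * (N * c ^ S.card) := by
          rw [h2]
          field_simp
      _ ≤ _ := h3
      _ = av G S E := by
          field_simp
  have hposE : 0 < av G S E := by
    rcases Nat.eq_zero_or_pos (av G S E) with h0 | h0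
    · exfalso
      have : R S = 0 := by simp [R, h0]
      linarith
    · exact h0
  -- restrict to the types of `S`
  set T := E.filter (fun y => ty y ∈ S.image ty) with hTdef
  have hmvT : ∀ K ⊆ S, av G K T = av G K E := by
    intro K hKS
    unfold av
    congr 1
    ext g
    rw [mem_mv, mem_mv]
    constructor
    · intro h
      exact h.trans (Finset.filter_subset _ _)
    · intro h x hx
      rw [hTdef, Finset.mem_filter]
      refine ⟨h hx, ?_⟩
      rw [mem_tr] at hx
      have : ty x = ty (g⁻¹ • x) := (hty g⁻¹ x).symm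
      rw [this]
      exact Finset.mem_image_of_mem ty (hKS hx)
  have htransT : ∀ x ∈ T, ∀ y ∈ T, ty x = ty y → ∃ γ : G, tr γ T = T ∧ γ • x = y := by
    intro x hx y hy hxy
    obtain ⟨γ, h1, h2⟩ := htrans x (Finset.mem_filter.mp hx).1 y (Finset.mem_filter.mp hy).1 hxy
    refine ⟨γ, ?_, h2⟩
    ext z
    rw [mem_tr, hTdef, Finset.mem_filter, Finset.mem_filter, hty]
    have h3 : γ⁻¹ • z ∈ E ↔ z ∈ E := by
      rw [← mem_tr, h1]
    rw [h3]
  refine extremal_false (G := G) ty hty S T hSne htransT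
    (fun y hy => (Finset.mem_filter.mp hy).2) p hp
    (fun U hU => horb U (hU.trans (Finset.filter_subset _ _))) ?_ ?_
  · rw [hmvT S (Finset.Subset.refl _)]
    exact hposE
  · intro K hKS
    rw [hmvT S (Finset.Subset.refl _), hmvT K hKS]
    exact hKE K hKS

end typed

section coloured

/-- the set of colours, with trivial action -/
def Triv (m : ℕ) : Type := Fin m

instance (m : ℕ) : Fintype (Triv m) := inferInstanceAs (Fintype (Fin m))

instance (m : ℕ) : DecidableEq (Triv m) := inferInstanceAs (DecidableEq (Fin m))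

instance (G : Type*) [Group G] (m : ℕ) : MulAction G (Triv m) where
  smul _ x := x
  one_smul _ := rfl
  mul_smul _ _ _ := rfl

lemma triv_smul {G : Type*} [Group G] {m : ℕ} (g : G) (x : Triv m) : g • x = x := rfl

variable {G ι : Type*} [Group G] [Fintype G] [Fintype ι] [DecidableEq ι] [MulAction G ι]

/-- The spread theorem for sets with at most `m` classes of equivalent points. -/
theorem spread_coloured {m : ℕ} (col : ι → Triv m) (E : Finset ι)
    (hcol : ∀ γ : G, tr γ E = E → ∀ x ∈ E, col (γ • x) = col x)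
    (htrans : ∀ x ∈ E, ∀ y ∈ E, col x = col y → ∃ γ : G, tr γ E = E ∧ γ • x = y)
    (p : ℝ) (hp : 0 < p)
    (horb : ∀ U ⊆ E, 1 ≤ ((orb G U).card : ℝ) * p ^ U.card)
    (S : Finset ι) : (av G S E : ℝ) ≤ Fintype.card G * (4096 * m * p) ^ S.card := by
  classical
  -- the coloured copy of `E`
  let E' : Finset (ι × Triv m) := E.image (fun x => (x, col x))
  have hmemE' : ∀ z : ι × Triv m, z ∈ E' ↔ z.1 ∈ E ∧ z.2 = col z.1 := by
    intro z
    simp only [E', Finset.mem_image]
    constructor
    · rintro ⟨x, hx, rfl⟩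
      exact ⟨hx, rfl⟩
    · rintro ⟨h1, h2⟩
      exact ⟨z.1, h1, Prod.ext rfl h2.symm⟩
  have htrE' : ∀ γ : G, tr γ E = E → tr γ E' = E' := by
    intro γ hγ
    have hinv : tr γ⁻¹ E = E := by
      conv_lhs => rw [← hγ]
      exact tr_inv_tr γ E
    ext z
    rw [mem_tr, hmemE', hmemE']
    have h1 : (γ⁻¹ • z).1 = γ⁻¹ • z.1 := rfl
    have h2 : (γ⁻¹ • z).2 = z.2 := rfl
    rw [h1, h2]
    have h3 : γ⁻¹ • z.1 ∈ E ↔ z.1 ∈ E := by rw [← mem_tr, hγ]
    rw [h3]
    constructor
    · rintro ⟨h4, h5⟩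
      exact ⟨h4, by rw [h5, hcol γ⁻¹ hinv z.1 h4]⟩
    · rintro ⟨h4, h5⟩
      exact ⟨h4, by rw [h5, hcol γ⁻¹ hinv z.1 h4]⟩
  have hproj : ∀ U ⊆ E', (U.image Prod.fst).card = U.card := by
    intro U hU
    apply Finset.card_image_of_injOn
    intro z hz z' hz' h
    have h1 := (hmemE' z).mp (hU hz)
    have h2 := (hmemE' z').mp (hU hz')
    have h : z.1 = z'.1 := h
    exact Prod.ext h (by rw [h1.2, h2.2, h])
  have horb' : ∀ U ⊆ E', 1 ≤ ((orb G U).card : ℝ) * p ^ U.card := by
    intro U hU
    have hsub : U.image Prod.fst ⊆ E := by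
      intro x hx
      obtain ⟨z, hz, rfl⟩ := Finset.mem_image.mp hx
      exact ((hmemE' z).mp (hU hz)).1
    have h1 := horb _ hsub
    rw [hproj U hU] at h1
    refine h1.trans (mul_le_mul_of_nonneg_right ?_ (by positivity))
    have h2 : orb G (U.image Prod.fst) ⊆ (orb G U).image (fun V => V.image Prod.fst) := by
      intro V hV
      obtain ⟨g, rfl⟩ := (mem_orb _ _).mp hV
      rw [Finset.mem_image]
      refine ⟨tr g U, (mem_orb _ _).mpr ⟨g, rfl⟩, ?_⟩
      ext x
      simp only [Finset.mem_image, mem_tr]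
      constructor
      · rintro ⟨z, hz, rfl⟩
        exact ⟨g⁻¹ • z, hz, rfl⟩
      · rintro ⟨z, hz, hzx⟩
        refine ⟨g • z, by simpa using hz, ?_⟩
        change g • z.1 = x
        rw [hzx]
        simp
    have h3 := (Finset.card_le_card h2).trans Finset.card_image_le
    exact_mod_cast h3
  have htrans' : ∀ x ∈ E', ∀ y ∈ E', x.2 = y.2 → ∃ γ : G, tr γ E' = E' ∧ γ • x = y := by
    intro x hx y hy hxy
    obtain ⟨h1, h2⟩ := (hmemE' x).mp hx
    obtain ⟨h3, h4⟩ := (hmemE' y).mp hy
    obtain ⟨γ, h5, h6⟩ := htrans x.1 h1 y.1 h3 (by rw [← h2, ← h4, hxy])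
    exact ⟨γ, htrE' γ h5, Prod.ext h6 hxy⟩
  have hsp := spread_typed (G := G) (fun z : ι × Triv m => z.2) (fun _ _ => rfl) E' htrans' p hp
    horb'
  -- sum over the colourings of `S`
  have hcover : mv G S E ⊆ (univ : Finset (S → Triv m)).biUnion
      (fun τ => mv G (univ.image (fun x : S => ((x : ι), τ x))) E') := by
    intro g hg
    rw [mem_mv] at hg
    rw [Finset.mem_biUnion]
    refine ⟨fun x => col (g • (x : ι)), mem_univ _, ?_⟩
    rw [mem_mv]
    intro z hz
    rw [mem_tr, Finset.mem_image] at hz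
    obtain ⟨x, _, hx⟩ := hz
    have hz1 : z = (g • (x : ι), col (g • (x : ι))) := by
      have : z = g • (g⁻¹ • z) := by simp
      rw [this, ← hx]
      rfl
    rw [hz1, hmemE']
    refine ⟨hg ?_, rfl⟩
    rw [mem_tr]
    simp
  have hcard : ∀ τ : S → Triv m, (univ.image (fun x : S => ((x : ι), τ x))).card = S.card := by
    intro τ
    rw [Finset.card_image_of_injective, Finset.card_univ, Fintype.card_coe]
    intro x y h
    exact Subtype.ext (Prod.mk.inj h).1
  have h1 : (av G S E : ℝ) ≤ ∑ τ : S → Triv m,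
      (av G (univ.image (fun x : S => ((x : ι), τ x))) E' : ℝ) := by
    have := (Finset.card_le_card hcover).trans Finset.card_biUnion_le
    unfold av
    exact_mod_cast this
  refine h1.trans ?_
  calc _ ≤ ∑ τ : S → Triv m, (Fintype.card G : ℝ) * (4096 * p) ^ S.card := by
        apply Finset.sum_le_sum
        intro τ _
        have := hsp (univ.image (fun x : S => ((x : ι), τ x)))
        rw [hcard τ] at this
        exact this
    _ = (m : ℝ) ^ S.card * ((Fintype.card G : ℝ) * (4096 * p) ^ S.card) := by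
        rw [Finset.sum_const, nsmul_eq_mul, Finset.card_univ, Fintype.card_fun, Fintype.card_coe]
        have : Fintype.card (Triv m) = m := Fintype.card_fin m
        rw [this]
        push_cast
        rfl
    _ = _ := by
        have : (4096 * (m : ℝ) * p) ^ S.card = (m : ℝ) ^ S.card * (4096 * p) ^ S.card := by
          rw [← mul_pow]
          congr 1
          ring
        rw [this]
        ring

end coloured

end Pool.Agent.W812.EG
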